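import Pool.Agent.H57.LH.Targets2

/-!
# All first-order reducts of structures with local completions: rows EXS, EXN, EXO, EXT
-/

set_option autoImplicit false
set_option linter.unusedVariables false

namespace Pool.Agent.H57.LH

open Pool.Agent.H68.BP Pool.Agent.H58.SF Pool.Agent.H53.GC Pool.Agent.H53.NR
open Pool.Agent.H57.AR (tp ty Ty)
open Pool.Agent.H44.KR (HB Amg Tyi Rz Rlz Clp LInj Prm TpOn LcN)
open Function

/-- equality of types of tuples, unfolded -/
theorem tp_iff {V W : Type} {ρ : Sig} {𝔹 : Str ρ V} {x y : W → V} :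
    tp 𝔹 x = tp 𝔹 y ↔ (∀ a b, x a = x b ↔ y a = y b) ∧
      ∀ (l : Fin ρ.m) (z : Fin (ρ.ar l) → W), 𝔹 l (fun i => x (z i)) ↔ 𝔹 l (fun i => y (z i)) := by
  constructor
  · intro h
    exact ⟨fun a b => iff_of_eq (congrFun (congrFun (congrArg Prod.fst h) a) b),
      fun l z => iff_of_eq (congrFun (congrFun (congrArg Prod.snd h) l) z)⟩
  · rintro ⟨h2, h3⟩
    exact Prod.ext (funext fun a => funext fun b => propext (h2 a b))
      (funext fun l => funext fun z => propext (h3 l z))

section

variable {V W : Type} {ρ : Sig} {𝔹 : Str ρ V} {c : ℕ} {cs : Fin c → V} {T : Set V} {b : ℕ}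

/-- a tuple of elements of `T` and constants is a tuple with padding -/
theorem pad_comp {J : Type} (f : W → T) (z : J → W ⊕ Fin c) (w₀ : W) :
    (fun i => pad (fun i => Sum.map f id (z i) : J → T ⊕ Fin c) (f w₀) i) =
      fun i => f (pad z w₀ i) := by
  funext i
  rcases hz : z i with w | j
  · rw [pad_inl hz]
    exact pad_inl (by rw [hz]; rfl) _
  · rw [pad_inr hz]
    exact pad_inr (j := j) (by rw [hz]; rfl) _

theorem fil_comp {J : Type} (f : W → T) (z : J → W ⊕ Fin c) :
    fil (fun i => Sum.map f id (z i) : J → T ⊕ Fin c) = fil z := by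
  funext i
  rcases hz : z i with w | j
  · rw [fil_inl hz]
    exact fil_inl (t := f w) (by rw [hz]; rfl)
  · rw [fil_inr hz]
    exact fil_inr (j := j) (by rw [hz]; rfl)

/-- relations of tuples of elements of `T` and constants -/
theorem mix_iff (f : W → T) (l : Fin ρ.m) (z : Fin (ρ.ar l) → W ⊕ Fin c) (i₀ : Fin (ρ.ar l))
    (w₀ : W) (h : z i₀ = Sum.inl w₀) :
    𝔹 l (fun i => Sum.elim (fun w => (f w : V)) cs (z i)) ↔
      ExR 𝔹 cs T b (Sum.inl ⟨l, fil z⟩) (fun i => Sum.inl (f (pad z w₀ i))) := by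
  have h1 := exR_mix (𝔹 := 𝔹) (cs := cs) (T := T) (b := b) l
    (fun i => Sum.map f id (z i)) i₀ (f w₀) (by rw [h]; rfl)
  rw [fil_comp] at h1
  have h2 : (fun i => (Sum.inl (pad (fun i => Sum.map f id (z i) : Fin (ρ.ar l) → T ⊕ Fin c)
      (f w₀) i) : ExD T b)) = fun i => Sum.inl (f (pad z w₀ i)) :=
    funext fun i => congrArg Sum.inl (congrFun (pad_comp f z w₀) i)
  have h3 : (fun i => Sum.elim (fun t : T => (t : V)) cs (Sum.map f id (z i))) =
      fun i => Sum.elim (fun w => (f w : V)) cs (z i) := by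
    funext i
    rcases z i with w | j <;> rfl
  rw [h3] at h1
  rw [← h1]
  exact iff_of_eq (congrArg _ h2)

end

theorem pf_EXS : T_EXS := by
  intro V ρ 𝔹 c cs T b har hT
  refine ⟨fun x y => ⟨fun h => ?_, fun h => ?_⟩, fun x p h => ?_, fun p q => ⟨fun h => ?_,
    fun h => ?_⟩⟩
  · have h1 := ty_strOn.1 h
    rw [tp_iff]
    refine ⟨fun a b => ?_, fun l z => ?_⟩
    · rcases a with a | a <;> rcases b with b | b
      · exact iff_of_true rfl rfl
      · exact iff_of_false (fun e => hT.1 b (by rw [← show (x : V) = cs b from e]; exact x.2))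
          (fun e => hT.1 b (by rw [← show (y : V) = cs b from e]; exact y.2))
      · exact iff_of_false (fun e => hT.1 a (by rw [show cs a = (x : V) from e]; exact x.2))
          (fun e => hT.1 a (by rw [show cs a = (y : V) from e]; exact y.2))
      · exact Iff.rfl
    · by_cases hz : ∃ i, z i = Sum.inl ()
      · obtain ⟨i₀, hi⟩ := hz
        have h2 := mix_iff (𝔹 := 𝔹) (cs := cs) (b := b) (fun _ : Unit => x) l z i₀ () hi
        have h3 := mix_iff (𝔹 := 𝔹) (cs := cs) (b := b) (fun _ : Unit => y) l z i₀ () hi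
        exact h2.trans ((h1 (Sum.inl ⟨l, fil z⟩)).trans h3.symm)
      · have h4 : ∀ v : V, (fun i => Sum.elim (fun _ : Unit => v) cs (z i)) =
            fun i => Sum.elim (fun _ : Unit => (x : V)) cs (z i) := by
          intro v
          funext i
          rcases hzi : z i with u | j
          · exact absurd ⟨i, hzi⟩ hz
          · rfl
        rw [h4 (y : V)]
  · refine ty_strOn.2 fun s => ?_
    rcases s with ⟨l, f⟩ | β
    · have h1 := (tp_iff.1 h).2
      rw [exR_inl l f (fun _ => x), exR_inl l f (fun _ => y)]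
      refine and_congr ⟨fun ⟨i, h, _⟩ => ⟨i, h, fun _ _ => rfl⟩,
        fun ⟨i, h, _⟩ => ⟨i, h, fun _ _ => rfl⟩⟩ ?_
      have h2 : ∀ v : V, (fun i => (f i).elim v cs) =
          fun i => Sum.elim (fun _ : Unit => v) cs ((f i).elim (Sum.inl ()) Sum.inr) := by
        intro v
        funext i
        rcases f i with _ | j <;> rfl
      rw [h2 (x : V), h2 (y : V)]
      exact h1 l _
    · rw [exR_inr, exR_inr]
      exact iff_of_false (fun ⟨n, hn⟩ => nomatch hn) (fun ⟨n, hn⟩ => nomatch hn)
  · have h1 := (ty_strOn.1 h (Sum.inr p.1)).2 ⟨p.2, rfl⟩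
    obtain ⟨n, hn⟩ := h1
    exact nomatch hn
  · obtain ⟨n, hn⟩ := (ty_strOn.1 h (Sum.inr p.1)).1 ⟨p.2, rfl⟩
    exact (congrArg Prod.fst (Sum.inr.inj hn)).symm
  · refine ty_strOn.2 fun s => ?_
    rcases s with ⟨l, f⟩ | β
    · refine iff_of_false (fun h2 => ?_) (fun h2 => ?_)
      · obtain ⟨y, hy⟩ := exR_inl_elem h2
        exact nomatch congrFun hy ⟨0, har l⟩
      · obtain ⟨y, hy⟩ := exR_inl_elem h2
        exact nomatch congrFun hy ⟨0, har l⟩
    · rw [exR_inr, exR_inr]
      constructor
      · rintro ⟨n, hn⟩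
        have h5 : p.1 = β := congrArg Prod.fst (Sum.inr.inj hn)
        exact ⟨q.2, congrArg Sum.inr (Prod.ext (h.symm.trans h5) rfl)⟩
      · rintro ⟨n, hn⟩
        have h5 : q.1 = β := congrArg Prod.fst (Sum.inr.inj hn)
        exact ⟨p.2, congrArg Sum.inr (Prod.ext (h.trans h5) rfl)⟩

theorem pf_EXN (hEXS : T_EXS) : T_EXN := by
  intro V σ ρ 𝔸 𝔹 c cs T b e har hT p
  obtain ⟨-, h2, h3⟩ := hEXS V ρ 𝔹 c cs T b har hT
  refine ⟨⟨Sum.inr p, rfl⟩, ?_, ?_⟩
  · have h4 := (strOn_imp (R := ExR 𝔹 cs T b) (P := fun u v =>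
      ty (ExB 𝔹 cs T b) u = ty (ExB 𝔹 cs T b) (Sum.inr p) → v = u)).2 (by
        rintro (⟨l, f⟩ | β) z hz i j hi
        · obtain ⟨y, hy⟩ := exR_inl_elem hz
          subst hy
          exact absurd hi (h2 _ _)
        · have h5 : i = j := Subsingleton.elim (α := Unit) i j
          rw [h5])
    intro l z hz i hi j
    exact h4 l z hz i j hi
  · intro l x y hxy hx
    have h5 : (fun i => dEx cs e T (x i)) = fun i => dEx cs e T (y i) := by
      funext i
      rcases hxy i with h | ⟨h, h'⟩
      · rw [h]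
      · rcases hx' : x i with t | q
        · rw [hx'] at h
          exact absurd h (h2 _ _)
        · rcases hy' : y i with t | q'
          · rw [hy'] at h'
            exact absurd h' (h2 _ _)
          · rw [hx'] at h
            rw [hy'] at h'
            have h6 := (h3 _ _).1 (h.trans h'.symm)
            show cs (e q.1) = cs (e q'.1)
            rw [h6]
    have h6 : 𝔸 l (fun i => dEx cs e T (x i)) := hx
    show 𝔸 l (fun i => dEx cs e T (y i))
    rw [← h5]
    exact h6

theorem pf_EXO (hEXS : T_EXS) : T_EXO := by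
  intro V σ ρ 𝔸 𝔹 c cs T b e har hT x hx
  obtain ⟨h1, h2, h3⟩ := hEXS V ρ 𝔹 c cs T b har hT
  -- elements of the type
  have hel : ∀ u : ExD T b, ty (ExB 𝔹 cs T b) u = ty (ExB 𝔹 cs T b) (Sum.inl x) →
      ∃ y : T, u = Sum.inl y ∧ ty 𝔹 (y : V) = ty 𝔹 (x : V) := by
    rintro (y | p) hu
    · refine ⟨y, rfl, ?_⟩
      have h4 := (tp_iff.1 ((h1 y x).1 hu)).2
      funext l
      exact propext (h4 l (fun _ => Sum.inl ()))
    · exact absurd hu.symm (h2 _ _)
  refine ⟨⟨Sum.inl x, rfl⟩, ?_, ?_⟩
  · have h4 := (strOn_imp (R := ExR 𝔹 cs T b) (P := fun u v =>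
      ty (ExB 𝔹 cs T b) u = ty (ExB 𝔹 cs T b) (Sum.inl x) → v = u)).2 (by
        rintro (⟨l, f⟩ | β) z hz i j hi
        · obtain ⟨y, hy⟩ := exR_inl_elem hz
          subst hy
          obtain ⟨y', hy', hty⟩ := hel _ hi
          have hy'' : y' = y i := (Sum.inl.inj hy').symm
          subst hy''
          obtain ⟨⟨i₀, hi₀, hf⟩, hB⟩ := (exR_inl l f y).1 hz
          -- a real place whose element has the type of `x`
          obtain ⟨i₁, hi₁, hyi⟩ : ∃ i₁, f i₁ = none ∧ y i₁ = y i := by
            rcases hfi : f i with _ | k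
            · exact ⟨i, hfi, rfl⟩
            · exact ⟨i₀, hi₀, (hf i (by rw [hfi]; exact Option.some_ne_none _)).symm⟩
          have h5 : ty 𝔹 ((f i₁).elim (y i₁ : V) cs) = ty 𝔹 (x : V) := by
            rw [hi₁]
            show ty 𝔹 (y i₁ : V) = _
            rw [hyi]
            exact hty
          have h6 := hx.b l _ hB i₁ h5
          have h7 : ∀ k, (f k).elim (y k : V) cs = (y i : V) := by
            intro k
            rw [h6 k, hi₁]
            show (y i₁ : V) = _
            rw [hyi]
          have h8 : ∀ k, f k = none := by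
            intro k
            rcases hfk : f k with _ | k'
            · rfl
            · have h9 := h7 k
              rw [hfk] at h9
              exact absurd (show cs k' ∈ T from by
                rw [show cs k' = (y i : V) from h9]
                exact (y i).2) (hT.1 k')
          have h9 := h7 j
          rw [h8 j] at h9
          exact congrArg Sum.inl (Subtype.ext h9)
        · have h5 : i = j := Subsingleton.elim (α := Unit) i j
          rw [h5])
    intro l z hz i hi j
    exact h4 l z hz i j hi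
  · intro l x' y' hxy hx'
    refine hx.a l _ _ (fun i => ?_) hx'
    rcases hxy i with h | ⟨h, h'⟩
    · left
      rw [h]
    · right
      obtain ⟨u, hu, hu'⟩ := hel _ h
      obtain ⟨v, hv, hv'⟩ := hel _ h'
      rw [hu, hv]
      exact ⟨hu', hv'⟩

theorem pf_EXT : T_EXT := by
  intro V W ρ 𝔹 c cs T b e har hT x y hxy
  obtain ⟨h1, h2⟩ := tp_strOn.1 hxy
  have hmark : ∀ w β, (∃ n : ℕ, x w = Sum.inr (β, n)) ↔ ∃ n : ℕ, y w = Sum.inr (β, n) := by
    intro w β
    exact h2 (Sum.inr β) (fun _ => w)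
  -- elements of `T` and constants
  have hkind : ∀ w, (∃ t t' : T, x w = Sum.inl t ∧ y w = Sum.inl t') ∨
      ∃ (β : Fin b) (n n' : ℕ), x w = Sum.inr (β, n) ∧ y w = Sum.inr (β, n') := by
    intro w
    rcases hx : x w with t | ⟨β, n⟩
    · rcases hy : y w with t' | ⟨β, n⟩
      · exact Or.inl ⟨t, t', rfl, rfl⟩
      · obtain ⟨n', hn'⟩ := (hmark w β).2 ⟨n, hy⟩
        rw [hx] at hn'
        exact nomatch hn'
    · obtain ⟨n', hn'⟩ := (hmark w β).1 ⟨n, hx⟩
      exact Or.inr ⟨β, n, n', rfl, hn'⟩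
  have hne : ∀ (t : T) j, (t : V) ≠ cs j := fun t j h => hT.1 j (by rw [← h]; exact t.2)
  classical
  -- the index of the elements of `T`
  let W' : Type := {w : W // ∃ t, x w = Sum.inl t}
  have hW' : ∀ w : W', ∃ t t' : T, x w.1 = Sum.inl t ∧ y w.1 = Sum.inl t' := by
    intro w
    rcases hkind w.1 with h | ⟨β, n, n', h, -⟩
    · exact h
    · obtain ⟨t, ht⟩ := w.2
      rw [h] at ht
      exact nomatch ht
  choose f g hf hg using hW'
  -- places
  let ι : W ⊕ Fin c → W' ⊕ Fin c := Sum.elim
    (fun w => if h : ∃ t, x w = Sum.inl t then Sum.inl ⟨w, h⟩ else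
      if h' : ∃ p : Fin b × ℕ, x w = Sum.inr p then Sum.inr (e h'.choose.1) else
        Sum.inl ⟨w, by
          rcases hx : x w with t | p
          · exact ⟨t, rfl⟩
          · exact absurd ⟨p, hx⟩ h'⟩) Sum.inr
  have hιx : ∀ a, Sum.elim (fun w => dEx cs e T (x w)) cs a =
      Sum.elim (fun w => (f w : V)) cs (ι a) := by
    rintro (w | j)
    · show dEx cs e T (x w) = Sum.elim (fun w => (f w : V)) cs (dite _ _ _)
      split_ifs with h h'
      · show dEx cs e T (x w) = (f ⟨w, h⟩ : V)
        rw [hf ⟨w, h⟩]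
        rfl
      · show dEx cs e T (x w) = cs (e h'.choose.1)
        have h3 := h'.choose_spec
        exact congrArg (dEx cs e T) h3
      · exfalso
        rcases hx : x w with t | p
        · exact h ⟨t, hx⟩
        · exact h' ⟨p, hx⟩
    · rfl
  have hιy : ∀ a, Sum.elim (fun w => dEx cs e T (y w)) cs a =
      Sum.elim (fun w => (g w : V)) cs (ι a) := by
    rintro (w | j)
    · show dEx cs e T (y w) = Sum.elim (fun w => (g w : V)) cs (dite _ _ _)
      split_ifs with h h'
      · show dEx cs e T (y w) = (g ⟨w, h⟩ : V)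
        rw [hg ⟨w, h⟩]
        rfl
      · show dEx cs e T (y w) = cs (e h'.choose.1)
        have h3 := h'.choose_spec
        rcases hkind w with ⟨t, t', h4, -⟩ | ⟨β, n, n', h4, h5⟩
        · have h6 : (Sum.inl t : ExD T b) = Sum.inr h'.choose := h4.symm.trans h3
          exact nomatch h6
        · have h6 : (Sum.inr (β, n) : ExD T b) = Sum.inr h'.choose := h4.symm.trans h3
          rw [h5, ← Sum.inr.inj h6]
          rfl
      · exfalso
        rcases hx : x w with t | p
        · exact h ⟨t, hx⟩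
        · exact h' ⟨p, hx⟩
    · rfl
  have hfg : ∀ w w', f w = f w' ↔ g w = g w' := by
    intro w w'
    have h3 := h1 w.1 w'.1
    rw [hf, hf, hg, hg] at h3
    exact ⟨fun h => Sum.inl.inj (h3.1 (congrArg Sum.inl h)),
      fun h => Sum.inl.inj (h3.2 (congrArg Sum.inl h))⟩
  have key : tp 𝔹 (Sum.elim (fun w => (f w : V)) cs) = tp 𝔹 (Sum.elim (fun w => (g w : V)) cs) := by
    rw [tp_iff]
    refine ⟨fun a a' => ?_, fun l z => ?_⟩
    · rcases a with w | j <;> rcases a' with w' | j'
      · show (f w : V) = f w' ↔ (g w : V) = g w'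
        rw [← Subtype.ext_iff, ← Subtype.ext_iff]
        exact hfg w w'
      · exact iff_of_false (hne _ _) (hne _ _)
      · exact iff_of_false (fun h => hne (f w') j h.symm) (fun h => hne (g w') j h.symm)
      · exact Iff.rfl
    · by_cases hz : ∃ i w, z i = Sum.inl w
      · obtain ⟨i₀, w₀, hi⟩ := hz
        have h3 := mix_iff (𝔹 := 𝔹) (cs := cs) (b := b) f l z i₀ w₀ hi
        have h4 := mix_iff (𝔹 := 𝔹) (cs := cs) (b := b) g l z i₀ w₀ hi
        refine h3.trans (Iff.trans ?_ h4.symm)
        have h5 := h2 (Sum.inl ⟨l, fil z⟩) (fun i => (pad z w₀ i).1)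
        have h6 : (fun i => x (pad z w₀ i).1) = fun i => Sum.inl (f (pad z w₀ i)) :=
          funext fun i => hf _
        have h7 : (fun i => y (pad z w₀ i).1) = fun i => Sum.inl (g (pad z w₀ i)) :=
          funext fun i => hg _
        rw [h6, h7] at h5
        exact h5
      · have h4 : (fun i => Sum.elim (fun w => (f w : V)) cs (z i)) =
            fun i => Sum.elim (fun w => (g w : V)) cs (z i) := by
          funext i
          rcases hzi : z i with u | j
          · exact absurd ⟨i, u, hzi⟩ hz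
          · rfl
        rw [h4]
  rw [tp_iff] at key ⊢
  constructor
  · intro a a'
    rw [hιx, hιx, hιy, hιy]
    exact key.1 _ _
  · intro l z
    have h3 : (fun i => Sum.elim (fun w => dEx cs e T (x w)) cs (z i)) =
        fun i => Sum.elim (fun w => (f w : V)) cs (ι (z i)) := funext fun i => hιx _
    have h4 : (fun i => Sum.elim (fun w => dEx cs e T (y w)) cs (z i)) =
        fun i => Sum.elim (fun w => (g w : V)) cs (ι (z i)) := funext fun i => hιy _
    rw [h3, h4]
    exact key.2 l _

end Pool.Agent.H57.LH
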