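import Pool.Agent.H57.LH.Defs
import Pool.Agent.H50.PT.SG

/-!
# Structures whose symbols are in finite types, and the expansions: basic lemmas
-/

set_option autoImplicit false
set_option linter.unusedVariables false

namespace Pool.Agent.H57.LH

open Pool.Agent.H68.BP Pool.Agent.H58.SF Pool.Agent.H53.GC Pool.Agent.H53.NR
open Pool.Agent.H57.AR (tp ty Ty)
open Pool.Agent.H57.EQ (Cx)
open Pool.Agent.H44.KR (TpOn Rz)
open Function

section strOn

variable {S : Type} {Ar : S → Type} [Finite S] [∀ s, Finite (Ar s)] {W V Y : Type}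

/-- a property of all relations, on the tuples with a property which depends on the range -/
theorem strOn_on {R : (s : S) → (Ar s → V) → Prop} {R' : (s : S) → (Ar s → Y) → Prop}
    {x : W → V} {y : W → Y} (A : Set W) :
    (∀ (l : Fin (sigOf S Ar).m) (z : Fin ((sigOf S Ar).ar l) → W), (∀ i, z i ∈ A) →
      (strOn R l (fun i => x (z i)) ↔ strOn R' l (fun i => y (z i)))) ↔
      ∀ (s : S) (z : Ar s → W), (∀ i, z i ∈ A) →
        (R s (fun i => x (z i)) ↔ R' s (fun i => y (z i))) := by
  constructor
  · intro h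
    have h1 : ∀ (l : Fin (sigOf S Ar).m) (z : Ar ((Finite.equivFin S).symm l) → W),
        (∀ i, z i ∈ A) → (R _ (fun i => x (z i)) ↔ R' _ (fun i => y (z i))) := by
      intro l z hz
      have h2 := h l (fun i => z ((Finite.equivFin (Ar ((Finite.equivFin S).symm l))).symm i))
        fun i => hz _
      have h3 : R _ (fun p => x (z ((Finite.equivFin (Ar ((Finite.equivFin S).symm l))).symm
          (Finite.equivFin (Ar ((Finite.equivFin S).symm l)) p)))) ↔
          R' _ (fun p => y (z ((Finite.equivFin (Ar ((Finite.equivFin S).symm l))).symm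
          (Finite.equivFin (Ar ((Finite.equivFin S).symm l)) p)))) := h2
      have e1 : (fun p => x (z ((Finite.equivFin (Ar ((Finite.equivFin S).symm l))).symm
          (Finite.equivFin (Ar ((Finite.equivFin S).symm l)) p)))) = fun p => x (z p) := by
        funext p
        exact congrArg (fun p => x (z p)) (Equiv.symm_apply_apply _ _)
      have e2 : (fun p => y (z ((Finite.equivFin (Ar ((Finite.equivFin S).symm l))).symm
          (Finite.equivFin (Ar ((Finite.equivFin S).symm l)) p)))) = fun p => y (z p) := by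
        funext p
        exact congrArg (fun p => y (z p)) (Equiv.symm_apply_apply _ _)
      rw [e1, e2] at h3
      exact h3
    intro s
    have h2 := h1 (Finite.equivFin S s)
    rw [Equiv.symm_apply_apply] at h2
    exact h2
  · intro h l z hz
    exact h _ (fun p => z (Finite.equivFin (Ar ((Finite.equivFin S).symm l)) p)) fun p => hz _

/-- types of tuples -/
theorem tp_strOn {R : (s : S) → (Ar s → V) → Prop} {x y : W → V} :
    tp (strOn R) x = tp (strOn R) y ↔ (∀ a b, x a = x b ↔ y a = y b) ∧
      ∀ (s : S) (z : Ar s → W), R s (fun i => x (z i)) ↔ R s (fun i => y (z i)) := by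
  have h1 := strOn_on (R := R) (R' := R) (x := x) (y := y) Set.univ
  simp only [Set.mem_univ, forall_const] at h1
  rw [← h1]
  constructor
  · intro h
    exact ⟨fun a b => iff_of_eq (congrFun (congrFun (congrArg Prod.fst h) a) b),
      fun l z => iff_of_eq (congrFun (congrFun (congrArg Prod.snd h) l) z)⟩
  · rintro ⟨h2, h3⟩
    exact Prod.ext (funext fun a => funext fun b => propext (h2 a b))
      (funext fun l => funext fun z => propext (h3 l z))

/-- types of tuples on a set -/
theorem tpOn_strOn {R : (s : S) → (Ar s → V) → Prop} {A : Set W} {x y : W → V} :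
    TpOn (strOn R) A x y ↔ (∀ a ∈ A, ∀ b ∈ A, x a = x b ↔ y a = y b) ∧
      ∀ (s : S) (z : Ar s → W), (∀ i, z i ∈ A) →
        (R s (fun i => x (z i)) ↔ R s (fun i => y (z i))) :=
  and_congr Iff.rfl (strOn_on A)

/-- realization of a label -/
theorem rz_strOn {R : (s : S) → (Ar s → V) → Prop} {κ : (s : S) → (Ar s → W) → Prop} {g : Set W}
    {f : W → V} :
    Rz (strOn R) id (strOn κ) g f ↔ (∀ x ∈ g, ∀ y ∈ g, f x = f y → x = y) ∧
      ∀ (s : S) (z : Ar s → W), (∀ i, z i ∈ g) → (R s (fun i => f (z i)) ↔ κ s z) :=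
  and_congr Iff.rfl (strOn_on (R' := κ) (y := id) g)

/-- types of elements -/
theorem ty_strOn {R : (s : S) → (Ar s → V) → Prop} {x y : V} :
    ty (strOn R) x = ty (strOn R) y ↔ ∀ s, R s (fun _ => x) ↔ R s (fun _ => y) := by
  have h1 := strOn_on (W := Unit) (R := R) (R' := R) (x := fun _ => x) (y := fun _ => y) Set.univ
  constructor
  · intro h s
    refine (h1.1 (fun l z _ => ?_)) s (fun _ => ()) (fun _ => trivial)
    exact iff_of_eq (congrFun h l)
  · intro h
    funext l
    exact propext (h1.2 (fun s z _ => h s) l (fun _ => ()) fun _ => trivial)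

/-- a property of the pairs of entries of all tuples in relations -/
theorem strOn_imp {R : (s : S) → (Ar s → V) → Prop} {P : V → V → Prop} :
    (∀ (l : Fin (sigOf S Ar).m) (z : Fin ((sigOf S Ar).ar l) → V), strOn R l z →
      ∀ i j, P (z i) (z j)) ↔ ∀ (s : S) (z : Ar s → V), R s z → ∀ i j, P (z i) (z j) := by
  constructor
  · intro h
    have h1 : ∀ (l : Fin (sigOf S Ar).m) (z : Ar ((Finite.equivFin S).symm l) → V), R _ z →
        ∀ i j, P (z i) (z j) := by
      intro l z hz i j
      have e1 : (fun p => z ((Finite.equivFin (Ar ((Finite.equivFin S).symm l))).symm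
          (Finite.equivFin (Ar ((Finite.equivFin S).symm l)) p))) = z := by
        funext p
        exact congrArg z (Equiv.symm_apply_apply _ _)
      have h2 := h l (fun i => z ((Finite.equivFin (Ar ((Finite.equivFin S).symm l))).symm i)) (by
        show R _ (fun p => z ((Finite.equivFin (Ar ((Finite.equivFin S).symm l))).symm
          (Finite.equivFin (Ar ((Finite.equivFin S).symm l)) p)))
        rw [e1]
        exact hz)
        (Finite.equivFin (Ar ((Finite.equivFin S).symm l)) i)
        (Finite.equivFin (Ar ((Finite.equivFin S).symm l)) j)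
      simp only [Equiv.symm_apply_apply] at h2
      exact h2
    intro s
    have h2 := h1 (Finite.equivFin S s)
    rw [Equiv.symm_apply_apply] at h2
    exact h2
  · intro h l z hz i j
    have h2 := h _ (fun p => z (Finite.equivFin (Ar ((Finite.equivFin S).symm l)) p)) hz
      ((Finite.equivFin (Ar ((Finite.equivFin S).symm l))).symm i)
      ((Finite.equivFin (Ar ((Finite.equivFin S).symm l))).symm j)
    beta_reduce at h2
    rw [Equiv.apply_symm_apply, Equiv.apply_symm_apply] at h2
    exact h2

end strOn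

section mix

variable {J α : Type} {c : ℕ}

/-- the places which are filled by constants -/
def fil (w : J → α ⊕ Fin c) (i : J) : Option (Fin c) := Sum.elim (fun _ => none) some (w i)

/-- the tuple where the filled places repeat `a` -/
def pad (w : J → α ⊕ Fin c) (a : α) (i : J) : α := Sum.elim id (fun _ => a) (w i)

theorem fil_inl {w : J → α ⊕ Fin c} {i : J} {t : α} (h : w i = Sum.inl t) : fil w i = none := by
  unfold fil
  rw [h]
  rfl

theorem fil_inr {w : J → α ⊕ Fin c} {i : J} {j : Fin c} (h : w i = Sum.inr j) :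
    fil w i = some j := by
  unfold fil
  rw [h]
  rfl

theorem pad_inl {w : J → α ⊕ Fin c} {i : J} {t : α} (h : w i = Sum.inl t) (a : α) :
    pad w a i = t := by
  unfold pad
  rw [h]
  rfl

theorem pad_inr {w : J → α ⊕ Fin c} {i : J} {j : Fin c} (h : w i = Sum.inr j) (a : α) :
    pad w a i = a := by
  unfold pad
  rw [h]
  rfl

variable {V : Type} {ρ : Sig}

/-- The relations of the structure over the constants: the tuple `w` of elements of `T` and of
constants, with an element `w i₀ = inl t₀` of `T`. -/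
theorem exR_mix {𝔹 : Str ρ V} {cs : Fin c → V} {T : Set V} {b : ℕ} (l : Fin ρ.m)
    (w : Fin (ρ.ar l) → T ⊕ Fin c) (i₀ : Fin (ρ.ar l)) (t₀ : T) (h : w i₀ = Sum.inl t₀) :
    ExR 𝔹 cs T b (Sum.inl ⟨l, fil w⟩) (fun i => Sum.inl (pad w t₀ i)) ↔
      𝔹 l (fun i => Sum.elim (fun t : T => (t : V)) cs (w i)) := by
  have key : (fun i => (fil w i).elim ((pad w t₀ i : T) : V) cs) =
      fun i => Sum.elim (fun t : T => (t : V)) cs (w i) := by
    funext i
    rcases hw : w i with t | j
    · rw [fil_inl hw, pad_inl hw]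
      rfl
    · rw [fil_inr hw]
      rfl
  constructor
  · rintro ⟨y, i₁, -, h2, -, h4⟩
    have h5 : y = fun i => pad w t₀ i := by
      funext i
      exact (Sum.inl.inj (h2 i)).symm
    subst h5
    have h6 : 𝔹 l (fun i => (fil w i).elim ((pad w t₀ i : T) : V) cs) := h4
    rw [key] at h6
    exact h6
  · intro h4
    refine ⟨fun i => pad w t₀ i, i₀, fil_inl h, fun i => rfl, fun i hi => ?_, ?_⟩
    · rcases hw : w i with t | j
      · exact absurd (fil_inl hw) hi
      · exact (pad_inr hw t₀).trans (pad_inl h t₀).symm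
    · show 𝔹 l (fun i => (fil w i).elim ((pad w t₀ i : T) : V) cs)
      rw [key]
      exact h4

/-- the relations with filled places, for tuples of elements of `T` -/
theorem exR_inl {𝔹 : Str ρ V} {cs : Fin c → V} {T : Set V} {b : ℕ} (l : Fin ρ.m)
    (f : Fin (ρ.ar l) → Option (Fin c)) (y : Fin (ρ.ar l) → T) :
    ExR 𝔹 cs T b (Sum.inl ⟨l, f⟩) (fun i => Sum.inl (y i)) ↔
      (∃ i₀, f i₀ = none ∧ ∀ i, f i ≠ none → y i = y i₀) ∧
        𝔹 l (fun i => (f i).elim (y i : V) cs) := by
  constructor
  · rintro ⟨y', i₀, h1, h2, h3, h4⟩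
    have h5 : y' = y := by
      funext i
      exact (Sum.inl.inj (h2 i)).symm
    subst h5
    exact ⟨⟨i₀, h1, h3⟩, h4⟩
  · rintro ⟨⟨i₀, h1, h3⟩, h4⟩
    exact ⟨y, i₀, h1, fun i => rfl, h3, h4⟩

/-- Tuples in the relations with filled places consist of elements of `T`. -/
theorem exR_inl_elem {𝔹 : Str ρ V} {cs : Fin c → V} {T : Set V} {b : ℕ} {l : Fin ρ.m}
    {f : Fin (ρ.ar l) → Option (Fin c)} {z : Fin (ρ.ar l) → ExD T b}
    (h : ExR 𝔹 cs T b (Sum.inl ⟨l, f⟩) z) : ∃ y : Fin (ρ.ar l) → T, z = fun i => Sum.inl (y i) := by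
  obtain ⟨y, i₀, -, h2, -⟩ := h
  exact ⟨y, funext h2⟩

/-- the marks -/
theorem exR_inr {𝔹 : Str ρ V} {cs : Fin c → V} {T : Set V} {b : ℕ} (β : Fin b)
    (z : ExA ρ c b (Sum.inr β) → ExD T b) :
    ExR 𝔹 cs T b (Sum.inr β) z ↔ ∃ n : ℕ, z () = Sum.inr (β, n) := Iff.rfl

end mix

end Pool.Agent.H57.LH
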