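import Pool.Agent.H57.LH.Targets
import Pool.Agent.H57.LH.Ex

/-!
# All first-order reducts of structures with local completions: intermediate targets
-/

set_option autoImplicit false
set_option linter.unusedVariables false

namespace Pool.Agent.H57.LH

open Pool.Agent.H68.BP Pool.Agent.H58.SF Pool.Agent.H53.GC Pool.Agent.H53.NR
open Pool.Agent.H53.GR (Dm Ps)
open Pool.Agent.H57.AR (tp ty tpo pullO Ty OT HomEq El ElD FamR Od GmR INJ lft)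
open Pool.Agent.H57.SO (Pal Col vt Bh Sbn fib sigF)
open Pool.Agent.H57.EQ (Cx T_CYF)
open Pool.Agent.H57.LCI (LocalCompletions)
open Pool.Agent.H44.KR (HB Amg Tyi Rlz Clp LInj Prm TpOn RmL LcN Pl lr blk Fv kv RkI Kd JJ Yc IsTh
  Can Plf Pls)
open Function

/-- the two elements are equal in the ordered type -/
def EqO {ρ : Sig} (t : OT ρ (Fin 2)) : Prop := ¬ t.2 0 1 ∧ ¬ t.2 1 0

/-- The equality of the values at a pair depends only on the types of the elements and on the set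
of the coordinates where they are equal. -/
def T_ZIG : Prop :=
  ∀ (V : Type) (σ ρ : Sig) [LinearOrder V] (𝔸 : Str σ V) (𝔹 : Str ρ V) (m : ℕ), OrdL 𝔹 →
    1 ≤ m → Cyg 𝔹 m → ∀ (I : Type) [Finite I] (R : (I → Ty ρ (Fin 2)) → Ty ρ (Fin 2) → Prop)
      (Ψ : (k : ℕ) → (I → OT ρ (Fin k)) → OT ρ (Fin k)), CanP 𝔸 𝔹 R Ψ →
      ∀ p q : I → Fin 2 → V, (∀ i a, ty 𝔹 (q i a) = ty 𝔹 (p i a)) →
        (∀ i, q i 0 = q i 1 ↔ p i 0 = p i 1) → EqO (Ψ 2 (fun i => tpo 𝔹 (p i))) →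
        EqO (Ψ 2 (fun i => tpo 𝔹 (q i)))

/-- A binary behaviour which fixes all types and is injective on the blocks of elements of a type
which is not blind. -/
def CmA {V : Type} {σ ρ : Sig} (𝔸 : Str σ V) (𝔹 : Str ρ V) : Prop :=
  ∃ (τ : (Fin 2 → SS 𝔹) → SS 𝔹) (κ : (Fin 2 → SS 𝔹) → (Fin 2 → SS 𝔹) → Set (Fin 2) → Prop),
    Bh (P0 𝔹) 𝔸 (c0 𝔹) τ κ ∧ (∀ s, τ (fun _ => s) = s) ∧
    ∀ s : SS 𝔹, ¬ Blind 𝔸 𝔹 s.1 → ∀ A, κ (fun _ => s) (fun _ => s) A → A = Set.univ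

/-- all types which are not blind -/
def T_CMA : Prop :=
  ∀ (V : Type) (σ ρ : Sig) (𝔸 : Str σ V) (𝔹 : Str ρ V), Cor 𝔸 𝔹 →
    (∀ s : SS 𝔹, ¬ Blind 𝔸 𝔹 s.1 → B2L 𝔸 𝔹 s) → CmA 𝔸 𝔹

/-- the blind types -/
def T_CMF : Prop :=
  ∀ (V : Type) (σ ρ : Sig) (𝔸 : Str σ V) (𝔹 : Str ρ V), Cor 𝔸 𝔹 → CmA 𝔸 𝔹 →
    INJ (P0 𝔹) 𝔸 (c0 𝔹)

theorem cml_of (h1 : T_CMA) (h2 : T_CMF) : T_CML :=
  fun V σ ρ 𝔸 𝔹 hC hB => h2 V σ ρ 𝔸 𝔹 hC (h1 V σ ρ 𝔸 𝔹 hC hB)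

/-- symbols without places can be dropped -/
def T_ZER : Prop :=
  ∀ (V : Type) (ρ : Sig) (𝔹 : Str ρ V), Homogeneous 𝔹 → LocalCompletions 𝔹 →
    ∃ (ρ' : Sig) (𝔹' : Str ρ' V), (∀ l, 1 ≤ ρ'.ar l) ∧ Homogeneous 𝔹' ∧ LocalCompletions 𝔹' ∧
      ∀ g : V ≃ V, IsAut 𝔹' g → IsAut 𝔹 g

end Pool.Agent.H57.LH
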