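import Pool.Agent.H57.LH.Defs
import Pool.Agent.H44.KR.Targets

/-!
# All first-order reducts of structures with local completions: targets
-/

set_option autoImplicit false
set_option linter.unusedVariables false

namespace Pool.Agent.H57.LH

open Pool.Agent.H68.BP Pool.Agent.H58.SF Pool.Agent.H53.GC Pool.Agent.H53.NR
open Pool.Agent.H53.GR (Dm Ps)
open Pool.Agent.H57.AR (tp ty tpo pullO Ty OT HomEq El ElD FamR Od GmR INJ lft)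
open Pool.Agent.H57.SO (Pal Col vt Bh Sbn fib sigF)
open Pool.Agent.H57.EQ (Cx T_CYF)
open Pool.Agent.H57.LCI (LocalCompletions)
open Pool.Agent.H44.KR (HB Amg Tyi Rlz Clp LInj Prm TpOn RmL LcN Pl lr blk Fv kv RkI Kd JJ Yc IsTh
  Can Plf Pls)
open Function

/-! ### Part R: the Ramsey property and canonization -/

/-- the Ramsey property of `V` -/
def T_RMV : Prop :=
  ∀ (V : Type) (ρ : Sig) (𝔹 : Str ρ V) (L : ℕ), HB 𝔹 → RmL 𝔹 L → RmV 𝔹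

/-- products -/
def T_PRV : Prop := ∀ (V : Type) (ρ : Sig) (𝔹 : Str ρ V), RmV 𝔹 → PrV 𝔹

/-- `Ψ` gives the ordered types of the values of a map with the property `R` on the finite set
`F`. -/
def RelF {V : Type} {σ ρ : Sig} [LinearOrder V] {I : Type} (𝔸 : Str σ V) (𝔹 : Str ρ V)
    (R : (I → Ty ρ (Fin 2)) → Ty ρ (Fin 2) → Prop) (K : ℕ)
    (Ψ : (I → OT ρ (Fin K)) → OT ρ (Fin K)) (F : Finset V) : Prop :=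
  ∃ ψ : (I → V) → V,
    (∀ (l : Fin σ.m) (z : Fin (σ.ar l) → I → V), (∀ a i, z a i ∈ F) →
      (∀ i, 𝔸 l (fun a => z a i)) → 𝔸 l (fun a => ψ (z a))) ∧
    (∀ u w : I → V, (∀ i, u i ∈ F) → (∀ i, w i ∈ F) →
      R (fun i => tp 𝔹 ![u i, w i]) (tp 𝔹 ![ψ u, ψ w])) ∧
    ∀ z : Fin K → I → V, (∀ a i, z a i ∈ F) →
      tpo 𝔹 (fun a => ψ (z a)) = Ψ (fun i => tpo 𝔹 (fun a => z a i))

/-- canonization on finite sets -/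
def T_CNA : Prop :=
  ∀ (V : Type) (σ ρ : Sig) [LinearOrder V] (𝔸 : Str σ V) (𝔹 : Str ρ V), Nonempty V →
    Tyi 𝔸 𝔹 → PrV 𝔹 → ∀ (I : Type) [Finite I] (R : (I → Ty ρ (Fin 2)) → Ty ρ (Fin 2) → Prop),
      LocP 𝔸 𝔹 R → ∀ (K : ℕ) (F : Finset V), ∃ Ψ, RelF 𝔸 𝔹 R K Ψ F

/-- compactness -/
def T_CNB : Prop :=
  ∀ (V : Type) (σ ρ : Sig) [LinearOrder V] (𝔸 : Str σ V) (𝔹 : Str ρ V), (∀ l, 1 ≤ ρ.ar l) →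
    ∀ (I : Type) [Finite I] (R : (I → Ty ρ (Fin 2)) → Ty ρ (Fin 2) → Prop),
      (∀ (K : ℕ) (F : Finset V), ∃ Ψ, RelF 𝔸 𝔹 R K Ψ F) → ∃ Ψ, CanP 𝔸 𝔹 R Ψ

/-- the statement of the canonization for `(V, <, 𝔹)` and `𝔸` -/
def Cnz {V : Type} {σ ρ : Sig} [LinearOrder V] (𝔸 : Str σ V) (𝔹 : Str ρ V) : Prop :=
  ∀ (I : Type) [Finite I] (R : (I → Ty ρ (Fin 2)) → Ty ρ (Fin 2) → Prop), LocP 𝔸 𝔹 R →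
    ∃ Ψ, CanP 𝔸 𝔹 R Ψ

/-! ### Part K: kernels -/

/-- Zigzag cycles of pairs with given types of the elements. -/
def Cyg {V : Type} {ρ : Sig} (𝔹 : Str ρ V) (m : ℕ) : Prop :=
  ∀ p q : Fin 2 → V, p 0 ≠ p 1 → q 0 ≠ q 1 → ty 𝔹 (q 0) = ty 𝔹 (p 0) →
    ty 𝔹 (q 1) = ty 𝔹 (p 1) → ∃ f : Fin (2 * m + 2) → V, Injective f ∧
      (∀ i i' : Fin (2 * m + 2), (i' : ℕ) = i + 1 →
        ((i : ℕ) % 2 = 0 → tp 𝔹 ![f i, f i'] = tp 𝔹 p) ∧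
        ((i : ℕ) % 2 = 1 → tp 𝔹 ![f i', f i] = tp 𝔹 p)) ∧
      tp 𝔹 ![f 0, f (Fin.last (2 * m + 1))] = tp 𝔹 q

/-- zigzag cycles -/
def T_CYG : Prop :=
  ∀ (V : Type) (ρ : Sig) (𝔹 : Str ρ V) (N : ℕ), HB 𝔹 → LcN 𝔹 N → ∃ m : ℕ, 1 ≤ m ∧ Cyg 𝔹 m

/-- Canonical maps give behaviours. -/
def T_BHP : Prop :=
  ∀ (V : Type) (σ ρ : Sig) [LinearOrder V] (𝔸 : Str σ V) (𝔹 : Str ρ V) (m : ℕ), HB 𝔹 →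
    OrdL 𝔹 → Tyi 𝔸 𝔹 → 1 ≤ m → Cyg 𝔹 m →
    ∀ (I : Type) [Finite I] (R : (I → Ty ρ (Fin 2)) → Ty ρ (Fin 2) → Prop)
      (Ψ : (k : ℕ) → (I → OT ρ (Fin k)) → OT ρ (Fin k)), CanP 𝔸 𝔹 R Ψ →
      ∃ (τ : (I → SS 𝔹) → SS 𝔹) (κ : (I → SS 𝔹) → (I → SS 𝔹) → Set I → Prop),
        Bh (P0 𝔹) 𝔸 (c0 𝔹) τ κ ∧
        ∀ (W : Type) [Finite W] (G : I → W → V) (ψ : W → V),
          (∀ (k : ℕ) (z : Fin k → W),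
            tpo 𝔹 (fun a => ψ (z a)) = Ψ k (fun i => tpo 𝔹 (fun a => G i (z a)))) →
          (∀ w, vs 𝔹 (ψ w) = τ (fun i => vs 𝔹 (G i w))) ∧
          ∀ u w, ψ u = ψ w ↔ κ (fun i => vs 𝔹 (G i u)) (fun i => vs 𝔹 (G i w))
            {i | G i u = G i w}

/-- the kernel of maps with a given action on the types -/
def T_KRL : Prop :=
  ∀ (V : Type) (σ ρ : Sig) [LinearOrder V] (𝔸 : Str σ V) (𝔹 : Str ρ V) (m : ℕ), HB 𝔹 →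
    OrdL 𝔹 → Tyi 𝔸 𝔹 → 1 ≤ m → Cyg 𝔹 m → Cnz 𝔸 𝔹 → ∀ (I : Type) [Finite I]
      (τ : (I → SS 𝔹) → SS 𝔹), Sbn (P0 𝔹) 𝔸 (c0 𝔹) τ → ∃ κ, Bh (P0 𝔹) 𝔸 (c0 𝔹) τ κ

/-- canonization of behaviours -/
def T_CBL : Prop :=
  ∀ (V : Type) (σ ρ : Sig) [LinearOrder V] (𝔸 : Str σ V) (𝔹 : Str ρ V), HB 𝔹 → Cnz 𝔸 𝔹 →
    ∀ (I : Type) [Finite I] (τ : (I → SS 𝔹) → SS 𝔹)
      (κ : (I → SS 𝔹) → (I → SS 𝔹) → Set I → Prop), Bh (P0 𝔹) 𝔸 (c0 𝔹) τ κ →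
      ∃ Ψ, GmR (P0 𝔹) 𝔸 𝔹 (c0 𝔹) τ κ Ψ

/-- a binary behaviour which fixes all types and is injective on the blocks of type `s` -/
def B2L {V : Type} {σ ρ : Sig} (𝔸 : Str σ V) (𝔹 : Str ρ V) (s : SS 𝔹) : Prop :=
  ∃ (τ : (Fin 2 → SS 𝔹) → SS 𝔹) (κ : (Fin 2 → SS 𝔹) → (Fin 2 → SS 𝔹) → Set (Fin 2) → Prop),
    Bh (P0 𝔹) 𝔸 (c0 𝔹) τ κ ∧ (∀ s', τ (fun _ => s') = s') ∧
    ∀ A, κ (fun _ => s) (fun _ => s) A → A = Set.univ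

/-- from local injections to behaviours -/
def T_LBL : Prop :=
  ∀ (V : Type) (σ ρ : Sig) [LinearOrder V] (𝔸 : Str σ V) (𝔹 : Str ρ V) (m : ℕ), HB 𝔹 →
    OrdL 𝔹 → Tyi 𝔸 𝔹 → 1 ≤ m → Cyg 𝔹 m → Cnz 𝔸 𝔹 → Prm 𝔸 𝔹 →
    ∀ s : SS 𝔹, LInj 𝔸 𝔹 s.1 → ¬ Clp 𝔸 𝔹 s.1 → B2L 𝔸 𝔹 s

/-- all types together -/
def T_CML : Prop :=
  ∀ (V : Type) (σ ρ : Sig) (𝔸 : Str σ V) (𝔹 : Str ρ V), Cor 𝔸 𝔹 →
    (∀ s : SS 𝔹, ¬ Blind 𝔸 𝔹 s.1 → B2L 𝔸 𝔹 s) → INJ (P0 𝔹) 𝔸 (c0 𝔹)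

/-! ### Part S: the actions on the types -/

/-- the palette is a palette for `c0` -/
def T_COL : Prop := ∀ (V : Type) (ρ : Sig) (𝔹 : Str ρ V), HB 𝔹 → Col (P0 𝔹) (c0 𝔹)

/-- `v` gives the types of the values on the blocks of the shape. -/
def IsV {V : Type} {ρ : Sig} {L : ℕ} (𝔹 : Str ρ V) (Φ : Kd ρ L JJ → Yc ρ) (r : Fin 3) (j : ℕ)
    (v : (Fin 2 → SS 𝔹) → SS 𝔹) : Prop :=
  ∀ (x : Fin 2 → V) (rk : Pl L × V → ℕ), RkI rk (blk L r j (fun c => x (lr r c))) →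
    (Fv 𝔹 Φ rk (blk L r j (fun c => x (lr r c))) (blk L r j (fun c => x (lr r c)))).2.1 =
      (v (fun d => vs 𝔹 (x d))).1

/-- the block of the region `0` with the entries `x` -/
def blk0 {V : Type} (L : ℕ) (x : Fin 6 → V) (c : Fin 6) : Pl L × V := (Sum.inl c, x c)

/-- `v` gives the types of the values on the blocks of the region `0`. -/
def IsV6 {V : Type} {ρ : Sig} {L : ℕ} (𝔹 : Str ρ V) (Φ : Kd ρ L JJ → Yc ρ)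
    (v : (Fin 6 → SS 𝔹) → SS 𝔹) : Prop :=
  ∀ (x : Fin 6 → V) (rk : Pl L × V → ℕ), RkI rk (blk0 L x) →
    (Fv 𝔹 Φ rk (blk0 L x) (blk0 L x)).2.1 = (v (fun c => vs 𝔹 (x c))).1

/-- types of values for each shape -/
def T_OPV : Prop :=
  ∀ (V : Type) (σ ρ : Sig) (𝔸 : Str σ V) (𝔹 : Str ρ V) (L : ℕ) (Φ : Kd ρ L JJ → Yc ρ), HB 𝔹 →
    Can 𝔸 𝔹 L Φ → ∀ (r : Fin 3) (j : ℕ), Plf L r j → ∃ v, IsV 𝔹 Φ r j v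

/-- the six-ary action -/
def T_OP6 : Prop :=
  ∀ (V : Type) (σ ρ : Sig) (𝔸 : Str σ V) (𝔹 : Str ρ V) (L : ℕ) (Φ : Kd ρ L JJ → Yc ρ), HB 𝔹 →
    Can 𝔸 𝔹 L Φ → ∃ v, IsV6 𝔹 Φ v ∧ Sbn (P0 𝔹) 𝔸 (c0 𝔹) v

/-- the first shape -/
def T_OP0 : Prop :=
  ∀ (V : Type) (σ ρ : Sig) (𝔸 : Str σ V) (𝔹 : Str ρ V) (L : ℕ) (Φ : Kd ρ L JJ → Yc ρ), HB 𝔹 →
    ∀ (r : Fin 3) v v6, IsV 𝔹 Φ r 0 v → IsV6 𝔹 Φ v6 → ∀ t, v t = v6 (fun c => t (lr r c))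

/-- the last shape -/
def T_OPE : Prop :=
  ∀ (V : Type) (σ ρ : Sig) (𝔸 : Str σ V) (𝔹 : Str ρ V) (L : ℕ) (Φ : Kd ρ L JJ → Yc ρ), HB 𝔹 →
    Can 𝔸 𝔹 L Φ → ∀ (r : Fin 3) v v', IsV 𝔹 Φ r (2 * L + 2) v → IsV 𝔹 Φ 0 (2 * L + 2) v' →
      v = v'

/-- switching between two shapes -/
def T_OPC : Prop :=
  ∀ (V : Type) (σ ρ : Sig) (𝔸 : Str σ V) (𝔹 : Str ρ V) (L : ℕ) (Φ : Kd ρ L JJ → Yc ρ), HB 𝔹 →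
    Can 𝔸 𝔹 L Φ → ∀ (r : Fin 3) (j : ℕ), Plf L r j → Plf L r (j + 1) → Pls L r j →
    ∀ v v', IsV 𝔹 Φ r j v → IsV 𝔹 Φ r (j + 1) v' → ∀ (κ : Fin 2), (κ : ℕ) = j % 2 →
    ∀ H : SS 𝔹 → Prop, ∃ τ : (Fin 2 → SS 𝔹) → SS 𝔹, Sbn (P0 𝔹) 𝔸 (c0 𝔹) τ ∧
      ∀ t, (H (t κ) → τ t = v' t) ∧ (¬ H (t κ) → τ t = v t)

/-- the actions of the shapes -/
structure Ops {V : Type} {σ ρ : Sig} (𝔸 : Str σ V) (𝔹 : Str ρ V) (n : ℕ)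
    (v : Fin 3 → ℕ → (Fin 2 → SS 𝔹) → SS 𝔹) (v6 : (Fin 6 → SS 𝔹) → SS 𝔹) (θ : SS 𝔹 → SS 𝔹) :
    Prop where
  six : Sbn (P0 𝔹) 𝔸 (c0 𝔹) v6
  zero : ∀ r t, v r 0 t = v6 (fun c => t (lr r c))
  last : ∀ r, v r n = v 0 n
  sw : ∀ r j, j < n → ∀ (κ : Fin 2), (κ : ℕ) = j % 2 → ∀ H : SS 𝔹 → Prop,
    ∃ τ : (Fin 2 → SS 𝔹) → SS 𝔹, Sbn (P0 𝔹) 𝔸 (c0 𝔹) τ ∧
      ∀ t, (H (t κ) → τ t = v r (j + 1) t) ∧ (¬ H (t κ) → τ t = v r j t)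
  con : ∀ r j, j ≤ n → ∀ s, v r j (fun _ => s) = θ s

/-- cyclic actions on the types -/
def T_SRL : Prop :=
  ∀ (V : Type) (σ ρ : Sig) (𝔸 : Str σ V) (𝔹 : Str ρ V) (n : ℕ) v v6 θ, HB 𝔹 → Prm 𝔸 𝔹 →
    Col (P0 𝔹) (c0 𝔹) → Ops 𝔸 𝔹 n v v6 θ → T_CYF → T_COR → T_OMG →
    ∃ N : ℕ, ∀ p : ℕ, p.Prime → N < p → ∃ τ : (ZMod p → SS 𝔹) → SS 𝔹,
      Sbn (P0 𝔹) 𝔸 (c0 𝔹) τ ∧ ∀ t, τ (fun i => t (i + 1)) = τ t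

/-! ### Part F: the fibres -/

/-- an Olšák polymorphism of the template of the fibres (helper44) -/
def T_FIB : Prop :=
  ∀ (V : Type) (σ ρ : Sig) (𝔸 : Str σ V) (𝔹 : Str ρ V), Cor 𝔸 𝔹 → Oligo 𝔸 →
    ¬ PPConstructsK3 𝔸 → ∃ M₀ : ℕ, ∀ M, M₀ ≤ M → HasOlsak (tfL 𝔸 𝔹 M (c0 𝔹)) (tfL 𝔸 𝔹 M (c0 𝔹))

/-! ### Part T: the template -/

/-- boundedness -/
def T_BDL : Prop :=
  ∀ (V : Type) (ρ : Sig) (𝔹 : Str ρ V) (N : ℕ), HB 𝔹 → LcN 𝔹 N → ∃ M₀ : ℕ, ∀ M, M₀ ≤ M → BddL 𝔹 M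

/-- the order -/
def T_ORL : Prop :=
  ∀ (V : Type) (ρ : Sig) (𝔹 : Str ρ V), HB 𝔹 → Countable V → ∃ _ : LinearOrder V, OrdL 𝔹

/-- Combinations by polymorphisms of the template of the fibres. -/
def T_DDL : Prop :=
  ∀ (V : Type) (σ ρ : Sig) [LinearOrder V] (𝔸 : Str σ V) (𝔹 : Str ρ V) (M : ℕ),
    BaseL 𝔸 𝔹 M → ∀ (A : Type) [Finite A] [Nonempty A] (N : (A → Dm ρ M) → Dm ρ M),
      IsPoly (tfL 𝔸 𝔹 M (c0 𝔹)) (tfL 𝔸 𝔹 M (c0 𝔹)) N →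
      ∀ (W : Type) [Finite W] (rk : W → ℕ), Injective rk → ∀ (G : A → W → V),
        (∀ a, Injective (G a)) → (∀ a a' w, ty 𝔹 (G a w) = ty 𝔹 (G a' w)) →
        ∃ ψ : W → V, Injective ψ ∧ Cx 𝔸 G ψ ∧ (∀ a w, ty 𝔹 (ψ w) = ty 𝔹 (G a w)) ∧
          ∀ (n : Fin M) (u : Fin (n + 1) → W), StrictMono (fun i => rk (u i)) →
            N (fun a => ⟨n, pull 𝔹 (fun i => G a (u i))⟩) = ⟨n, pull 𝔹 (fun i => ψ (u i))⟩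

/-- from canonical maps to polymorphisms of the template -/
def T_TFL : Prop :=
  ∀ (V : Type) (σ ρ : Sig) [LinearOrder V] (𝔸 : Str σ V) (𝔹 : Str ρ V) (M : ℕ),
    BaseL 𝔸 𝔹 M → ∀ (I : Type) [Finite I] [Nonempty I] (τ : (I → SS 𝔹) → SS 𝔹)
      (κ : (I → SS 𝔹) → (I → SS 𝔹) → Set I → Prop)
      (Ψ : (k : ℕ) → (I → OT ρ (Fin k)) → OT ρ (Fin k)), GmR (P0 𝔹) 𝔸 𝔹 (c0 𝔹) τ κ Ψ →
      ∃ F, TpL 𝔸 𝔹 M τ κ F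

/-- the cyclic polymorphism of the template -/
def T_CPL : Prop :=
  ∀ (V : Type) (σ ρ : Sig) [LinearOrder V] (𝔸 : Str σ V) (𝔹 : Str ρ V) (M : ℕ),
    BaseL 𝔸 𝔹 M → ∀ (p : ℕ) (f : (ZMod p → Dm ρ M) → Dm ρ M), p.Prime →
      IsPoly (tfL 𝔸 𝔹 M (c0 𝔹)) (tfL 𝔸 𝔹 M (c0 𝔹)) f → (∀ x, f (fun i => x (i + 1)) = f x) →
      ∀ (τ : (ZMod p → SS 𝔹) → SS 𝔹)
        (κ : (ZMod p → SS 𝔹) → (ZMod p → SS 𝔹) → Set (ZMod p) → Prop)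
        (F : (ZMod p → El (SS 𝔹) ρ M) → El (SS 𝔹) ρ M), TpL 𝔸 𝔹 M τ κ F →
        (∀ t, τ (fun i => t (i + 1)) = τ t) →
        (∀ t t' A, κ (fun i => t (i + 1)) (fun i => t' (i + 1)) {i | i + 1 ∈ A} ↔ κ t t' A) →
        ∃ u : (ZMod p → El (SS 𝔹) ρ M) → El (SS 𝔹) ρ M,
          IsPoly (tpL 𝔸 𝔹 M) (tpL 𝔸 𝔹 M) u ∧ ∀ z, u (fun i => z (i + 1)) = u z

/-- correctness of the reduction -/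
def T_REL : Prop :=
  ∀ (V : Type) (σ ρ : Sig) [LinearOrder V] (𝔸 : Str σ V) (𝔹 : Str ρ V) (M : ℕ),
    BaseL 𝔸 𝔹 M → ∀ (n : ℕ) (𝕏 : Str σ (Fin n)),
      (∃ f, IsHom 𝕏 𝔸 f) ↔ ∃ q : Ps M n → El (SS 𝔹) ρ M,
        ∀ (s : Option (Fin σ.m)) (y : Fin (arP σ M s) → Fin n), relP 𝕏 M s y →
          FamR (P0 𝔹) 𝔸 𝔹 M (c0 𝔹) (tfL 𝔸 𝔹 M (c0 𝔹)) s (fun e => q ⟨e.1, fun i => y (e.2 i)⟩)

/-! ### Part A: presentations -/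

/-- local completions in the form of `Pool.Agent.H44.KR.LcN` -/
def T_LCN : Prop :=
  ∀ (V : Type) (ρ : Sig) (𝔹 : Str ρ V), Nonempty V → LocalCompletions 𝔹 → ∃ N : ℕ, LcN 𝔹 N

/-- the converse -/
def T_LNC : Prop :=
  ∀ (V : Type) (ρ : Sig) (𝔹 : Str ρ V) (N : ℕ), Nonempty V → LcN 𝔹 N → LocalCompletions 𝔹

/-- homogeneity -/
def T_HMG : Prop :=
  ∀ (V : Type) (ρ : Sig) (𝔹 : Str ρ V), Homogeneous 𝔹 → Hmg 𝔹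

/-- homogeneity by back and forth -/
def T_HHG : Prop :=
  ∀ (V : Type) (ρ : Sig) (𝔹 : Str ρ V), Countable V → Hmg 𝔹 → Homogeneous 𝔹

/-- There are no algebraic elements except for fixed elements. -/
def Nal {V : Type} {ρ : Sig} (𝔹 : Str ρ V) : Prop :=
  ∀ (W : Type) [Finite W] [DecidableEq W] (x : W → V) (w₀ : W) (F : Finset V),
    (∀ w, w ≠ w₀ → x w ≠ x w₀) → (∃ y, y ≠ x w₀ ∧ ty 𝔹 y = ty 𝔹 (x w₀)) →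
    ∃ y, y ∉ F ∧ tp 𝔹 (update x w₀ y) = tp 𝔹 x

def T_NAA : Prop :=
  ∀ (V : Type) (ρ : Sig) (𝔹 : Str ρ V), Hmg 𝔹 → LocalCompletions 𝔹 → Nal 𝔹

def T_NAB : Prop :=
  ∀ (V : Type) (ρ : Sig) (𝔹 : Str ρ V), (∀ l, 1 ≤ ρ.ar l) → Hmg 𝔹 → Nal 𝔹 → ∀ F : Finset V,
    ∃ (c : ℕ) (cs : Fin c → V), Injective cs ∧ (∀ x ∈ F, ∃ j, cs j = x) ∧ AmC 𝔹 cs

/-- homogeneity over constants -/
def T_AMC : Prop :=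
  ∀ (V : Type) (ρ : Sig) (𝔹 : Str ρ V) (c : ℕ) (cs : Fin c → V), Amg 𝔹 → AmC 𝔹 cs

/-- the expansion: homogeneity -/
def T_EXA : Prop :=
  ∀ (V : Type) (ρ : Sig) (𝔹 : Str ρ V) (c : ℕ) (cs : Fin c → V) (T : Set V) (b : ℕ),
    (∀ l, 1 ≤ ρ.ar l) → AmC 𝔹 cs → InvT 𝔹 cs T → Amg (ExB 𝔹 cs T b)

/-- the expansion: local completions -/
def T_EXL : Prop :=
  ∀ (V : Type) (ρ : Sig) (𝔹 : Str ρ V) (c : ℕ) (cs : Fin c → V) (T : Set V) (b N : ℕ),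
    (∀ l, 1 ≤ ρ.ar l) → Injective cs → Hmg 𝔹 → InvT 𝔹 cs T → Nonempty (ExD T b) → LcN 𝔹 N →
    ∃ N', LcN (ExB 𝔹 cs T b) N'

/-- the types of tuples in the expansion -/
def T_EXT : Prop :=
  ∀ (V W : Type) (ρ : Sig) (𝔹 : Str ρ V) (c : ℕ) (cs : Fin c → V) (T : Set V) (b : ℕ)
    (e : Fin b → Fin c), (∀ l, 1 ≤ ρ.ar l) → InvT 𝔹 cs T →
    ∀ x y : W → ExD T b, tp (ExB 𝔹 cs T b) x = tp (ExB 𝔹 cs T b) y →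
      tp 𝔹 (Sum.elim (fun w => dEx cs e T (x w)) cs) = tp 𝔹 (Sum.elim (fun w => dEx cs e T (y w)) cs)

/-- the types of elements in the expansion -/
def T_EXS : Prop :=
  ∀ (V : Type) (ρ : Sig) (𝔹 : Str ρ V) (c : ℕ) (cs : Fin c → V) (T : Set V) (b : ℕ),
    (∀ l, 1 ≤ ρ.ar l) → InvT 𝔹 cs T →
    (∀ x y : T, ty (ExB 𝔹 cs T b) (Sum.inl x) = ty (ExB 𝔹 cs T b) (Sum.inl y) ↔
      tp 𝔹 (Sum.elim (fun _ : Unit => (x : V)) cs) = tp 𝔹 (Sum.elim (fun _ : Unit => (y : V)) cs)) ∧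
    (∀ (x : T) (p : Fin b × ℕ),
      ty (ExB 𝔹 cs T b) (Sum.inl x) ≠ ty (ExB 𝔹 cs T b) (Sum.inr p)) ∧
    ∀ p q : Fin b × ℕ, ty (ExB 𝔹 cs T b) (Sum.inr p) = ty (ExB 𝔹 cs T b) (Sum.inr q) ↔ p.1 = q.1

/-- new blind types -/
def T_EXN : Prop :=
  ∀ (V : Type) (σ ρ : Sig) (𝔸 : Str σ V) (𝔹 : Str ρ V) (c : ℕ) (cs : Fin c → V) (T : Set V)
    (b : ℕ) (e : Fin b → Fin c), (∀ l, 1 ≤ ρ.ar l) → InvT 𝔹 cs T → ∀ p : Fin b × ℕ,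
    Blind (pull 𝔸 (dEx cs e T)) (ExB 𝔹 cs T b) (ty (ExB 𝔹 cs T b) (Sum.inr p))

/-- old blind types -/
def T_EXO : Prop :=
  ∀ (V : Type) (σ ρ : Sig) (𝔸 : Str σ V) (𝔹 : Str ρ V) (c : ℕ) (cs : Fin c → V) (T : Set V)
    (b : ℕ) (e : Fin b → Fin c), (∀ l, 1 ≤ ρ.ar l) → InvT 𝔹 cs T → ∀ x : T,
    Blind 𝔸 𝔹 (ty 𝔹 (x : V)) →
    Blind (pull 𝔸 (dEx cs e T)) (ExB 𝔹 cs T b) (ty (ExB 𝔹 cs T b) (Sum.inl x))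

/-- The relations of `𝔸` depend only on the types over the constants. -/
def TyC {V : Type} {σ ρ : Sig} (𝔸 : Str σ V) (𝔹 : Str ρ V) {c : ℕ} (cs : Fin c → V) : Prop :=
  ∀ (l : Fin σ.m) (x y : Fin (σ.ar l) → V), 𝔸 l x →
    tp 𝔹 (Sum.elim y cs) = tp 𝔹 (Sum.elim x cs) → 𝔸 l y

/-- the number of types -/
noncomputable def nT {V : Type} {ρ : Sig} (𝔹 : Str ρ V) : ℕ := Nat.card (SS 𝔹)

/-- the number of blind types -/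
noncomputable def nB {V : Type} {σ ρ : Sig} (𝔸 : Str σ V) (𝔹 : Str ρ V) : ℕ :=
  Nat.card {s : Fin ρ.m → Prop // Blind 𝔸 𝔹 s}

/-- a minimal presentation -/
structure Mnp {A V : Type} {σ ρ : Sig} (𝔻 : Str σ A) (𝔸 : Str σ V) (𝔹 : Str ρ V) : Prop where
  prs : Prs 𝔸 𝔹
  heq : HomEq 𝔻 𝔸
  min : ∀ (ρ' : Sig) (V' : Type) (𝔸' : Str σ V') (𝔹' : Str ρ' V'), Prs 𝔸' 𝔹' → HomEq 𝔻 𝔸' →
    nT 𝔹 ≤ nT 𝔹' ∧ (nT 𝔹' = nT 𝔹 → nB 𝔸' 𝔹' ≤ nB 𝔸 𝔹)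

/-- minimal presentations exist -/
def T_MNX : Prop :=
  ∀ (A V : Type) (σ ρ : Sig) (𝔻 : Str σ A) (𝔸 : Str σ V) (𝔹 : Str ρ V), Prs 𝔸 𝔹 →
    HomEq 𝔻 𝔸 → ∃ (V' : Type) (ρ' : Sig) (𝔸' : Str σ V') (𝔹' : Str ρ' V'), Mnp 𝔻 𝔸' 𝔹'

/-- the expansion is a presentation -/
def T_EXP : Prop :=
  ∀ (V : Type) (σ ρ : Sig) (𝔸 : Str σ V) (𝔹 : Str ρ V) (c : ℕ) (cs : Fin c → V) (T : Set V)
    (b : ℕ) (e : Fin b → Fin c), (∀ l, 1 ≤ ρ.ar l) → Countable V → Nonempty V → Injective cs →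
    Hmg 𝔹 → AmC 𝔹 cs → LocalCompletions 𝔹 → InvT 𝔹 cs T → TyC 𝔸 𝔹 cs → Nonempty (ExD T b) →
    Prs (pull 𝔸 (dEx cs e T)) (ExB 𝔹 cs T b)

/-- the action on the types of a minimal presentation -/
def T_MNP : Prop :=
  ∀ (A V : Type) (σ ρ : Sig) (𝔻 : Str σ A) (𝔸 : Str σ V) (𝔹 : Str ρ V), Mnp 𝔻 𝔸 𝔹 → Prm 𝔸 𝔹

/-- The elements of type `s` can be identified by maps which keep all types of elements. -/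
def ClpK {V : Type} {σ ρ : Sig} (𝔸 : Str σ V) (𝔹 : Str ρ V) (s : Fin ρ.m → Prop) : Prop :=
  ∀ (W : Type) [Finite W] (G : W → V), ∃ ψ : W → V, Cx 𝔸 (fun _ : Unit => G) ψ ∧
    (∀ w w', ty 𝔹 (G w) = s → ty 𝔹 (G w') = s → ψ w = ψ w') ∧ ∀ w, ty 𝔹 (ψ w) = ty 𝔹 (G w)

/-- The elements of type `s` can be mapped to `e` by maps which keep all types of elements, such
that the types of the values over `e` are given by `sg`. -/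
def ClpE {V : Type} {σ ρ : Sig} (𝔸 : Str σ V) (𝔹 : Str ρ V) (s : Fin ρ.m → Prop) (e : V)
    (sg : (Fin ρ.m → Prop) → Ty ρ (Fin 2)) : Prop :=
  ∀ (W : Type) [Finite W] (G : W → V), ∃ ψ : W → V, Cx 𝔸 (fun _ : Unit => G) ψ ∧
    (∀ w, ty 𝔹 (G w) = s → ψ w = e) ∧ (∀ w, ty 𝔹 (ψ w) = ty 𝔹 (G w)) ∧
    ∀ w, tp 𝔹 ![ψ w, e] = sg (ty 𝔹 (G w))

/-- keeping the types -/
def T_CPK : Prop :=
  ∀ (V : Type) (σ ρ : Sig) (𝔸 : Str σ V) (𝔹 : Str ρ V), HB 𝔹 → Tyi 𝔸 𝔹 → RmV 𝔹 → Prm 𝔸 𝔹 →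
    ∀ s ∈ Rlz 𝔹, Clp 𝔸 𝔹 s → ClpK 𝔸 𝔹 s

/-- collapsing to one point -/
def T_CPE : Prop :=
  ∀ (V : Type) (σ ρ : Sig) (𝔸 : Str σ V) (𝔹 : Str ρ V), HB 𝔹 → Tyi 𝔸 𝔹 → RmV 𝔹 →
    ∀ s ∈ Rlz 𝔹, ClpK 𝔸 𝔹 s → ∃ (e : V) (sg : (Fin ρ.m → Prop) → Ty ρ (Fin 2)),
      ty 𝔹 e = s ∧ ClpE 𝔸 𝔹 s e sg

/-- collapsible types of a minimal presentation -/
def T_MNC : Prop :=
  ∀ (A V : Type) (σ ρ : Sig) (𝔻 : Str σ A) (𝔸 : Str σ V) (𝔹 : Str ρ V), Mnp 𝔻 𝔸 𝔹 →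
    (∀ s ∈ Rlz 𝔹, Clp 𝔸 𝔹 s → ∃ (e : V) (sg : (Fin ρ.m → Prop) → Ty ρ (Fin 2)),
      ty 𝔹 e = s ∧ ClpE 𝔸 𝔹 s e sg) → NCB 𝔸 𝔹

/-- `K₃` and structures to which the same finite structures map -/
def T_KHE : Prop :=
  ∀ (A V : Type) (σ : Sig) (𝔻 : Str σ A) (𝔸 : Str σ V), Countable A → Countable V →
    Nonempty A → Nonempty V → Oligo 𝔻 → Oligo 𝔸 → HomEq 𝔻 𝔸 → PPConstructsK3 𝔸 →
    PPConstructsK3 𝔻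

end Pool.Agent.H57.LH
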