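import Pool.Agent.H44.KR.Defs
import Pool.Agent.H57.AR.Targets

/-!
# All first-order reducts of structures with local completions: definitions

`(V, 𝔹)` is a homogeneous structure with local completions and without algebraicity, and `𝔸` is a
structure on `V` whose relations depend only on the types of the tuples in `𝔹`. The order of `V` is
any order for which the tuples of `V` have copies in all orders.
-/

set_option autoImplicit false
set_option linter.unusedVariables false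

namespace Pool.Agent.H57.LH

open Pool.Agent.H68.BP Pool.Agent.H58.SF Pool.Agent.H53.GC Pool.Agent.H53.NR
open Pool.Agent.H53.GR (Dm Ps)
open Pool.Agent.H57.AR (tp ty tpo pullO Ty OT HomEq El ElD FamR Od)
open Pool.Agent.H57.SO (Pal vt Bh Sbn fib sigF)
open Pool.Agent.H57.EQ (Cx)
open Pool.Agent.H44.KR (HB Amg Tyi Rlz Clp LInj Prm TpOn)
open Function

/-! ### The types of elements -/

section types

variable {V : Type} {ρ σ : Sig}

/-- the realized types of elements -/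
abbrev SS (𝔹 : Str ρ V) : Type := {s : Fin ρ.m → Prop // s ∈ Rlz 𝔹}

/-- the type of the element `x` -/
def vs (𝔹 : Str ρ V) (x : V) : SS 𝔹 := ⟨ty 𝔹 x, x, rfl⟩

/-- the palette of the types of elements: the colours of the pairs are the pairs of types -/
def P0 (𝔹 : Str ρ V) : Pal (SS 𝔹) (SS 𝔹 × SS 𝔹) where
  ls := Prod.fst
  rs := Prod.snd
  rv := Prod.swap
  fr := Prod.mk
  ls_fr := fun _ _ => rfl
  rs_fr := fun _ _ => rfl
  rv_fr := fun _ _ => rfl

open Classical in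
/-- the colouring of the pairs with the types of their elements -/
noncomputable def c0 (𝔹 : Str ρ V) (x y : V) : SS 𝔹 ⊕ (SS 𝔹 × SS 𝔹) :=
  if x = y then Sum.inl (vs 𝔹 x) else Sum.inr (vs 𝔹 x, vs 𝔹 y)

theorem vt_c0 (𝔹 : Str ρ V) (x : V) : vt (P0 𝔹) (c0 𝔹) x = vs 𝔹 x := by
  unfold vt c0
  rw [if_pos rfl]
  rfl

theorem c0_self (𝔹 : Str ρ V) (x : V) : c0 𝔹 x x = Sum.inl (vs 𝔹 x) := if_pos rfl

theorem vs_eq_iff (𝔹 : Str ρ V) (x y : V) : vs 𝔹 x = vs 𝔹 y ↔ ty 𝔹 x = ty 𝔹 y := Subtype.ext_iff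

instance (𝔹 : Str ρ V) : Finite (SS 𝔹) := by
  have : Finite (Fin ρ.m → Prop) := inferInstance
  exact Subtype.finite

/-- The type `s` is blind: the elements of type `s` are in no relations of `𝔹` with other elements,
and `𝔸` does not distinguish them. -/
structure Blind (𝔸 : Str σ V) (𝔹 : Str ρ V) (s : Fin ρ.m → Prop) : Prop where
  rlz : s ∈ Rlz 𝔹
  b : ∀ (l : Fin ρ.m) (z : Fin (ρ.ar l) → V), 𝔹 l z → ∀ i, ty 𝔹 (z i) = s → ∀ j, z j = z i
  a : ∀ (l : Fin σ.m) (x y : Fin (σ.ar l) → V),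
    (∀ i, x i = y i ∨ (ty 𝔹 (x i) = s ∧ ty 𝔹 (y i) = s)) → 𝔸 l x → 𝔸 l y

/-- All collapsible types are blind. -/
def NCB (𝔸 : Str σ V) (𝔹 : Str ρ V) : Prop := ∀ s ∈ Rlz 𝔹, Clp 𝔸 𝔹 s → Blind 𝔸 𝔹 s

end types

/-! ### The hypotheses -/

section hypotheses

variable {V A : Type} {ρ σ : Sig}

/-- a presentation -/
structure Prs (𝔸 : Str σ V) (𝔹 : Str ρ V) : Prop where
  hb : HB 𝔹
  cnt : Countable V
  tyi : Tyi 𝔸 𝔹

/-- a core presentation -/
structure Cor (𝔸 : Str σ V) (𝔹 : Str ρ V) : Prop where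
  prs : Prs 𝔸 𝔹
  prm : Prm 𝔸 𝔹
  ncb : NCB 𝔸 𝔹

/-- `𝔹` is bounded: a finite structure embeds if its substructures with at most `M` elements embed. -/
def BddL (𝔹 : Str ρ V) (M : ℕ) : Prop :=
  ∀ (W : Type) [Finite W] (𝕏 : Str ρ W),
    (∀ (m : ℕ) (s : Fin m → W), m ≤ M → Injective s →
      ∃ f : Fin m → V, Injective f ∧ pull 𝔹 f = pull 𝕏 s) →
    ∃ f : W → V, Injective f ∧ pull 𝔹 f = 𝕏

/-- Tuples have copies in all orders. -/
def OrdL [LinearOrder V] (𝔹 : Str ρ V) : Prop :=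
  ∀ (W : Type) [Finite W] (x : W → V) (rk : W → ℕ), (∀ a b, rk a = rk b ↔ x a = x b) →
    ∃ x' : W → V, tp 𝔹 x' = tp 𝔹 x ∧ ∀ a b, x' a < x' b ↔ rk a < rk b

/-- the hypotheses on the ordered structure, with the bound `M` -/
structure BaseL [LinearOrder V] (𝔸 : Str σ V) (𝔹 : Str ρ V) (M : ℕ) : Prop where
  prs : Prs 𝔸 𝔹
  three : 3 ≤ M
  ar : ∀ l, 1 ≤ ρ.ar l ∧ ρ.ar l < M
  bdd : BddL 𝔹 M
  ord : OrdL 𝔹

end hypotheses

/-! ### The templates -/

section templates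

variable {V : Type} {ρ σ : Sig}

/-- the symbols of the template of the fibres: a symbol of the structure of the fibres and a map of
its places -/
abbrev SyL (S : Type) [Finite S] (σ : Sig) (M : ℕ) : Type :=
  Σ i : Fin (sigF S σ M).m, (Fin ((sigF S σ M).ar i) → Fin ((sigF S σ M).ar i))

/-- The finite template of the fibres: for each relation of the structure of the fibres and each map
`t` of its places it has a relation, which consists of the patterns of the types of those tuples of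
entries whose images under `t` are increasing. -/
noncomputable def tfL {S X : Type} [Finite S] (𝔸 : Str σ V) (𝔹 : Str ρ V) (M : ℕ)
    (c : V → V → S ⊕ X) :
    Str (sigOf (SyL S σ M) (fun s => Ps M ((sigF S σ M).ar s.1))) (Dm ρ M) :=
  strOn fun s q => ∃ x : Fin ((sigF S σ M).ar s.1) → V, fib 𝔸 M c s.1 x ∧
    (∀ a b, s.2 a = s.2 b → x a = x b) ∧
    ∀ (j : Fin M) (α : Fin (j + 1) → Fin ((sigF S σ M).ar s.1)), StrictMono (fun i => s.2 (α i)) →
      q ⟨j, α⟩ = ⟨j, pull 𝔹 (fun i => x (α i))⟩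

/-- The finite template. -/
noncomputable def tpL (𝔸 : Str σ V) (𝔹 : Str ρ V) (M : ℕ) :
    Str (sigOf (Option (Fin σ.m)) (fun s => Ps M (arP σ M s))) (El (SS 𝔹) ρ M) :=
  strOn (FamR (P0 𝔹) 𝔸 𝔹 M (c0 𝔹) (tfL 𝔸 𝔹 M (c0 𝔹)))

/-- `F` is a polymorphism of the template with the action on types `τ` and the equalities `κ`. -/
structure TpL {I : Type} (𝔸 : Str σ V) (𝔹 : Str ρ V) (M : ℕ) (τ : (I → SS 𝔹) → SS 𝔹)
    (κ : (I → SS 𝔹) → (I → SS 𝔹) → Set I → Prop)
    (F : (I → El (SS 𝔹) ρ M) → El (SS 𝔹) ρ M) : Prop where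
  poly : IsPoly (tpL 𝔸 𝔹 M) (tpL 𝔸 𝔹 M) F
  form : ∀ (j : Fin M) (d : I → ElD (SS 𝔹) ρ (Dm ρ M) (j + 1)),
    ∃ e : ElD (SS 𝔹) ρ (Dm ρ M) (j + 1),
    F (fun i => ⟨j, d i⟩) = ⟨j, e⟩ ∧ (∀ a, e.ts a = τ (fun i => (d i).ts a)) ∧
    ∀ a b, e.kr a b ↔ κ (fun i => (d i).ts a) (fun i => (d i).ts b) {i | (d i).kr a b}

/-- `Ψ` gives the ordered types of the values of maps with the property `R`. -/
def CanP [LinearOrder V] {I : Type} (𝔸 : Str σ V) (𝔹 : Str ρ V)
    (R : (I → Ty ρ (Fin 2)) → Ty ρ (Fin 2) → Prop)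
    (Ψ : (k : ℕ) → (I → OT ρ (Fin k)) → OT ρ (Fin k)) : Prop :=
  ∀ (W : Type) [Finite W] (G : I → W → V), ∃ ψ : W → V, Cx 𝔸 G ψ ∧
    (∀ (k : ℕ) (z : Fin k → W),
      tpo 𝔹 (fun a => ψ (z a)) = Ψ k (fun i => tpo 𝔹 (fun a => G i (z a)))) ∧
    ∀ u w, R (fun i => tp 𝔹 ![G i u, G i w]) (tp 𝔹 ![ψ u, ψ w])

/-- There are maps with the property `R`. -/
def LocP {I : Type} (𝔸 : Str σ V) (𝔹 : Str ρ V)
    (R : (I → Ty ρ (Fin 2)) → Ty ρ (Fin 2) → Prop) : Prop :=
  ∀ (W : Type) [Finite W] (G : I → W → V), ∃ ψ : W → V, Cx 𝔸 G ψ ∧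
    ∀ u w, R (fun i => tp 𝔹 ![G i u, G i w]) (tp 𝔹 ![ψ u, ψ w])

end templates

/-! ### The Ramsey property -/

section ramsey

variable {V : Type} {ρ : Sig}

/-- The Ramsey property: there are `N` elements of `V` such that for each colouring of the
`k`-tuples of indices there is a copy of `x` on which the colour depends only on the type and the
order. -/
def RmV (𝔹 : Str ρ V) : Prop :=
  ∀ (n k : ℕ) (Y : Type) [Finite Y] (x : Fin n → V), Injective x →
    ∃ (N : ℕ) (e : Fin N → V), ∀ χ : (Fin k → Fin N) → Y, ∃ φ : Fin n → Fin N,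
      tp 𝔹 (fun a => e (φ a)) = tp 𝔹 x ∧
      ∀ a a' : Fin k → Fin n, pull 𝔹 (fun b => x (a b)) = pull 𝔹 (fun b => x (a' b)) →
        (∀ i j, a i < a j ↔ a' i < a' j) → χ (fun b => φ (a b)) = χ (fun b => φ (a' b))

/-- the Ramsey property of products -/
def PrV (𝔹 : Str ρ V) : Prop :=
  ∀ (I : Type) [Finite I] (k : ℕ) (Y : Type) [Finite Y] (n : I → ℕ)
    (x : (i : I) → Fin (n i) → V), (∀ i, Injective (x i)) →
    ∃ (N : I → ℕ) (e : (i : I) → Fin (N i) → V), ∀ χ : ((i : I) → Fin k → Fin (N i)) → Y,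
      ∃ φ : (i : I) → Fin (n i) → Fin (N i),
      (∀ i, tp 𝔹 (fun a => e i (φ i a)) = tp 𝔹 (x i)) ∧
      ∀ a a' : (i : I) → Fin k → Fin (n i),
        (∀ i, pull 𝔹 (fun b => x i (a i b)) = pull 𝔹 (fun b => x i (a' i b)) ∧
          ∀ b b', a i b < a i b' ↔ a' i b < a' i b') →
        χ (fun i b => φ i (a i b)) = χ (fun i b => φ i (a' i b))

end ramsey

/-! ### Expansions by constants -/

section expansions

variable {V W : Type} {ρ σ : Sig}

/-- homogeneity -/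
def Hmg (𝔹 : Str ρ V) : Prop :=
  ∀ (W : Type) [Finite W] (A : Set W) (x y : W → V), TpOn 𝔹 A x y →
    ∃ x' : W → V, tp 𝔹 x' = tp 𝔹 x ∧ ∀ a ∈ A, x' a = y a

/-- Homogeneity without algebraicity over the constants `cs`. -/
def AmC (𝔹 : Str ρ V) {c : ℕ} (cs : Fin c → V) : Prop :=
  ∀ (W : Type) [Finite W] (A : Set W) (x y : W → V) (F : Finset V),
    TpOn 𝔹 {a : W ⊕ Fin c | ∀ w, a = Sum.inl w → w ∈ A} (Sum.elim x cs) (Sum.elim y cs) →
    ∃ x' : W → V, tp 𝔹 (Sum.elim x' cs) = tp 𝔹 (Sum.elim x cs) ∧ (∀ a ∈ A, x' a = y a) ∧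
      ∀ w, x' w ∈ F → (∃ a ∈ A, x' w = x' a) ∨ ∃ j, x' w = cs j

/-- The set `T` is a union of types over the constants, none of which is in it. -/
def InvT (𝔹 : Str ρ V) {c : ℕ} (cs : Fin c → V) (T : Set V) : Prop :=
  (∀ j, cs j ∉ T) ∧ ∀ x y : V,
    tp 𝔹 (Sum.elim (fun _ : Unit => x) cs) = tp 𝔹 (Sum.elim (fun _ : Unit => y) cs) →
    x ∈ T → y ∈ T

/-- the domain: the elements of `T` and `b` infinite sets of blind elements -/
abbrev ExD (T : Set V) (b : ℕ) : Type := T ⊕ (Fin b × ℕ)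

/-- the symbols: relations with places filled by constants, and marks of the blind elements -/
abbrev ExI (ρ : Sig) (c b : ℕ) : Type := (Σ l : Fin ρ.m, (Fin (ρ.ar l) → Option (Fin c))) ⊕ Fin b

/-- the number of places of the symbols -/
abbrev ExA (ρ : Sig) (c b : ℕ) : ExI ρ c b → Type
  | Sum.inl p => Fin (ρ.ar p.1)
  | Sum.inr _ => Unit

instance (ρ : Sig) (c b : ℕ) : (s : ExI ρ c b) → Finite (ExA ρ c b s)
  | Sum.inl p => inferInstanceAs (Finite (Fin (ρ.ar p.1)))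
  | Sum.inr _ => inferInstanceAs (Finite Unit)

/-- the relations: the places which are filled by constants repeat another place -/
def ExR (𝔹 : Str ρ V) {c : ℕ} (cs : Fin c → V) (T : Set V) (b : ℕ) :
    (s : ExI ρ c b) → (ExA ρ c b s → ExD T b) → Prop
  | Sum.inl p => fun z => ∃ (y : Fin (ρ.ar p.1) → T) (i₀ : Fin (ρ.ar p.1)), p.2 i₀ = none ∧
      (∀ i, z i = Sum.inl (y i)) ∧ (∀ i, p.2 i ≠ none → y i = y i₀) ∧
      𝔹 p.1 (fun i => (p.2 i).elim (y i : V) cs)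
  | Sum.inr β => fun z => ∃ n : ℕ, z () = Sum.inr (β, n)

/-- the structure over the constants on the elements of `T`, with blind elements -/
noncomputable def ExB (𝔹 : Str ρ V) {c : ℕ} (cs : Fin c → V) (T : Set V) (b : ℕ) :
    Str (sigOf (ExI ρ c b) (ExA ρ c b)) (ExD T b) :=
  strOn (ExR 𝔹 cs T b)

/-- the blind elements stand for constants -/
def dEx {c b : ℕ} (cs : Fin c → V) (e : Fin b → Fin c) (T : Set V) : ExD T b → V
  | Sum.inl x => x
  | Sum.inr p => cs (e p.1)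

end expansions

end Pool.Agent.H57.LH
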