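import Pool.Agent.H57.LH.Targets2
import Pool.Agent.H18.SF.OR

/-!
# All first-order reducts of structures with local completions: small rows
-/

set_option autoImplicit false
set_option linter.unusedVariables false

namespace Pool.Agent.H57.LH

open Pool.Agent.H68.BP Pool.Agent.H58.SF Pool.Agent.H53.GC Pool.Agent.H53.NR
open Pool.Agent.H53.GR (Dm Ps)
open Pool.Agent.H57.AR (tp ty tpo pullO Ty OT HomEq El ElD FamR Od GmR INJ lft)
open Pool.Agent.H57.SO (Pal Col vt Bh Sbn fib sigF)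
open Pool.Agent.H57.EQ (Cx T_CYF)
open Pool.Agent.H57.LCI (LocalCompletions Pre Realizes)
open Pool.Agent.H44.KR (HB Amg Tyi Rz Rlz Clp LInj Prm TpOn RmL LcN Pl lr blk Fv kv RkI Kd JJ Yc
  IsTh Can Plf Pls)
open Function

theorem pf_AMC : T_AMC := by
  intro V ρ 𝔹 c cs hA W _ A x y F hxy
  obtain ⟨x'', h1, h2, h3⟩ := hA (W ⊕ Fin c) {a : W ⊕ Fin c | ∀ w, a = Sum.inl w → w ∈ A}
    (Sum.elim x cs) (Sum.elim y cs) F hxy
  have h4 : x'' = Sum.elim (fun w => x'' (Sum.inl w)) cs := by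
    funext a
    rcases a with w | j
    · rfl
    · exact h2 (Sum.inr j) (fun w hw => nomatch hw)
  refine ⟨fun w => x'' (Sum.inl w), ?_, fun a ha => ?_, fun w hw => ?_⟩
  · rw [← h4]
    exact h1
  · exact h2 (Sum.inl a) (fun w hw => by
      rw [← Sum.inl.inj hw]
      exact ha)
  · obtain ⟨a, ha, ha'⟩ := h3 (Sum.inl w) hw
    rcases a with a | j
    · exact Or.inl ⟨a, ha a rfl, ha'⟩
    · refine Or.inr ⟨j, ha'.trans ?_⟩
      rw [h4]
      rfl

theorem pf_BDL : T_BDL := by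
  intro V ρ 𝔹 N hB hN
  refine ⟨N, fun M hM W _ 𝕏 h𝕏 => ?_⟩
  obtain ⟨v₀⟩ := hB.ne
  obtain ⟨f, hf⟩ := hN W Unit (fun _ => Set.univ) (fun _ => 𝕏) (by
    intro U hU
    let e := U.equivFin
    obtain ⟨f₀, h1, h2⟩ := h𝕏 U.card (fun i => (e.symm i : W)) (le_trans hU hM)
      (fun i j hij => e.symm.injective (Subtype.ext hij))
    classical
    let f : W → V := fun x => if hx : x ∈ U then f₀ (e ⟨x, hx⟩) else v₀
    have hfx : ∀ x (hx : x ∈ U), f x = f₀ (e ⟨x, hx⟩) := fun x hx => dif_pos hx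
    refine ⟨f, fun _ => ⟨?_, ?_⟩⟩
    · rintro x ⟨-, hx⟩ y ⟨-, hy⟩ hxy
      rw [hfx x hx, hfx y hy] at hxy
      exact congrArg Subtype.val (e.injective (h1 hxy))
    · intro l z hz
      have h3 := congrFun (congrFun h2 l) (fun i => e ⟨z i, (hz i).2⟩)
      have h4 : (fun i => f (z i)) = fun i => f₀ (e ⟨z i, (hz i).2⟩) :=
        funext fun i => hfx _ (hz i).2
      rw [h4]
      have h5 : 𝔹 l (fun i => f₀ (e ⟨z i, (hz i).2⟩)) ↔
          𝕏 l (fun i => ((e.symm (e ⟨z i, (hz i).2⟩) : U) : W)) := iff_of_eq h3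
      rw [h5]
      simp only [Equiv.symm_apply_apply, id_eq])
  obtain ⟨h1, h2⟩ := hf ()
  exact ⟨f, fun x y hxy => h1 x trivial y trivial hxy,
    funext fun l => funext fun z => propext (h2 l z fun i => trivial)⟩

theorem pf_OP0 : T_OP0 := by
  intro V σ ρ 𝔸 𝔹 L Φ hB r v v6 hv h6 t
  choose x hx using fun d => (t d).2
  have hx' : (fun d => vs 𝔹 (x d)) = t := funext fun d => Subtype.ext (hx d)
  obtain ⟨rk, hrk⟩ : ∃ rk : Pl L × V → ℕ, RkI rk (blk0 L fun c => x (lr r c)) := by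
    have h : (Set.range (blk0 L fun c => x (lr r c))).Finite := Set.finite_range _
    obtain ⟨f, hf⟩ := Set.countable_iff_exists_injOn.1 h.countable
    exact ⟨f, fun i j hij => hf ⟨i, rfl⟩ ⟨j, rfl⟩ hij⟩
  have hb : blk L r 0 (fun c => x (lr r c)) = blk0 L fun c => x (lr r c) := by
    funext c
    show (Pool.Agent.H44.KR.plc L r 0 c, x (lr r c)) = (Sum.inl c, x (lr r c))
    have h : Pool.Agent.H44.KR.sh 0 (lr r c) = 0 := by
      unfold Pool.Agent.H44.KR.sh
      rcases lr r c with ⟨v, hv⟩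
      interval_cases v <;> rfl
    unfold Pool.Agent.H44.KR.plc
    rw [if_pos h]
  have h1 := hv x rk (by rw [hb]; exact hrk)
  have h2 := h6 (fun c => x (lr r c)) rk hrk
  rw [hb] at h1
  rw [hx'] at h1
  have h3 : (fun c => vs 𝔹 (x (lr r c))) = fun c => t (lr r c) :=
    funext fun c => congrFun hx' (lr r c)
  rw [h3] at h2
  exact Subtype.ext (h1.symm.trans h2)

theorem pf_COL : T_COL := by
  intro V ρ 𝔹 hB
  have hnew : ∀ (s : SS 𝔹) (y : V), ∃ x, vs 𝔹 x = s ∧ x ≠ y := by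
    intro s y
    obtain ⟨x, hx⟩ := s.2
    obtain ⟨x', h1, -, h3⟩ := hB.amg Unit ∅ (fun _ => x) (fun _ => x) {y}
      ⟨fun a ha => absurd ha (Set.notMem_empty _), fun l z hz =>
        absurd (hz ⟨0, hB.ar l⟩) (Set.notMem_empty _)⟩
    refine ⟨x' (), Subtype.ext ?_, fun h => ?_⟩
    · rw [← hx]
      funext l
      exact congrFun (congrFun (congrArg Prod.snd h1) l) (fun _ => ())
    · obtain ⟨a, ha, -⟩ := h3 () (by rw [h]; exact Finset.mem_singleton_self y)
      exact absurd ha (Set.notMem_empty _)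
  have hc : ∀ x y, x ≠ y → c0 𝔹 x y = Sum.inr (vs 𝔹 x, vs 𝔹 y) := fun x y h => if_neg h
  refine ⟨fun x y => ⟨?_, ?_⟩, ?_, ?_, ?_, ?_, ?_⟩
  · rintro ⟨s, hs⟩
    by_contra h
    rw [hc x y h] at hs
    exact nomatch hs
  · rintro rfl
    exact ⟨_, c0_self 𝔹 x⟩
  · intro x y t h
    have hne : x ≠ y := by
      rintro rfl
      rw [c0_self] at h
      exact nomatch h
    rw [hc x y hne] at h
    rw [c0_self, ← Sum.inr.inj h]
    rfl
  · intro x y t h
    have hne : x ≠ y := by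
      rintro rfl
      rw [c0_self] at h
      exact nomatch h
    rw [hc x y hne] at h
    rw [c0_self, ← Sum.inr.inj h]
    rfl
  · intro x y t h
    have hne : x ≠ y := by
      rintro rfl
      rw [c0_self] at h
      exact nomatch h
    rw [hc x y hne] at h
    rw [hc y x hne.symm, ← Sum.inr.inj h]
    rfl
  · intro s
    obtain ⟨x, hx⟩ := s.2
    exact ⟨x, by rw [c0_self]; exact congrArg Sum.inl (Subtype.ext hx)⟩
  · rintro ⟨s, s'⟩
    obtain ⟨y, hy⟩ := s'.2
    obtain ⟨x, hx, hne⟩ := hnew s y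
    refine ⟨x, y, ?_⟩
    rw [hc x y hne, hx]
    exact congrArg Sum.inr (Prod.ext rfl (Subtype.ext hy))

theorem pf_HMG : T_HMG := by
  intro V ρ 𝔹 hH W _ A x y hxy
  classical
  obtain ⟨n, ⟨e⟩⟩ := Finite.exists_equiv_fin A
  have h3 : Pool.Agent.H18.SF.ty 𝔹 (fun i => y (e.symm i)) =
      Pool.Agent.H18.SF.ty 𝔹 (fun i => x (e.symm i)) := by
    refine Prod.ext (funext fun a => funext fun b => propext ?_)
      (funext fun l => funext fun z => propext ?_)
    · exact (hxy.1 _ (e.symm a).2 _ (e.symm b).2).symm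
    · exact (hxy.2 l (fun i => (e.symm (z i) : W)) (fun i => (e.symm (z i)).2)).symm
  obtain ⟨g, hg, hg'⟩ := Pool.Agent.H18.SF.exists_aut_of_ty hH _ _ h3
  refine ⟨fun w => g (x w), ?_, fun a ha => ?_⟩
  · refine Prod.ext (funext fun a => funext fun b => propext ?_)
      (funext fun l => funext fun z => propext ?_)
    · exact g.injective.eq_iff
    · exact (hg l fun i => x (z i)).symm
  · have h4 := hg' (e ⟨a, ha⟩)
    simp only [Equiv.symm_apply_apply] at h4
    exact h4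

end Pool.Agent.H57.LH
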