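import Pool.Agent.H57.LH.CMA

/-!
# All first-order reducts of structures with local completions: row CMF
-/

set_option autoImplicit false
set_option linter.unusedVariables false

namespace Pool.Agent.H57.LH

open Pool.Agent.H68.BP Pool.Agent.H58.SF Pool.Agent.H53.GC Pool.Agent.H53.NR
open Pool.Agent.H53.GR (Dm Ps)
open Pool.Agent.H57.AR (tp ty tpo pullO Ty OT HomEq El ElD FamR Od GmR INJ lft)
open Pool.Agent.H57.SO (Pal Col vt Bh Sbn fib sigF)
open Pool.Agent.H57.EQ (Cx T_CYF)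
open Pool.Agent.H44.KR (HB Amg Tyi Rz Rlz Clp LInj Prm TpOn)
open Function

section cmf

variable {V : Type} {σ ρ : Sig} {𝔸 : Str σ V} {𝔹 : Str ρ V}

/-- finitely many elements of type `s` -/
theorem CMF_em (hB : HB 𝔹) (s : SS 𝔹) (U : Type) [Finite U] :
    ∃ e : U → V, Injective e ∧ ∀ u, vs 𝔹 (e u) = s := by
  classical
  have : Infinite {z : V // vs 𝔹 z = s} := by
    refine Set.infinite_coe_iff.2 fun hf => ?_
    obtain ⟨z, h1, h2⟩ := CMA_new hB s hf.toFinset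
    exact h1 (hf.mem_toFinset.2 h2)
  have := Fintype.ofFinite U
  refine ⟨fun u => (Infinite.natEmbedding {z : V // vs 𝔹 z = s} (Fintype.equivFin U u : ℕ)).1,
    fun u u' h => ?_, fun u => (Infinite.natEmbedding {z : V // vs 𝔹 z = s}
      (Fintype.equivFin U u : ℕ)).2⟩
  exact (Fintype.equivFin U).injective (Fin.ext ((Infinite.natEmbedding _).injective
    (Subtype.ext h)))

/-- blind elements can be replaced -/
theorem CMF_rep (l : Fin σ.m) (x y : Fin (σ.ar l) → V)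
    (h : ∀ i, x i = y i ∨ (ty 𝔹 (x i) = ty 𝔹 (y i) ∧ Blind 𝔸 𝔹 (ty 𝔹 (x i)))) (hx : 𝔸 l x) :
    𝔸 l y := by
  classical
  have key : ∀ F : Finset (Fin (σ.ar l)), 𝔸 l (fun i => if i ∈ F then y i else x i) := by
    intro F
    induction F using Finset.induction_on with
    | empty => simpa using hx
    | insert i₀ F hi ih =>
      rcases h i₀ with h1 | ⟨h1, h2⟩
      · have e : (fun i => if i ∈ insert i₀ F then y i else x i) =
            fun i => if i ∈ F then y i else x i := by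
          funext i
          by_cases hi0 : i = i₀
          · subst hi0
            rw [if_pos (Finset.mem_insert_self i F), if_neg hi, h1]
          · by_cases hF : i ∈ F
            · rw [if_pos (Finset.mem_insert_of_mem hF), if_pos hF]
            · rw [if_neg (fun h3 => (Finset.mem_insert.1 h3).elim hi0 hF), if_neg hF]
        rw [e]
        exact ih
      · refine h2.a l _ _ (fun i => ?_) ih
        by_cases hi0 : i = i₀
        · subst hi0
          right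
          rw [if_pos (Finset.mem_insert_self i F), if_neg hi]
          exact ⟨rfl, h1.symm⟩
        · left
          by_cases hF : i ∈ F
          · rw [if_pos (Finset.mem_insert_of_mem hF), if_pos hF]
          · rw [if_neg (fun h3 => (Finset.mem_insert.1 h3).elim hi0 hF), if_neg hF]
  have h1 := key Finset.univ
  simpa using h1

/-- `D` is the set of the coordinates of equality of two tuples of types `t`, `t'` -/
def CMF_Rl (𝔹 : Str ρ V) (t t' : Fin 2 → SS 𝔹) (D : Set (Fin 2)) : Prop :=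
  ∃ x x' : Fin 2 → V, (∀ i, vs 𝔹 (x i) = t i) ∧ (∀ i, vs 𝔹 (x' i) = t' i) ∧
    {i | x i = x' i} = D

/-- the new equalities -/
def CMF_k (𝔸 : Str σ V) (𝔹 : Str ρ V) (τ : (Fin 2 → SS 𝔹) → SS 𝔹)
    (κ : (Fin 2 → SS 𝔹) → (Fin 2 → SS 𝔹) → Set (Fin 2) → Prop) (t t' : Fin 2 → SS 𝔹)
    (D : Set (Fin 2)) : Prop :=
  CMF_Rl 𝔹 t t' D ∧ ((Blind 𝔸 𝔹 (τ t).1 ∧ τ t = τ t' ∧ D = Set.univ) ∨
    (¬ Blind 𝔸 𝔹 (τ t).1 ∧ κ t t' D))

theorem CMF_bh (hB : HB 𝔹) {τ : (Fin 2 → SS 𝔹) → SS 𝔹}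
    {κ : (Fin 2 → SS 𝔹) → (Fin 2 → SS 𝔹) → Set (Fin 2) → Prop}
    (h : Bh (P0 𝔹) 𝔸 (c0 𝔹) τ κ) : Bh (P0 𝔹) 𝔸 (c0 𝔹) τ (CMF_k 𝔸 𝔹 τ κ) := by
  classical
  intro W _ G
  obtain ⟨ψ, h1, h2, h3⟩ := h W G
  simp only [vt_c0] at h2 h3
  let U : Type := Set.range (fun (w : W) (i : Fin 2) => G i w)
  have : Finite U := Set.finite_range _
  choose e he1 he2 using fun s : SS 𝔹 => CMF_em hB s U
  let em : SS 𝔹 → W → V := fun s w => e s ⟨fun i => G i w, w, rfl⟩
  have hem : ∀ s w w', em s w = em s w' ↔ ∀ i, G i w = G i w' := by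
    intro s w w'
    constructor
    · intro h4 i
      exact congrFun (congrArg Subtype.val (he1 s h4)) i
    · intro h4
      show e s _ = e s _
      congr 1
      exact Subtype.ext (funext h4)
  let ψ' : W → V := fun w => if Blind 𝔸 𝔹 (vs 𝔹 (ψ w)).1 then em (vs 𝔹 (ψ w)) w else ψ w
  have hpos : ∀ w, Blind 𝔸 𝔹 (vs 𝔹 (ψ w)).1 → ψ' w = em (vs 𝔹 (ψ w)) w := fun w hw => if_pos hw
  have hneg : ∀ w, ¬ Blind 𝔸 𝔹 (vs 𝔹 (ψ w)).1 → ψ' w = ψ w := fun w hw => if_neg hw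
  have hty : ∀ w, vs 𝔹 (ψ' w) = vs 𝔹 (ψ w) := by
    intro w
    by_cases hw : Blind 𝔸 𝔹 (vs 𝔹 (ψ w)).1
    · rw [hpos w hw]
      exact he2 _ _
    · rw [hneg w hw]
  refine ⟨ψ', ?_, ?_, ?_⟩
  · intro l z hz
    refine CMF_rep (𝔹 := 𝔹) l (fun a => ψ (z a)) _ (fun i => ?_) (h1 l z hz)
    by_cases hw : Blind 𝔸 𝔹 (vs 𝔹 (ψ (z i))).1
    · right
      exact ⟨(congrArg Subtype.val (hty (z i))).symm, hw⟩
    · left
      exact (hneg _ hw).symm
  · intro w
    rw [vt_c0, hty, h2]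
    simp only [vt_c0]
  · intro u w
    simp only [vt_c0]
    have hr : CMF_Rl 𝔹 (fun i => vs 𝔹 (G i u)) (fun i => vs 𝔹 (G i w)) {i | G i u = G i w} :=
      ⟨fun i => G i u, fun i => G i w, fun _ => rfl, fun _ => rfl, rfl⟩
    have h4 := h3 u w
    by_cases hu : Blind 𝔸 𝔹 (vs 𝔹 (ψ u)).1
    · have hu' : Blind 𝔸 𝔹 (τ (fun i => vs 𝔹 (G i u))).1 := by
        rw [← h2 u]
        exact hu
      constructor
      · intro h5
        have h6 : vs 𝔹 (ψ u) = vs 𝔹 (ψ w) := by rw [← hty u, ← hty w, h5]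
        have hw : Blind 𝔸 𝔹 (vs 𝔹 (ψ w)).1 := h6 ▸ hu
        refine ⟨hr, Or.inl ⟨hu', by rw [← h2 u, ← h2 w, h6], ?_⟩⟩
        rw [hpos u hu, hpos w hw, ← h6, hem] at h5
        exact Set.eq_univ_iff_forall.2 h5
      · rintro ⟨-, ⟨-, h5, h6⟩ | ⟨h5, -⟩⟩
        · rw [← h2 u, ← h2 w] at h5
          have hw : Blind 𝔸 𝔹 (vs 𝔹 (ψ w)).1 := h5 ▸ hu
          rw [hpos u hu, hpos w hw, ← h5, hem]
          exact fun i => Set.eq_univ_iff_forall.1 h6 i
        · exact absurd hu' h5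
    · have hu' : ¬ Blind 𝔸 𝔹 (τ (fun i => vs 𝔹 (G i u))).1 := by
        rw [← h2 u]
        exact hu
      have h7 : ψ' u = ψ' w ↔ ψ u = ψ w := by
        by_cases hw : Blind 𝔸 𝔹 (vs 𝔹 (ψ w)).1
        · constructor
          · intro h5
            have h6 : vs 𝔹 (ψ u) = vs 𝔹 (ψ w) := by rw [← hty u, ← hty w, h5]
            exact absurd (h6.symm ▸ hw) hu
          · intro h5
            exact absurd (h5.symm ▸ hw) hu
        · rw [hneg u hu, hneg w hw]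
      rw [h7, h4]
      constructor
      · intro h5
        exact ⟨hr, Or.inr ⟨hu', h5⟩⟩
      · rintro ⟨-, ⟨h5, -⟩ | ⟨-, h5⟩⟩
        · exact absurd h5 hu'
        · exact h5

theorem pf_CMF : T_CMF := by
  intro V σ ρ 𝔸 𝔹 hC h
  obtain ⟨τ, κ, h1, h2, h3⟩ := h
  have hb := CMF_bh hC.prs.hb h1
  refine ⟨τ, CMF_k 𝔸 𝔹 τ κ, hb, h2, ?_⟩
  rintro s s' A ⟨⟨x, x', hx, hx', hA⟩, h4⟩
  rcases h4 with ⟨-, -, h5⟩ | ⟨h5, h6⟩
  · exact h5
  · by_cases hss : s = s'
    · subst hss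
      rw [h2] at h5
      exact h3 s h5 A h6
    · exfalso
      obtain ⟨ψ, -, h7, h8⟩ := h1 (Fin 2) (fun i => ![x i, x' i])
      simp only [vt_c0] at h7 h8
      have h9 : ψ 0 = ψ 1 ↔ κ (fun i => vs 𝔹 (x i)) (fun i => vs 𝔹 (x' i))
        {i | x i = x' i} := h8 0 1
      have h10 : vs 𝔹 (ψ 0) = τ (fun i => vs 𝔹 (x i)) := h7 0
      have h11 : vs 𝔹 (ψ 1) = τ (fun i => vs 𝔹 (x' i)) := h7 1
      have e0 : (fun i => vs 𝔹 (x i)) = fun _ => s := funext hx
      have e1 : (fun i => vs 𝔹 (x' i)) = fun _ => s' := funext hx'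
      rw [e0, e1, hA] at h9
      rw [e0, h2] at h10
      rw [e1, h2] at h11
      rw [h9.2 h6, h11] at h10
      exact hss h10.symm

end cmf

end Pool.Agent.H57.LH
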