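import Pool.Agent.H57.LH.TFL
import Pool.Agent.H74.AR.CYPR

/-!
# All first-order reducts of structures with local completions: row CPL
-/

set_option autoImplicit false
set_option linter.unusedVariables false

namespace Pool.Agent.H57.LH

open Pool.Agent.H68.BP Pool.Agent.H58.SF Pool.Agent.H53.GC Pool.Agent.H53.NR
open Pool.Agent.H53.GR (Dm Ps)
open Pool.Agent.H57.AR (tp ty tpo pullO Ty OT HomEq El ElD FamR Od GmR INJ lft Sgn Sup LinO ord rsO
  rsS Ff Fd Ff_mk lft_congr)
open Pool.Agent.H57.SO (Pal Col vt Bh Sbn fib sigF SF relP_cx tau_shift kap_shift)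
open Pool.Agent.H57.EQ (Cx)
open Pool.Agent.H44.KR (HB Amg Tyi)
open Pool.Agent.H68.GC (poly_strOn)
open Pool.Agent.H74.AR (lft_shift const_inj)
open Function

theorem pf_CPL (hLFTR : Pool.Agent.H57.AR.T_LFTR) (hDDL : T_DDL) : T_CPL := by
  intro V σ ρ _ 𝔸 𝔹 M hS p f hp hf hcyc τ κ F hF hτ hκ
  classical
  have : NeZero p := ⟨hp.ne_zero⟩
  have hM := hS.three
  choose e he1 he2 he3 using hF.form
  -- the components
  let U : (j : Fin M) → (ZMod p → ElD (SS 𝔹) ρ (Dm ρ M) (j + 1)) → ElD (SS 𝔹) ρ (Dm ρ M) (j + 1) :=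
    fun j d => ⟨fun a => τ (fun i => (d i).ts a),
      fun a b => κ (fun i => (d i).ts a) (fun i => (d i).ts b) {i | (d i).kr a b},
      fun o => lft f (j + 1) o (fun s => (e j (fun i => d (i + s))).st o),
      fun φ => f (fun s => (e j (fun i => d (i + s))).sg φ)⟩
  let u : (ZMod p → El (SS 𝔹) ρ M) → El (SS 𝔹) ρ M := fun z =>
    if h : ∃ x : (Σ j : Fin M, ZMod p → ElD (SS 𝔹) ρ (Dm ρ M) (j + 1)), z = fun i => ⟨x.1, x.2 i⟩ then
      ⟨h.choose.1, U h.choose.1 h.choose.2⟩
    else @Classical.arbitrary (El (SS 𝔹) ρ M) ⟨z 0⟩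
  have hu : ∀ (j : Fin M) (d : ZMod p → ElD (SS 𝔹) ρ (Dm ρ M) (j + 1)),
      u (fun i => ⟨j, d i⟩) = ⟨j, U j d⟩ := by
    intro j d
    have h : ∃ x : (Σ j : Fin M, ZMod p → ElD (SS 𝔹) ρ (Dm ρ M) (j + 1)),
        (fun i => (⟨j, d i⟩ : El (SS 𝔹) ρ M)) = fun i => ⟨x.1, x.2 i⟩ := ⟨⟨j, d⟩, rfl⟩
    have h1 : (⟨j, d⟩ : Σ j : Fin M, ZMod p → ElD (SS 𝔹) ρ (Dm ρ M) (j + 1)) = h.choose :=
      const_inj h.choose_spec
    have h2 : u (fun i => ⟨j, d i⟩) = ⟨h.choose.1, U h.choose.1 h.choose.2⟩ := dif_pos h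
    rw [h2, ← h1]
  refine ⟨u, ?_, ?_⟩
  · refine (poly_strOn _ _ _).2 ?_
    intro s q hq
    have hG' := (poly_strOn _ _ _).1 hF.poly
    have hx : ∀ j : ZMod p, FamR (P0 𝔹) 𝔸 𝔹 M (c0 𝔹) (tfL 𝔸 𝔹 M (c0 𝔹)) s (fun e => F (fun i => q (i + j) e)) :=
      fun j => hG' s (fun i => q (i + j)) (fun i => hq (i + j))
    choose kq Eq tq stq _ _ hq1 _ using hq
    choose k E t st hEp hsup hform hfam using hx
    let D : ZMod p → (j : Fin M) → (Fin (j + 1) → Fin (arP σ M s)) →
        ElD (SS 𝔹) ρ (Dm ρ M) (j + 1) := fun i j α =>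
      ⟨fun a => tq i (α a), fun a b => kq i (α a) = kq i (α b), stq i j α, rsS α (Eq i)⟩
    have hD : ∀ i j α, q i ⟨j, α⟩ = ⟨j, D i j α⟩ := fun i j α => hq1 i j α
    have heD : ∀ (l : ZMod p) (j : Fin M) (α : Fin (j + 1) → Fin (arP σ M s)),
        e j (fun i => D (i + l) j α) =
          ⟨fun a => t l (α a), fun a b => k l (α a) = k l (α b), st l j α, rsS α (E l)⟩ := by
      intro l j α
      have h1 := hform l j α
      have h2 : (fun i => q (i + l) ⟨j, α⟩) = fun i => ⟨j, D (i + l) j α⟩ := by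
        funext i
        exact hD _ _ _
      simp only [h2, he1] at h1
      exact eq_of_heq (Sigma.mk.inj h1).2
    have ht : ∀ l a, t l a = τ (fun i => tq i a) := by
      intro l a
      have h1 := he2 (⟨0, by omega⟩ : Fin M) (fun i => D (i + l) _ (fun _ => a)) 0
      rw [heD] at h1
      exact h1.trans (tau_shift hτ l (fun i => tq i a))
    have hk : ∀ l a b, k l a = k l b ↔
        κ (fun i => tq i a) (fun i => tq i b) {i | kq i a = kq i b} := by
      intro l a b
      have h1 := he3 (⟨1, by omega⟩ : Fin M) (fun i => D (i + l) _ ![a, b]) 0 1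
      rw [heD] at h1
      exact h1.trans (kap_shift hκ l (fun i => tq i a) (fun i => tq i b) {i | kq i a = kq i b})
    have hk0 : ∀ l a b, k l a = k l b ↔ k 0 a = k 0 b := fun l a b =>
      (hk l a b).trans (hk 0 a b).symm
    have hlin : ∀ l o, LinO (k 0) o → LinO (k l) o := by
      rintro l o ⟨rk, h1, h2⟩
      exact ⟨rk, fun a b => (h1 a b).trans (hk0 l a b).symm, h2⟩
    refine ⟨k 0, fun φ => f (fun l => E l φ), t 0,
      fun j α o => lft f (j + 1) o (fun l => st l j α o), ?_, ?_, ?_, ?_⟩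
    · intro l x hx
      exact hf l (fun i a => E i (fun o => x o a)) (fun i => hEp i l x hx)
    · intro φ φ' h
      change f _ = f _
      congr 1
      funext l
      refine hsup l φ φ' ?_
      intro o ho
      refine h o ?_
      obtain ⟨rk, h1, h2⟩ := ho
      exact ⟨rk, fun a b => (h1 a b).trans (hk0 l a b), h2⟩
    · intro j α
      change u (fun i => q i ⟨j, α⟩) = _
      have h2 : (fun i => q i ⟨j, α⟩) = fun i => ⟨j, D i j α⟩ := by
        funext i
        exact hD _ _ _
      rw [h2, hu]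
      have h3 : U j (fun i => D i j α) =
          ⟨fun a => t 0 (α a), fun a b => k 0 (α a) = k 0 (α b),
            fun o => lft f (j + 1) o (fun l => st l j α o), rsS α (fun φ => f (fun l => E l φ))⟩ := by
        change (⟨_, _, _, _⟩ : ElD (SS 𝔹) ρ (Dm ρ M) (j + 1)) = _
        simp only [heD]
        have e1 : (fun a => t 0 (α a)) = fun a => τ (fun i => (D i j α).ts a) := by
          funext a
          exact ht 0 _
        have e2 : (fun a b => k 0 (α a) = k 0 (α b)) = fun a b =>
            κ (fun i => (D i j α).ts a) (fun i => (D i j α).ts b) {i | (D i j α).kr a b} := by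
          funext a b
          exact propext (hk 0 _ _)
        rw [e1, e2]
        rfl
      rw [h3]
    · intro rk hrk
      have hex : ∀ l, ∃ x : Fin (arP σ M s) → V, relP 𝔸 M s x ∧ (∀ a b, x a = x b ↔ k l a = k l b) ∧
          (∀ a, vt (P0 𝔹) (c0 𝔹) (x a) = t l a) ∧
          ∀ (j : Fin M) (α : Fin (j + 1) → Fin (arP σ M s)),
            pull 𝔹 (fun a => x (α a)) = st l j α (ord (fun a => rk (α a))) := fun l =>
        hfam l rk (fun a b => (hrk a b).trans (hk0 l a b).symm)
      choose x hxR hxk hxt hxs using hex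
      let W : Type := Set.range (k 0)
      let pr : Fin (arP σ M s) → W := fun a => ⟨k 0 a, a, rfl⟩
      have hpr : ∀ w : W, ∃ a, w = pr a := by
        rintro ⟨v, a, rfl⟩
        exact ⟨a, rfl⟩
      let Gm : ZMod p → W → V := fun j w => x j (Classical.choose w.2)
      have hGm : ∀ j a, Gm j (pr a) = x j a := by
        intro j a
        have h1 : k 0 (Classical.choose (pr a).2) = k 0 a := Classical.choose_spec (pr a).2
        exact (hxk j _ _).2 ((hk0 j _ _).2 h1)
      have hGi : ∀ j, Injective (Gm j) := by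
        intro j w w' h
        obtain ⟨a, rfl⟩ := hpr w
        obtain ⟨b, rfl⟩ := hpr w'
        rw [hGm, hGm] at h
        exact Subtype.ext ((hk0 j _ _).1 ((hxk j _ _).1 h))
      have hGt : ∀ j j' w, vt (P0 𝔹) (c0 𝔹) (Gm j w) = vt (P0 𝔹) (c0 𝔹) (Gm j' w) := by
        intro j j' w
        obtain ⟨a, rfl⟩ := hpr w
        rw [hGm, hGm, hxt, hxt, ht, ht]
      let rkW : W → ℕ := fun w => rk (Classical.choose w.2)
      have hrkW : ∀ a, rkW (pr a) = rk a := by
        intro a
        have h1 : k 0 (Classical.choose (pr a).2) = k 0 a := Classical.choose_spec (pr a).2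
        exact (hrk _ _).2 h1
      have hrkI : Injective rkW := by
        intro w w' h
        obtain ⟨a, rfl⟩ := hpr w
        obtain ⟨b, rfl⟩ := hpr w'
        rw [hrkW, hrkW] at h
        exact Subtype.ext ((hrk _ _).1 h)
      obtain ⟨ψ, hψi, hψC, hψt, hψN⟩ :=
        hDDL V σ ρ 𝔸 𝔹 M hS (ZMod p) f hf W rkW hrkI Gm hGi (fun j j' w => by
          have h1 := hGt j j' w
          rw [vt_c0, vt_c0] at h1
          exact congrArg Subtype.val h1)
      have hψL := hLFTR ρ V 𝔹 M (ZMod p) W f rkW hrkI Gm ψ hψN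
      refine ⟨fun a => ψ (pr a), ?_, ?_, ?_, ?_⟩
      · refine relP_cx hψC s pr ?_
        intro i
        simp only [hGm]
        exact hxR i
      · intro a b
        constructor
        · intro h
          exact congrArg Subtype.val (hψi h)
        · intro h
          have : pr a = pr b := Subtype.ext h
          change ψ (pr a) = ψ (pr b)
          rw [this]
      · intro a
        change vt (P0 𝔹) (c0 𝔹) (ψ (pr a)) = _
        have h6 : vt (P0 𝔹) (c0 𝔹) (ψ (pr a)) = vt (P0 𝔹) (c0 𝔹) (Gm 0 (pr a)) := by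
          rw [vt_c0, vt_c0]
          exact Subtype.ext (hψt 0 (pr a))
        rw [h6, hGm, hxt]
      · intro j α
        have h1 := hψL (j + 1) (fun a => pr (α a)) (by omega) (by have := j.2; omega)
        have h2 : (fun a b => rkW (pr (α a)) < rkW (pr (α b))) = ord (fun a => rk (α a)) := by
          funext a b
          rw [hrkW, hrkW]
          rfl
        have h3 : (fun l => pull 𝔹 (fun i => Gm l (pr (α i)))) =
            fun l => st l j α (ord (fun a => rk (α a))) := by
          funext l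
          rw [← hxs l j α]
          congr 1
          funext i
          exact hGm l _
        exact h1.trans (congrArg₂ (lft f (j + 1)) h2 h3)
  · intro z
    by_cases h : ∃ x : (Σ j : Fin M, ZMod p → ElD (SS 𝔹) ρ (Dm ρ M) (j + 1)), z = fun i => ⟨x.1, x.2 i⟩
    · obtain ⟨⟨j, d⟩, rfl⟩ := h
      change u (fun i => ⟨j, d (i + 1)⟩) = u (fun i => ⟨j, d i⟩)
      rw [hu j (fun i => d (i + 1)), hu j d]
      have h3 : U j (fun i => d (i + 1)) = U j d := by
        change (⟨_, _, _, _⟩ : ElD (SS 𝔹) ρ (Dm ρ M) (j + 1)) = ⟨_, _, _, _⟩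
        have ea : ∀ s : ZMod p, (fun i => d (i + s + 1)) = fun i => d (i + (s + 1)) := by
          intro s
          funext i
          rw [add_assoc]
        have e1 : (fun a => τ (fun i => (d (i + 1)).ts a)) = fun a => τ (fun i => (d i).ts a) := by
          funext a
          exact hτ (fun i => (d i).ts a)
        have e2 : (fun a b => κ (fun i => (d (i + 1)).ts a) (fun i => (d (i + 1)).ts b)
            {i | (d (i + 1)).kr a b}) =
            fun a b => κ (fun i => (d i).ts a) (fun i => (d i).ts b) {i | (d i).kr a b} := by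
          funext a b
          exact propext (hκ (fun i => (d i).ts a) (fun i => (d i).ts b) {i | (d i).kr a b})
        have e3 : (fun o => lft f (j + 1) o (fun s => (e j (fun i => d (i + s + 1))).st o)) =
            fun o => lft f (j + 1) o (fun s => (e j (fun i => d (i + s))).st o) := by
          funext o
          simp only [ea]
          exact lft_shift hcyc _ o (fun s => (e j (fun i => d (i + s))).st o)
        have e4 : (fun φ => f (fun s => (e j (fun i => d (i + s + 1))).sg φ)) =
            fun φ => f (fun s => (e j (fun i => d (i + s))).sg φ) := by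
          funext φ
          simp only [ea]
          exact hcyc (fun s => (e j (fun i => d (i + s))).sg φ)
        rw [e1, e2, e3, e4]
      rw [h3]
    · have h' : ¬ ∃ x : (Σ j : Fin M, ZMod p → ElD (SS 𝔹) ρ (Dm ρ M) (j + 1)),
          (fun i => z (i + 1)) = fun i => ⟨x.1, x.2 i⟩ := by
        rintro ⟨⟨j, d⟩, hx⟩
        refine h ⟨⟨j, fun i => d (i - 1)⟩, ?_⟩
        funext i
        have h1 := congrFun hx (i - 1)
        simp only [sub_add_cancel] at h1
        exact h1
      have e1 : u z = @Classical.arbitrary (El (SS 𝔹) ρ M) ⟨z 0⟩ := dif_neg h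
      have e2 : u (fun i => z (i + 1)) = @Classical.arbitrary (El (SS 𝔹) ρ M) ⟨z (0 + 1)⟩ := dif_neg h'
      rw [e1, e2]

end Pool.Agent.H57.LH
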