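import Pool.Agent.H57.LH.Targets2
import Pool.Agent.H73.AR.DDXR
import Pool.Agent.H68.GC.OLF0

/-!
# All first-order reducts of structures with local completions: row DDL
-/

set_option autoImplicit false
set_option linter.unusedVariables false

namespace Pool.Agent.H57.LH

open Pool.Agent.H68.BP Pool.Agent.H58.SF Pool.Agent.H53.GC Pool.Agent.H53.NR
open Pool.Agent.H53.GR (Dm Ps)
open Pool.Agent.H57.AR (tp ty tpo pullO Ty OT HomEq El ElD FamR Od GmR INJ lft)
open Pool.Agent.H57.SO (Pal Col vt Bh Sbn fib sigF SF)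
open Pool.Agent.H57.EQ (Cx)
open Pool.Agent.H44.KR (HB Amg Tyi)
open Pool.Agent.H73.AR (XX enum xx_iff)
open Function

/-- combinations of tuples in the fibres -/
theorem ddl_fib {V S X : Type} {σ ρ : Sig} [Finite S] {𝔸 : Str σ V}
    {𝔹 : Str ρ V} {M : ℕ} {c : V → V → S ⊕ X} {A : Type} {n : ℕ}
    {N : (A → Dm ρ M) → Dm ρ M} (hN : IsPoly (tfL 𝔸 𝔹 M c) (tfL 𝔸 𝔹 M c) N)
    (G : A → Fin n → V) (hG : ∀ i, Injective (G i)) (t : Fin n → S)
    (ht : ∀ i a, c (G i a) (G i a) = Sum.inl (t a)) :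
    ∀ (s0 : SF S σ M) (sv : Fin s0.2.1 → Fin n), StrictMono sv →
      (∀ a, t (sv a) = s0.2.2.2 a) →
      (∀ i, relP 𝔸 M s0.1 (fun a => G i (sv (s0.2.2.1 a)))) →
      ∃ x : Fin s0.2.1 → V, Injective x ∧ (∀ a, c (x a) (x a) = Sum.inl (t (sv a))) ∧
        relP 𝔸 M s0.1 (fun a => x (s0.2.2.1 a)) ∧
        ∀ (j : Fin M) (α : Fin (j + 1) → Fin s0.2.1), StrictMono α →
          N (fun a => ⟨j, pull 𝔹 (fun i => G a (sv (α i)))⟩) = ⟨j, pull 𝔹 (fun i => x (α i))⟩ := by
  classical
  intro s0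
  obtain ⟨i0, rfl⟩ := (Finite.equivFin (SF S σ M)).symm.surjective s0
  intro sv hsv hty hA
  unfold tfL at hN
  have hp := (Pool.Agent.H68.GC.poly_strOn _ _ _).1 hN
    (⟨i0, id⟩ : SyL S σ M)
    (fun l jα => ⟨jα.1, pull 𝔹 (fun i => G l (sv (jα.2 i)))⟩)
    (fun l => ⟨fun a => G l (sv a), ⟨(hG l).comp hsv.injective,
        fun a => (ht l (sv a)).trans (congrArg Sum.inl (hty a)), hA l⟩,
      fun a b hab => by
        have h1 : a = b := hab
        rw [h1],
      fun j α _ => rfl⟩)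
  obtain ⟨x, ⟨hxi, hxt, hxA⟩, -, hx⟩ := hp
  refine ⟨x, hxi, fun a => (hxt a).trans (congrArg Sum.inl (hty a).symm), hxA, ?_⟩
  intro j α hα
  exact hx j α hα

theorem pf_DDL : T_DDL := by
  classical
  intro V σ ρ _ 𝔸 𝔹 M hs A _ _ N hN W _ rk hrk G hG hGt
  have har := hs.ar
  have hM := hs.three
  let lo : LinearOrder W := LinearOrder.lift' rk hrk
  let fi : Fintype W := Fintype.ofFinite W
  obtain ⟨n, hn⟩ : ∃ n, n = Fintype.card W := ⟨_, rfl⟩
  let e' : Fin n ≃o W := Fintype.orderIsoFinOfCardEq W hn.symm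
  let e : W ≃ Fin n := e'.symm.toEquiv
  have he : ∀ u w, rk u < rk w → e u < e w := fun u w h => e'.symm.strictMono h
  let a0 : A := Classical.arbitrary A
  let G' : A → Fin n → V := fun l i => G l (e.symm i)
  have hG' : ∀ l, Injective (G' l) := fun l => (hG l).comp e.symm.injective
  let t : Fin n → SS 𝔹 := fun i => vs 𝔹 (G a0 (e.symm i))
  have ht : ∀ i a, c0 𝔹 (G' i a) (G' i a) = Sum.inl (t a) := fun i a => by
    rw [c0_self]
    exact congrArg Sum.inl (Subtype.ext (hGt i a0 (e.symm a)))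
  have hfib := ddl_fib hN G' hG' t ht
  -- tuples of at most `M` elements
  have hfibM : ∀ (k : ℕ) (sv : Fin k → Fin n), 1 ≤ k → k ≤ M → StrictMono sv →
      ∃ x : Fin k → V, Injective x ∧ (∀ a, c0 𝔹 (x a) (x a) = Sum.inl (t (sv a))) ∧
        ∀ (j : Fin M) (α : Fin (j + 1) → Fin k), StrictMono α →
          N (fun a => ⟨j, pull 𝔹 (fun i => G' a (sv (α i)))⟩) =
            ⟨j, pull 𝔹 (fun i => x (α i))⟩ := by
    intro k sv hk1 hkM hsv
    obtain ⟨x, hxi, hxt, -, hx⟩ := hfib
      ⟨none, ⟨k, Nat.lt_succ_of_le hkM⟩, fun a => ⟨min (a : ℕ) (k - 1), by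
          show min (a : ℕ) (k - 1) < k
          omega⟩,
        fun a => t (sv a)⟩ sv hsv (fun a => rfl) (fun i => trivial)
    exact ⟨x, hxi, hxt, hx⟩
  obtain ⟨ψ0, hψi, hemb⟩ := hs.bdd (Fin n) (XX 𝔹 N G') (by
    intro m s hm hs'
    rcases Nat.eq_zero_or_pos m with h0 | hpos
    · subst h0
      refine ⟨fun i => i.elim0, fun i => i.elim0, ?_⟩
      funext l z
      exact (z ⟨0, (har l).1⟩).elim0
    · obtain ⟨r, sv, y, hr, hr1, hsv, hy, hz⟩ := enum s
      have hyi : Injective y := by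
        intro a b hab
        apply hs'
        rw [hz a, hz b, hab]
      obtain ⟨x, hxi, -, hx⟩ := hfibM r sv (hr1 hpos) (hr.trans hm) hsv
      refine ⟨fun i => x (y i), hxi.comp hyi, ?_⟩
      funext l z
      have h1 := xx_iff har hsv hx l (fun i => y (z i))
      have h2 : (fun i => sv (y (z i))) = fun i => s (z i) := by
        funext i
        rw [hz (z i)]
      rw [h2] at h1
      exact propext h1.symm)
  have hpull : ∀ (k : ℕ) (sv : Fin k → Fin n) (x : Fin k → V), StrictMono sv →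
      (∀ (j : Fin M) (α : Fin (j + 1) → Fin k), StrictMono α →
        N (fun a => ⟨j, pull 𝔹 (fun i => G' a (sv (α i)))⟩) =
          ⟨j, pull 𝔹 (fun i => x (α i))⟩) →
      ∀ (l : Fin ρ.m) (z : Fin (ρ.ar l) → Fin k), 𝔹 l (fun i => ψ0 (sv (z i))) ↔
        𝔹 l (fun i => x (z i)) := by
    intro k sv x hsv hx l z
    have h1 := iff_of_eq (congrFun (congrFun hemb l) (fun i => sv (z i)))
    exact h1.trans (xx_iff har hsv hx l z)
  refine ⟨fun w => ψ0 (e w), hψi.comp e.injective, fun l z hz => ?_,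
    fun a w => ?_, fun n' u hu => ?_⟩
  · obtain ⟨r, sv, ε, hr, -, hsv, hy, hε⟩ := enum (fun a => e (z a))
    obtain ⟨x, hxi, hxt, hxA, hx⟩ := hfib
      ⟨some l, ⟨r, Nat.lt_succ_of_le hr⟩, ε, fun b => t (sv b)⟩ sv hsv (fun a => rfl)
      (fun i => by
        have h1 := hz i
        have h2 : (fun a => G' i (sv (ε a))) = fun a => G i (z a) := by
          funext a
          change G i (e.symm (sv (ε a))) = _
          rw [← hε a, e.symm_apply_apply]
        change 𝔸 l (fun a => G' i (sv (ε a)))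
        rw [h2]
        exact h1)
    have h3 : (fun a => ψ0 (e (z a))) = fun a => ψ0 (sv (ε a)) := by
      funext a
      rw [← hε a]
    change 𝔸 l (fun a => ψ0 (e (z a)))
    rw [h3]
    refine hs.prs.tyi l (fun a => x (ε a)) _ hxA ?_
    unfold tp
    refine Prod.ext ?_ ?_
    · funext a b
      apply propext
      constructor
      · intro h4
        have h5 : ε a = ε b := hsv.injective (hψi h4)
        show x (ε a) = x (ε b)
        rw [h5]
      · intro h4
        have h5 : ε a = ε b := hxi h4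
        show ψ0 (sv (ε a)) = ψ0 (sv (ε b))
        rw [h5]
    · funext l' z'
      apply propext
      exact hpull r sv x hsv hx l' (fun i => ε (z' i))
  · -- types
    obtain ⟨x, hxi, hxt, hx⟩ := hfibM 1 (fun _ => e w) le_rfl (by omega)
      (fun i j hij => absurd hij (by
        rw [Subsingleton.elim i j]
        exact lt_irrefl _))
    have h1 := hpull 1 (fun _ => e w) x (fun i j hij => absurd hij (by
        rw [Subsingleton.elim i j]
        exact lt_irrefl _)) hx
    have h2 : ty 𝔹 (ψ0 (e w)) = ty 𝔹 (x 0) := by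
      funext l
      exact propext (h1 l (fun _ => 0))
    have h3 := hxt 0
    rw [c0_self] at h3
    have h4 : ty 𝔹 (x 0) = ty 𝔹 (G a0 (e.symm (e w))) :=
      congrArg Subtype.val (Sum.inl.inj h3)
    change ty 𝔹 (ψ0 (e w)) = ty 𝔹 (G a w)
    rw [h2, h4, e.symm_apply_apply]
    exact hGt a0 a w
  · have hsv : StrictMono (fun i => e (u i)) := fun i j hij => he _ _ (hu hij)
    obtain ⟨x, hxi, -, hx⟩ := hfibM (n' + 1) (fun i => e (u i)) (by omega) (by omega) hsv
    have h1 := hpull (n' + 1) (fun i => e (u i)) x hsv hx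
    have h2 := hx n' id strictMono_id
    have h3 : pull 𝔹 (fun i => ψ0 (e (u i))) = pull 𝔹 (fun i => x (id i)) := by
      funext l z
      exact propext (h1 l z)
    change _ = (⟨n', pull 𝔹 (fun i => ψ0 (e (u i)))⟩ : Dm ρ M)
    rw [h3, ← h2]
    congr 1
    funext a
    have h4 : (fun i => G a (u i)) = fun i => G' a (e (u (id i))) := by
      funext i
      change _ = G a (e.symm (e (u i)))
      rw [e.symm_apply_apply]
    rw [h4]

end Pool.Agent.H57.LH
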