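import Pool.Agent.H57.LH.Targets2

/-!
# All first-order reducts of structures with local completions: rows OPE, ZER
-/

set_option autoImplicit false
set_option linter.unusedVariables false

namespace Pool.Agent.H57.LH

open Pool.Agent.H68.BP Pool.Agent.H58.SF Pool.Agent.H53.GC Pool.Agent.H53.NR
open Pool.Agent.H57.AR (tp ty Ty)
open Pool.Agent.H57.LCI (LocalCompletions Pre Realizes)
open Pool.Agent.H44.KR (HB Amg Tyi Rz Rlz Clp LInj Prm TpOn LcN Pl lr blk Fv kv RkI Kd JJ Yc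
  IsTh Can Plf Pls plc sh)
open Function

theorem plc_last (L : ℕ) (r : Fin 3) (c : Fin 6) :
    plc L r (2 * L + 2) c = Sum.inr (Sum.inr (lr r c)) := by
  have h : sh (2 * L + 2) (lr r c) = L + 1 := by
    unfold sh
    rcases lr r c with ⟨v, hv⟩
    interval_cases v
    · show (2 * L + 2 + 1) / 2 = L + 1
      omega
    · show (2 * L + 2) / 2 = L + 1
      omega
  unfold plc
  rw [if_neg (by omega), dif_neg (by omega)]

theorem pf_OPE : T_OPE := by
  intro V σ ρ 𝔸 𝔹 L Φ hB hC r v v' hv hv'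
  funext t
  choose x hx using fun d => (t d).2
  have hx' : (fun d => vs 𝔹 (x d)) = t := funext fun d => Subtype.ext (hx d)
  obtain ⟨rk, hrk⟩ : ∃ rk : Pl L × V → ℕ, RkI rk (fun q : Fin 2 × Fin 2 =>
      ((Sum.inr (Sum.inr q.2) : Pl L), x q.2)) := by
    have h : (Set.range (fun q : Fin 2 × Fin 2 =>
      ((Sum.inr (Sum.inr q.2) : Pl L), x q.2))).Finite := Set.finite_range _
    obtain ⟨f, hf⟩ := Set.countable_iff_exists_injOn.1 h.countable
    exact ⟨f, fun i j hij => hf ⟨i, rfl⟩ ⟨j, rfl⟩ hij⟩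
  have hb : ∀ r : Fin 3, blk L r (2 * L + 2) (fun c => x (lr r c)) =
      fun c => (Sum.inr (Sum.inr (lr r c)), x (lr r c)) := by
    intro r
    funext c
    show (plc L r (2 * L + 2) c, x (lr r c)) = _
    rw [plc_last]
  have hr : ∀ r : Fin 3, RkI rk (blk L r (2 * L + 2) (fun c => x (lr r c))) := by
    intro r
    rw [hb]
    intro i j hij
    exact hrk (0, lr r i) (0, lr r j) hij
  have h1 := hv x rk (hr r)
  have h2 := hv' x rk (hr 0)
  rw [hx', hb] at h1 h2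
  have h3 := hC.ex r (fun _ => x) rk hrk
  have h4 : Fv 𝔹 Φ rk (fun c => ((Sum.inr (Sum.inr (lr r c)) : Pl L), x (lr r c)))
      (fun c => (Sum.inr (Sum.inr (lr r c)), x (lr r c))) =
      Fv 𝔹 Φ rk (fun c => ((Sum.inr (Sum.inr (lr 0 c)) : Pl L), x (lr 0 c)))
      (fun c => (Sum.inr (Sum.inr (lr 0 c)), x (lr 0 c))) := h3
  rw [h4] at h1
  exact Subtype.ext (h1.symm.trans h2)

theorem pf_ZER : T_ZER := by
  intro V ρ 𝔹 hH hL
  classical
  let S : Type := {l : Fin ρ.m // 1 ≤ ρ.ar l}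
  let e := Finite.equivFin S
  let ρ' : Sig := ⟨Nat.card S, fun l => ρ.ar (e.symm l).1⟩
  let dr : ∀ {X : Type}, Str ρ X → Str ρ' X := fun 𝕏 l z => 𝕏 (e.symm l).1 z
  have hemb : ∀ {X Y : Type} (𝕏 : Str ρ X) (𝕐 : Str ρ Y) (f : X → Y),
      (∀ (l : Fin ρ'.m) (x : Fin (ρ'.ar l) → X), dr 𝕏 l x ↔ dr 𝕐 l (fun i => f (x i))) →
      ∀ (l : Fin ρ.m), 1 ≤ ρ.ar l → ∀ x : Fin (ρ.ar l) → X, 𝕏 l x ↔ 𝕐 l (fun i => f (x i)) := by
    intro X Y 𝕏 𝕐 f h l hl
    have h1 : ∀ s : S, ∀ x : Fin (ρ.ar s.1) → X, 𝕏 s.1 x ↔ 𝕐 s.1 (fun i => f (x i)) := by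
      intro s
      have h2 := h (e s)
      have h3 : ∀ s' : S, s' = s → (∀ x : Fin (ρ.ar s'.1) → X, 𝕏 s'.1 x ↔
          𝕐 s'.1 (fun i => f (x i))) → ∀ x : Fin (ρ.ar s.1) → X, 𝕏 s.1 x ↔
          𝕐 s.1 (fun i => f (x i)) := by
        rintro s' rfl h4
        exact h4
      exact h3 (e.symm (e s)) (e.symm_apply_apply s) h2
    exact h1 ⟨l, hl⟩
  -- tuples without places
  have hzero : ∀ {Y : Type} (l : Fin ρ.m), ¬ 1 ≤ ρ.ar l → ∀ x y : Fin (ρ.ar l) → Y, x = y := by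
    intro Y l hl x y
    funext i
    exact absurd i.2 (by omega)
  have hpos : ∀ l : Fin ρ'.m, 1 ≤ ρ'.ar l := fun l => (e.symm l).2
  refine ⟨ρ', dr 𝔹, hpos, ?_, ?_, ?_⟩
  · intro F f hf
    have h1 : IsEmb (fun l (x : Fin (ρ.ar l) → F) => 𝔹 l (fun i => (x i : V))) 𝔹 f := by
      refine ⟨hf.1, fun l x => ?_⟩
      by_cases hl : 1 ≤ ρ.ar l
      · exact hemb (fun l (x : Fin (ρ.ar l) → F) => 𝔹 l (fun i => (x i : V))) 𝔹 f hf.2 l hl x
      · show 𝔹 l _ ↔ 𝔹 l _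
        rw [hzero l hl (fun i => (x i : V)) (fun i => f (x i))]
    obtain ⟨g, hg, hg'⟩ := hH F f h1
    exact ⟨g, fun l x => hg _ x, hg'⟩
  · intro r
    obtain ⟨M, hM⟩ := hL r
    refine ⟨M, fun n P hP hloc => ?_⟩
    let up : ∀ {j : ℕ}, Str ρ' (Fin j) → Str ρ (Fin j) := fun {j} 𝕏 l z =>
      if hl : 1 ≤ ρ.ar l then
        ∃ (l' : Fin ρ'.m) (h : e.symm l' = ⟨l, hl⟩), 𝕏 l' (fun i => z (Fin.cast (by
          show ρ.ar (e.symm l').1 = ρ.ar l
          rw [h]) i))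
      else ∃ y : Fin (ρ.ar l) → V, 𝔹 l y
    have hdrup : ∀ {j : ℕ} (𝕏 : Str ρ' (Fin j)), dr (up 𝕏) = 𝕏 := by
      intro j 𝕏
      funext l z
      apply propext
      show (dite _ _ _ : Prop) ↔ _
      rw [dif_pos (e.symm l).2]
      constructor
      · rintro ⟨l', h, h2⟩
        have h3 : l' = l := e.symm.injective h
        subst h3
        exact h2
      · intro h
        exact ⟨l, rfl, h⟩
    have hreal : ∀ (p : Pre ρ' (Fin n)) (f : Fin n → V),
        Realizes 𝔹 f ⟨p.1, p.2.1, up p.2.2⟩ ↔ Realizes (dr 𝔹) f p := by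
      intro p f
      constructor
      · rintro ⟨h1, h2⟩
        refine ⟨h1, fun l x => ?_⟩
        have h3 := h2 (e.symm l).1 x
        have h4 := congrFun (congrFun (hdrup p.2.2) l) x
        rw [← h4]
        exact h3
      · rintro ⟨h1, h2⟩
        refine ⟨h1, fun l x => ?_⟩
        by_cases hl : 1 ≤ ρ.ar l
        · refine hemb (up p.2.2) 𝔹 (fun i => f (p.2.1 i)) (fun l' x' => ?_) l hl x
          rw [hdrup]
          exact h2 l' x'
        · show (dite _ _ _ : Prop) ↔ _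
          rw [dif_neg hl]
          constructor
          · rintro ⟨y, hy⟩
            rw [hzero l hl (fun i => f (p.2.1 (x i))) y]
            exact hy
          · intro h
            exact ⟨_, h⟩
    obtain ⟨f, hf⟩ := hM n {p | ∃ p' ∈ P, p = ⟨p'.1, p'.2.1, up p'.2.2⟩} (by
      rintro _ ⟨p', hp', rfl⟩
      exact hP p' hp') (by
      intro U hU
      obtain ⟨f, hf⟩ := hloc U hU
      refine ⟨f, ?_⟩
      rintro _ ⟨p', hp', rfl⟩ hpU
      exact (hreal p' f).2 (hf p' hp' hpU))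
    exact ⟨f, fun p hp => (hreal p f).1 (hf _ ⟨p, hp, rfl⟩)⟩
  · intro g hg l x
    by_cases hl : 1 ≤ ρ.ar l
    · exact hemb 𝔹 𝔹 g hg l hl x
    · exact iff_of_eq (congrArg (𝔹 l) (hzero l hl x (fun i => g (x i))))

end Pool.Agent.H57.LH
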