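import Pool.Agent.H57.LH.Targets2

/-!
# All first-order reducts of structures with local completions: rows KRL, CBL, MNX
-/

set_option autoImplicit false
set_option linter.unusedVariables false

namespace Pool.Agent.H57.LH

open Pool.Agent.H68.BP Pool.Agent.H58.SF Pool.Agent.H53.GC Pool.Agent.H53.NR
open Pool.Agent.H53.GR (Dm Ps)
open Pool.Agent.H57.AR (tp ty tpo pullO Ty OT HomEq El ElD FamR Od GmR INJ lft)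
open Pool.Agent.H57.SO (Pal Col vt Bh Sbn fib sigF)
open Pool.Agent.H57.EQ (Cx T_CYF)
open Pool.Agent.H57.LCI (LocalCompletions Pre Realizes)
open Pool.Agent.H44.KR (HB Amg Tyi Rz Rlz Clp LInj Prm TpOn RmL LcN Pl lr blk Fv kv RkI Kd JJ Yc
  IsTh Can Plf Pls)
open Function

/-- the type of the element at the place `a` -/
def un {ρ : Sig} (T : Ty ρ (Fin 2)) (a : Fin 2) : Fin ρ.m → Prop := fun l => T.2 l (fun _ => a)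

theorem un_tp {V : Type} {ρ : Sig} (𝔹 : Str ρ V) (x : Fin 2 → V) (a : Fin 2) :
    un (tp 𝔹 x) a = ty 𝔹 (x a) := rfl

theorem pf_KRL (hBHP : T_BHP) : T_KRL := by
  intro V σ ρ _ 𝔸 𝔹 m hB hO ht hm hc hcnz I _ τ hτ
  let R : (I → Ty ρ (Fin 2)) → Ty ρ (Fin 2) → Prop := fun T t =>
    ∀ (a : Fin 2) (s : I → SS 𝔹), (∀ i, (s i).1 = un (T i) a) → un t a = (τ s).1
  obtain ⟨Ψ, hΨ⟩ := hcnz I R (by
    intro W _ G
    obtain ⟨ψ, h1, h2⟩ := hτ W G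
    refine ⟨ψ, h1, fun u w a s hs => ?_⟩
    have key : ∀ x : W, (∀ i, (s i).1 = ty 𝔹 (G i x)) → ty 𝔹 (ψ x) = (τ s).1 := by
      intro x hx
      have h3 := h2 x
      rw [vt_c0] at h3
      have h4 : (fun i => vt (P0 𝔹) (c0 𝔹) (G i x)) = s := by
        funext i
        rw [vt_c0]
        exact Subtype.ext (hx i).symm
      rw [h4] at h3
      exact congrArg Subtype.val h3
    fin_cases a
    · exact key u hs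
    · exact key w hs)
  obtain ⟨τ', κ, h1, h2⟩ := hBHP V σ ρ 𝔸 𝔹 m hB hO ht hm hc I R Ψ hΨ
  have h3 : τ' = τ := by
    funext s
    choose x hx using fun i => (s i).2
    have hx' : (fun i => vs 𝔹 (x i)) = s := funext fun i => Subtype.ext (hx i)
    obtain ⟨ψ, -, h5, h6⟩ := hΨ Unit (fun i _ => x i)
    have h7 := (h2 Unit (fun i _ => x i) ψ h5).1 ()
    have h8 := h6 () () 0 s (fun i => (hx i).symm)
    rw [hx'] at h7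
    rw [← h7]
    exact Subtype.ext h8
  rw [h3] at h1
  exact ⟨κ, h1⟩

theorem pf_CBL : T_CBL := by
  intro V σ ρ _ 𝔸 𝔹 hB hcnz I _ τ κ hτ
  let R : (I → Ty ρ (Fin 2)) → Ty ρ (Fin 2) → Prop := fun T t =>
    ∀ s s' : I → SS 𝔹, (∀ i, (s i).1 = un (T i) 0) → (∀ i, (s' i).1 = un (T i) 1) →
      un t 0 = (τ s).1 ∧ (t.1 0 1 ↔ κ s s' {i | (T i).1 0 1})
  obtain ⟨Ψ, hΨ⟩ := hcnz I R (by
    intro W _ G
    obtain ⟨ψ, h1, h2, h3⟩ := hτ W G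
    refine ⟨ψ, h1, fun u w s s' hs hs' => ?_⟩
    have h4 : ∀ x (s : I → SS 𝔹), (∀ i, (s i).1 = ty 𝔹 (G i x)) →
        (fun i => vt (P0 𝔹) (c0 𝔹) (G i x)) = s := by
      intro x s hx
      funext i
      rw [vt_c0]
      exact Subtype.ext (hx i).symm
    have h5 := h2 u
    have h6 := h3 u w
    rw [h4 u s hs, vt_c0] at h5
    rw [h4 u s hs, h4 w s' hs'] at h6
    exact ⟨congrArg Subtype.val h5, h6⟩)
  refine ⟨Ψ, fun W _ G => ?_⟩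
  obtain ⟨ψ, h1, h2, h3⟩ := hΨ W G
  have h4 : ∀ x, (fun i => vt (P0 𝔹) (c0 𝔹) (G i x)) = fun i => vs 𝔹 (G i x) := fun x =>
    funext fun i => vt_c0 𝔹 _
  refine ⟨ψ, h1, fun w => ?_, fun u w => ?_, h2⟩
  · rw [vt_c0, h4]
    exact Subtype.ext (h3 w w (fun i => vs 𝔹 (G i w)) (fun i => vs 𝔹 (G i w)) (fun _ => rfl)
      (fun _ => rfl)).1
  · rw [h4, h4]
    exact (h3 u w (fun i => vs 𝔹 (G i u)) (fun i => vs 𝔹 (G i w)) (fun _ => rfl)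
      (fun _ => rfl)).2

theorem nB_le {V : Type} {σ ρ : Sig} (𝔸 : Str σ V) (𝔹 : Str ρ V) : nB 𝔸 𝔹 ≤ nT 𝔹 := by
  unfold nB nT
  exact Nat.card_le_card_of_injective
    (fun s : {s : Fin ρ.m → Prop // Blind 𝔸 𝔹 s} => (⟨s.1, s.2.rlz⟩ : SS 𝔹))
    (fun s t h => Subtype.ext (congrArg (fun x : SS 𝔹 => x.1) h))

theorem pf_MNX : T_MNX := by
  intro A V σ ρ 𝔻 𝔸 𝔹 hP hE
  classical
  let Q : ℕ → Prop := fun n => ∃ (V' : Type) (ρ' : Sig) (𝔸' : Str σ V') (𝔹' : Str ρ' V'),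
    Prs 𝔸' 𝔹' ∧ HomEq 𝔻 𝔸' ∧ nT 𝔹' = n
  have hQ : ∃ n, Q n := ⟨nT 𝔹, V, ρ, 𝔸, 𝔹, hP, hE, rfl⟩
  have hmin : ∀ (ρ' : Sig) (V' : Type) (𝔸' : Str σ V') (𝔹' : Str ρ' V'), Prs 𝔸' 𝔹' →
      HomEq 𝔻 𝔸' → Nat.find hQ ≤ nT 𝔹' := fun ρ' V' 𝔸' 𝔹' h1 h2 =>
    Nat.find_min' hQ ⟨V', ρ', 𝔸', 𝔹', h1, h2, rfl⟩
  let R : ℕ → Prop := fun k => ∃ (V' : Type) (ρ' : Sig) (𝔸' : Str σ V') (𝔹' : Str ρ' V'),
    Prs 𝔸' 𝔹' ∧ HomEq 𝔻 𝔸' ∧ nT 𝔹' = Nat.find hQ ∧ Nat.find hQ - nB 𝔸' 𝔹' = k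
  have hR : ∃ k, R k := by
    obtain ⟨V', ρ', 𝔸', 𝔹', h1, h2, h3⟩ := Nat.find_spec hQ
    exact ⟨_, V', ρ', 𝔸', 𝔹', h1, h2, h3, rfl⟩
  obtain ⟨V', ρ', 𝔸', 𝔹', h1, h2, h3, h4⟩ := Nat.find_spec hR
  refine ⟨V', ρ', 𝔸', 𝔹', h1, h2, ?_⟩
  intro ρ'' V'' 𝔸'' 𝔹'' h5 h6
  refine ⟨?_, fun h7 => ?_⟩
  · rw [h3]
    exact hmin ρ'' V'' 𝔸'' 𝔹'' h5 h6
  · have h8 := Nat.find_min' hR ⟨V'', ρ'', 𝔸'', 𝔹'', h5, h6, h7.trans h3, rfl⟩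
    rw [← h4] at h8
    have h9 := nB_le 𝔸'' 𝔹''
    have h10 := nB_le 𝔸' 𝔹'
    omega

end Pool.Agent.H57.LH
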