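import Pool.Agent.H57.LH.Targets2
import Pool.Agent.H57.AR.TOF
import Pool.Agent.H68.GC.OLF0

/-!
# All first-order reducts of structures with local completions: row TFL
-/

set_option autoImplicit false
set_option linter.unusedVariables false

namespace Pool.Agent.H57.LH

open Pool.Agent.H68.BP Pool.Agent.H58.SF Pool.Agent.H53.GC Pool.Agent.H53.NR
open Pool.Agent.H53.GR (Dm Ps)
open Pool.Agent.H57.AR (tp ty tpo pullO Ty OT HomEq El ElD FamR Od GmR INJ lft Sgn Sup LinO ord rsO
  rsS Ff Fd Ff_mk lft_congr)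
open Pool.Agent.H57.SO (Pal Col vt Bh Sbn fib sigF SF)
open Pool.Agent.H57.EQ (Cx)
open Pool.Agent.H44.KR (HB Amg Tyi)
open Function

theorem relP_tp {V : Type} {σ ρ : Sig} {𝔸 : Str σ V} {𝔹 : Str ρ V} {M : ℕ} (ht : Tyi 𝔸 𝔹)
    (s : Option (Fin σ.m)) {x y : Fin (arP σ M s) → V} (hx : relP 𝔸 M s x)
    (h : tp 𝔹 y = tp 𝔹 x) : relP 𝔸 M s y := by
  cases s with
  | none => trivial
  | some l => exact ht l x y hx h

theorem vt_of_tp {V : Type} {ρ : Sig} {𝔹 : Str ρ V} {W : Type} {x y : W → V}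
    (h : tp 𝔹 x = tp 𝔹 y) (a : W) : vt (P0 𝔹) (c0 𝔹) (x a) = vt (P0 𝔹) (c0 𝔹) (y a) := by
  rw [vt_c0, vt_c0]
  refine Subtype.ext (funext fun l => ?_)
  exact congrFun (congrFun (congrArg Prod.snd h) l) (fun _ => a)

theorem pf_TFL (hPRD : Pool.Agent.H57.AR.T_PRD) (hLFTR : Pool.Agent.H57.AR.T_LFTR)
    (hDDL : T_DDL) : T_TFL := by
  classical
  intro V σ ρ _ 𝔸 𝔹 M hs I _ _ τ κ Ψ hG
  obtain ⟨pn, hpn1, hpn2, hpn3⟩ := hPRD I (Dm ρ M)
  refine ⟨Ff pn τ κ Ψ, ?_, fun j d => ⟨Fd pn τ κ Ψ j d, Ff_mk pn τ κ Ψ j d, fun a => rfl,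
    fun a b => Iff.rfl⟩⟩
  refine (Pool.Agent.H68.GC.poly_strOn _ _ _).2 fun s q hqq => ?_
  obtain ⟨m, hm⟩ : ∃ m, m = arP σ M s := ⟨_, rfl⟩
  choose k E t st hE hSup hq hmem using hqq
  -- the members
  have hy : ∀ (i : I) (o : Od (arP σ M s)), ∃ x : Fin (arP σ M s) → V, relP 𝔸 M s x ∧
      (∀ a b, x a = x b ↔ k i a = k i b) ∧ (∀ a, vt (P0 𝔹) (c0 𝔹) (x a) = t i a) ∧
      (LinO (k i) o → (∀ (j : Fin M) (α : Fin (j + 1) → Fin (arP σ M s)),
        pull 𝔹 (fun a => x (α a)) = st i j α (rsO α o)) ∧ ∀ a b, x a < x b ↔ o a b) := by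
    intro i o
    by_cases ho : LinO (k i) o
    · obtain ⟨rk, hrk, rfl⟩ := ho
      obtain ⟨x, h1, h2, h3, h4⟩ := hmem i rk hrk
      obtain ⟨x', h5, h6⟩ := hs.ord _ x rk
        (fun a b => (hrk a b).trans (h2 a b).symm)
      refine ⟨x', relP_tp hs.prs.tyi s h1 h5, fun a b => ?_, fun a => ?_, fun _ => ⟨fun j α => ?_,
        fun a b => h6 a b⟩⟩
      · rw [← h2 a b]
        exact iff_of_eq (congrFun (congrFun (congrArg Prod.fst h5) a) b)
      · rw [← h3 a]
        exact vt_of_tp h5 a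
      · have h7 : pull 𝔹 x' = pull 𝔹 x := congrArg Prod.snd h5
        have h8 : pull 𝔹 (fun a => x' (α a)) = pull (pull 𝔹 x') α := rfl
        rw [h8, h7]
        exact h4 j α
    · obtain ⟨x, h1, h2, h3, h4⟩ := hmem i (k i) (fun a b => Iff.rfl)
      exact ⟨x, h1, h2, h3, fun h => absurd h ho⟩
  choose y hy1 hy2 hy3 hy4 using hy
  have hψ := fun J : I → Od (arP σ M s) => hG (Fin (arP σ M s)) (fun i => y i (J i))
  choose ψ hψ1 hψ2 hψ3 hψ4 using hψ
  let J₀ : I → Od (arP σ M s) := fun i => ord (k i)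
  have := hs.prs.cnt
  obtain ⟨code, hcode⟩ := exists_injective_nat V
  let k' : Fin (arP σ M s) → ℕ := fun a => code (ψ J₀ a)
  have hκ : ∀ J a b, ψ J a = ψ J b ↔ κ (fun i => t i a) (fun i => t i b) {i | k i a = k i b} := by
    intro J a b
    rw [hψ3 J a b]
    have h1 : ∀ a, (fun i => vt (P0 𝔹) (c0 𝔹) (y i (J i) a)) = fun i => t i a := fun a =>
      funext fun i => hy3 i (J i) a
    have h2 : {i | y i (J i) a = y i (J i) b} = {i | k i a = k i b} :=
      Set.ext fun i => hy2 i (J i) a b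
    rw [h1, h1, h2]
  have hk' : ∀ J a b, ψ J a = ψ J b ↔ k' a = k' b := by
    intro J a b
    rw [hκ J a b, ← hκ J₀ a b]
    exact ⟨fun h => congrArg code h, fun h => hcode h⟩
  have hty : ∀ J a, vt (P0 𝔹) (c0 𝔹) (ψ J a) = τ (fun i => t i a) := by
    intro J a
    rw [hψ2 J a]
    exact congrArg τ (funext fun i => hy3 i (J i) a)
  -- the canonical values
  have hkey : ∀ J : I → Od (arP σ M s), (∀ i, LinO (k i) (J i)) → ∀ (j : Fin M)
      (α : Fin (j + 1) → Fin (arP σ M s)),
      Ψ (j + 1) (fun i => (st i j α (rsO α (J i)), rsO α (J i))) =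
        tpo 𝔹 (fun a => ψ J (α a)) := by
    intro J hJ j α
    rw [hψ4 J (j + 1) α]
    congr 1
    funext i
    obtain ⟨h1, h2⟩ := hy4 i (J i) (hJ i)
    refine Prod.ext (h1 j α).symm ?_
    funext a b
    exact propext (h2 (α a) (α b)).symm
  -- the sign
  let E' : Sgn (Dm ρ M) (arP σ M s) := fun φ => pn _ E (fun J => φ (fun a b => ψ J a < ψ J b))
  refine ⟨k', E', fun a => τ (fun i => t i a), fun j α o =>
    lft (pn (j + 1) (fun i => rsS α (E i))) (j + 1) o
      (fun J => (Ψ (j + 1) (fun i => (st i j α (J i), J i))).1), ?_, ?_, ?_, ?_⟩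
  · -- the sign is a polymorphism
    intro l x hx
    exact hpn3 _ _ _ E hE l (fun J => x (fun a b => ψ J a < ψ J b)) (fun J => hx _)
  · -- support
    intro φ φ' h
    show pn _ E (fun J => φ (fun a b => ψ J a < ψ J b)) =
      pn _ E (fun J => φ' (fun a b => ψ J a < ψ J b))
    congr 1
    funext J
    apply h
    have hfin : (Set.range (ψ J)).Finite := Set.finite_range _
    obtain ⟨r, hr⟩ : ∃ r : V → ℕ, ∀ a b, r (ψ J a) < r (ψ J b) ↔ ψ J a < ψ J b := by
      refine ⟨fun v => (hfin.toFinset.filter (fun w => w < v)).card, fun a b => ?_⟩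
      constructor
      · intro h1
        by_contra h2
        refine absurd h1 (not_lt.2 (Finset.card_le_card ?_))
        intro w hw
        rw [Finset.mem_filter] at hw ⊢
        exact ⟨hw.1, lt_of_lt_of_le hw.2 (not_lt.1 h2)⟩
      · intro h1
        apply Finset.card_lt_card
        rw [Finset.ssubset_iff_of_subset]
        · refine ⟨ψ J a, ?_, ?_⟩
          · rw [Finset.mem_filter, Set.Finite.mem_toFinset]
            exact ⟨⟨a, rfl⟩, h1⟩
          · rw [Finset.mem_filter]
            exact fun h2 => lt_irrefl _ h2.2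
        · intro w hw
          rw [Finset.mem_filter] at hw ⊢
          exact ⟨hw.1, hw.2.trans h1⟩
    refine ⟨fun a => r (ψ J a), fun a b => ?_, ?_⟩
    · rw [← hk' J a b]
      constructor
      · intro h1
        by_contra h2
        rcases lt_or_gt_of_ne h2 with h3 | h3
        · exact ((hr a b).2 h3).ne h1
        · exact ((hr b a).2 h3).ne' h1
      · intro h1
        show r (ψ J a) = r (ψ J b)
        rw [h1]
    · funext a b
      exact propext (hr a b).symm
  · -- the positions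
    intro j α
    show Ff pn τ κ Ψ (fun i => q i ⟨j, α⟩) = _
    have h1 : (fun i => q i ⟨j, α⟩) = fun i => (⟨j, ⟨fun a => t i (α a),
        fun a b => k i (α a) = k i (α b), st i j α, rsS α (E i)⟩⟩ : El (SS 𝔹) ρ M) :=
      funext fun i => hq i j α
    rw [h1, Ff_mk]
    congr 1
    unfold Fd
    congr 1
    · funext a b
      apply propext
      show κ (fun i => t i (α a)) (fun i => t i (α b)) {i | k i (α a) = k i (α b)} ↔ _
      rw [← hκ J₀, hk']
    · funext φ
      show pn (j + 1) (fun i => rsS α (E i))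
        (fun J => φ (Ψ (j + 1) (fun i => (st i j α (J i), J i))).2) =
        pn _ E (fun J => φ (rsO α (fun a b => ψ J a < ψ J b)))
      rw [hpn1 _ _ α E (fun J => φ (Ψ (j + 1) (fun i => (st i j α (J i), J i))).2)]
      refine hpn2 _ k E hSup _ _ fun J hJ => ?_
      show φ (Ψ (j + 1) (fun i => (st i j α (rsO α (J i)), rsO α (J i)))).2 = _
      rw [hkey J hJ j α]
      rfl
  · -- the members
    intro rk hrk
    let W : Type := Set.range k'
    have : Finite W := Set.finite_range k'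
    let cls : Fin (arP σ M s) → W := fun a => ⟨k' a, a, rfl⟩
    have hrep : ∀ w : W, ∃ a, k' a = w.1 := fun w => w.2
    choose rep hrep using hrep
    have hrc : ∀ a, k' (rep (cls a)) = k' a := fun a => hrep (cls a)
    have hrkrep : ∀ a, rk (rep (cls a)) = rk a := fun a => (hrk _ _).2 (hrc a)
    have hψrep : ∀ J a, ψ J (rep (cls a)) = ψ J a := fun J a => (hk' J _ _).2 (hrc a)
    have hrkW : Injective (fun w : W => rk (rep w)) := by
      intro w w' h
      have h1 := (hrk _ _).1 h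
      rw [hrep, hrep] at h1
      exact Subtype.ext h1
    obtain ⟨ψ', h1, h2, h3, h4⟩ := hDDL V σ ρ 𝔸 𝔹 M hs (I → Od (arP σ M s))
      (pn _ E) (hpn3 _ _ _ E hE) W (fun w => rk (rep w)) hrkW (fun J w => ψ J (rep w))
      (by
        intro J w w' h
        have h1 := (hk' J _ _).1 h
        rw [hrep, hrep] at h1
        exact Subtype.ext h1)
      (by
        intro J J' w
        have h1 : vt (P0 𝔹) (c0 𝔹) (ψ J (rep w)) = vt (P0 𝔹) (c0 𝔹) (ψ J' (rep w)) := by
          rw [hty, hty]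
        rw [vt_c0, vt_c0] at h1
        exact congrArg Subtype.val h1)
    have h5 := hLFTR ρ V 𝔹 M (I → Od (arP σ M s)) W (pn _ E) (fun w => rk (rep w)) hrkW
      (fun J w => ψ J (rep w)) ψ' h4
    refine ⟨fun a => ψ' (cls a), ?_, fun a b => ?_, fun a => ?_, fun j α => ?_⟩
    · cases s with
      | none => trivial
      | some l =>
        refine h2 l cls fun J => ?_
        have h6 : (fun a => ψ J (rep (cls a))) = ψ J := funext fun a => hψrep J a
        have h7 : 𝔸 l (ψ J) := hψ1 J l id fun i => hy1 i (J i)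
        exact Eq.mpr (congrArg (fun x => 𝔸 l x) h6) h7
    · constructor
      · intro h6
        exact congrArg Subtype.val (h1 h6)
      · intro h6
        have h7 : cls a = cls b := Subtype.ext h6
        show ψ' (cls a) = ψ' (cls b)
        rw [h7]
    · have h6 : vt (P0 𝔹) (c0 𝔹) (ψ' (cls a)) = vt (P0 𝔹) (c0 𝔹) (ψ J₀ (rep (cls a))) := by
        rw [vt_c0, vt_c0]
        exact Subtype.ext (h3 J₀ (cls a))
      show vt (P0 𝔹) (c0 𝔹) (ψ' (cls a)) = _
      rw [h6, hψrep J₀ a, hty]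
    · have h6 := h5 (j + 1) (fun a => cls (α a)) (by omega) (by have := j.2; omega)
      show pull 𝔹 (fun a => ψ' (cls (α a))) = _
      rw [h6]
      have h7 : (fun a b => rk (rep (cls (α a))) < rk (rep (cls (α b)))) =
          ord (fun a => rk (α a)) := by
        funext a b
        rw [hrkrep, hrkrep]
        rfl
      have h8 : (fun J => pull 𝔹 (fun a => ψ J (rep (cls (α a))))) =
          fun J => pull 𝔹 (fun a => ψ J (α a)) := by
        funext J
        simp only [hψrep]
      rw [h7, h8]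
      refine lft_congr _ fun n e => ?_
      rw [hpn1 _ _ α E (fun J => ⟨n, pull (Ψ (j + 1) (fun i => (st i j α (J i), J i))).1 e⟩)]
      refine hpn2 _ k E hSup _ _ fun J hJ => ?_
      show (⟨n, pull (pull 𝔹 (fun a => ψ J (α a))) e⟩ : Dm ρ M) =
        ⟨n, pull (Ψ (j + 1) (fun i => (st i j α (rsO α (J i)), rsO α (J i)))).1 e⟩
      rw [hkey J hJ j α]
      rfl

end Pool.Agent.H57.LH
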