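import Pool.Agent.H57.LH.LG
import Pool.Agent.H57.LH.Small
import Pool.Agent.H57.LH.Small2
import Pool.Agent.H57.LH.ExRows
import Pool.Agent.H57.LH.OPE
import Pool.Agent.H57.LH.DDL
import Pool.Agent.H57.LH.TFL
import Pool.Agent.H57.LH.CPL
import Pool.Agent.H57.LH.CMF
import Pool.Agent.H44.KR.All
import Pool.Agent.H96.LH.RMV
import Pool.Agent.H1.LH.PRV
import Pool.Agent.H11.LH.CNA
import Pool.Agent.H64.LH.LBL
import Pool.Agent.H49.LH.OPV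
import Pool.Agent.H26.LH.OP6
import Pool.Agent.H39.LH.OPC
import Pool.Agent.H80.LH.SRL
import Pool.Agent.H60.LH.ORL
import Pool.Agent.H34.LH.LCN
import Pool.Agent.H26.LH.LNC
import Pool.Agent.H96.LH.HHG
import Pool.Agent.H35.LH.NAA
import Pool.Agent.H86.LH.NAB
import Pool.Agent.H80.LH.EXL
import Pool.Agent.H31.LH.CPK
import Pool.Agent.H73.LH.CPE
import Pool.Agent.H44.LH.MNC
import Pool.Agent.H13.LH.KHE
import Pool.Agent.H60.LH.CNB
import Pool.Agent.H60.LH.BHP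
import Pool.Agent.H60.LH.MNP
import Pool.Agent.H33.LH.CYG
import Pool.Agent.H39.LH.ZIG
import Pool.Agent.H10.LH.REL
import Pool.Agent.H86.LH.EXA
import Pool.Agent.H44.FB.All
import Pool.Agent.H24.AR.PRD
import Pool.Agent.H55.AR.LFTR

/-!
# All first-order reducts of structures with local completions: the theorem
-/

set_option autoImplicit false
set_option linter.unusedVariables false

namespace Pool.Agent.H57.LH

open Pool.Agent.H68.BP Pool.Agent.H58.SF Pool.Agent.H53.GC Pool.Agent.H53.NR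
open Pool.Agent.H57.LCI (LocalCompletions)
open Pool.Agent.H44.KR (P1 P2 a_P1 a_P2)

theorem a_BHP : T_BHP := Pool.Agent.H60.LH.pf_BHP Pool.Agent.H39.LH.pf_ZIG

theorem a_LR : LR where
  rmv := Pool.Agent.H96.LH.pf_RMV
  prv := Pool.Agent.H1.LH.pf_PRV
  cna := Pool.Agent.H11.LH.pf_CNA
  cnb := Pool.Agent.H60.LH.pf_CNB

theorem a_LK : LK where
  cyg := Pool.Agent.H33.LH.pf_CYG
  krl := pf_KRL a_BHP
  cbl := pf_CBL
  lbl := Pool.Agent.H64.LH.pf_LBL (pf_KRL a_BHP) a_BHP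
  cml := cml_of pf_CMA pf_CMF

theorem a_LS : LS where
  col := pf_COL
  opv := Pool.Agent.H49.LH.pf_OPV
  op6 := Pool.Agent.H26.LH.pf_OP6
  op0 := pf_OP0
  ope := pf_OPE
  opc := Pool.Agent.H39.LH.pf_OPC
  srl := Pool.Agent.H80.LH.pf_SRL

theorem a_LT : LT where
  bdl := pf_BDL
  orl := Pool.Agent.H60.LH.pf_ORL
  tfl := pf_TFL Pool.Agent.H24.AR.pf_PRD Pool.Agent.H55.AR.pf_LFTR pf_DDL
  cpl := pf_CPL Pool.Agent.H55.AR.pf_LFTR pf_DDL
  rel := Pool.Agent.H10.LH.pf_REL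

theorem a_EXP : T_EXP :=
  exp_of Pool.Agent.H34.LH.pf_LCN Pool.Agent.H26.LH.pf_LNC Pool.Agent.H86.LH.pf_EXA
    Pool.Agent.H80.LH.pf_EXL pf_EXT

theorem a_LA : LA where
  lcn := Pool.Agent.H34.LH.pf_LCN
  lnc := Pool.Agent.H26.LH.pf_LNC
  hmg := pf_HMG
  hhg := Pool.Agent.H96.LH.pf_HHG
  naa := Pool.Agent.H35.LH.pf_NAA
  nab := Pool.Agent.H86.LH.pf_NAB
  exa := Pool.Agent.H86.LH.pf_EXA
  exl := Pool.Agent.H80.LH.pf_EXL
  ext := pf_EXT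
  mnx := pf_MNX
  mnp := Pool.Agent.H60.LH.pf_MNP pf_AMC pf_EXS a_EXP
  cpk := Pool.Agent.H31.LH.pf_CPK
  cpe := Pool.Agent.H73.LH.pf_CPE
  mnc := Pool.Agent.H44.LH.pf_MNC pf_AMC pf_EXS (pf_EXN pf_EXS) (pf_EXO pf_EXS) a_EXP
  khe := Pool.Agent.H13.LH.pf_KHE

/-- The Bodirsky–Pinsker conjecture for all first-order reducts, with parameters, of homogeneous
structures with local completions. -/
theorem lh_final (τ σ : Sig) (B : Type) [Countable B] [Nonempty B] (𝔹 : Str τ B)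
    (𝔸 : Str σ B) (hH : Homogeneous 𝔹) (hL : LocalCompletions 𝔹)
    (C : Set B) (hC : C.Finite)
    (hS : ∀ g : B ≃ B, IsAut 𝔹 g → (∀ x ∈ C, g x = x) → IsAut 𝔸 g) :
    FinitelyBounded 𝔹 ∧ (PPConstructsK3 𝔸 ∨ ∃ (σ' : Sig) (Y : Type) (_ : Finite Y)
      (𝕋 : Str σ' Y), ¬ PPConstructsK3 𝕋 ∧ N793a5b8e.ManyOneReducible (CSP 𝔸) (CSP 𝕋)) :=
  lh_all a_P1 a_P2 a_LR a_LK a_LS a_LT Pool.Agent.H44.FB.pf_FIB a_LA pf_ZER τ σ B 𝔹 𝔸 hH hL C hC hS

end Pool.Agent.H57.LH
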