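import Pool.Agent.H57.LH.Targets
import Pool.Agent.H44.KR.Asm
import Pool.Agent.H57.AR.Asm
import Pool.Agent.H50.AR.RED
import Pool.Agent.H50.PT.PAR
import Pool.Agent.H18.SF.OR

/-!
# All first-order reducts of structures with local completions: assembly
-/

set_option autoImplicit false
set_option linter.unusedVariables false

namespace Pool.Agent.H57.LH

open Pool.Agent.H68.BP Pool.Agent.H58.SF Pool.Agent.H53.GC Pool.Agent.H53.NR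
open Pool.Agent.H53.GR (Dm Ps)
open Pool.Agent.H57.AR (tp ty tpo pullO Ty OT HomEq El ElD FamR Od GmR INJ T_BHIR T_CYBR)
open Pool.Agent.H57.SO (Pal Col vt Bh Sbn fib sigF)
open Pool.Agent.H57.EQ (Cx T_CYF T_CYC T_NKC T_OLG)
open Pool.Agent.H57.LCI (LocalCompletions)
open Pool.Agent.H44.KR (HB Amg Tyi Rlz Clp LInj Prm TpOn RmL LcN Pl lr blk Fv kv RkI Kd JJ Yc IsTh
  Can Plf Pls P1 P2)
open Function

structure LR : Prop where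
  rmv : T_RMV
  prv : T_PRV
  cna : T_CNA
  cnb : T_CNB

structure LK : Prop where
  cyg : T_CYG
  krl : T_KRL
  cbl : T_CBL
  lbl : T_LBL
  cml : T_CML

structure LS : Prop where
  col : T_COL
  opv : T_OPV
  op6 : T_OP6
  op0 : T_OP0
  ope : T_OPE
  opc : T_OPC
  srl : T_SRL

structure LT : Prop where
  bdl : T_BDL
  orl : T_ORL
  tfl : T_TFL
  cpl : T_CPL
  rel : T_REL

structure LA : Prop where
  lcn : T_LCN
  lnc : T_LNC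
  hmg : T_HMG
  hhg : T_HHG
  naa : T_NAA
  nab : T_NAB
  exa : T_EXA
  exl : T_EXL
  ext : T_EXT
  mnx : T_MNX
  mnp : T_MNP
  cpk : T_CPK
  cpe : T_CPE
  mnc : T_MNC
  khe : T_KHE

structure LG : Prop where
  cyf : T_CYF
  cor : T_COR
  omg : T_OMG
  cyc : T_CYC
  nkc : T_NKC
  bhir : T_BHIR
  cybr : T_CYBR
  olg : T_OLG

section core

variable {V : Type} {σ ρ : Sig} {𝔸 : Str σ V} {𝔹 : Str ρ V}

/-- the Ramsey property -/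
theorem rmv_of (h1 : P1) (hR : LR) (hB : HB 𝔹) : RmV 𝔹 := by
  obtain ⟨N, hN⟩ := h1.lcs V ρ 𝔹 hB
  exact hR.rmv V ρ 𝔹 (N + 1) hB
    (h1.rmo V ρ 𝔹 hB N (N + 1) (fun Q pl => h1.axs hB hN (N + 1) Q pl))

theorem cnz_of [LinearOrder V] (h1 : P1) (hR : LR) (hB : HB 𝔹) (ht : Tyi 𝔸 𝔹) : Cnz 𝔸 𝔹 := by
  intro I _ R hL
  exact hR.cnb V σ ρ 𝔸 𝔹 hB.ar I R (fun K F => hR.cna V σ ρ 𝔸 𝔹 hB.ne ht
    (hR.prv V ρ 𝔹 (rmv_of h1 hR hB)) I R hL K F)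

/-- the actions of the shapes -/
theorem ops_of (hS : LS) (hB : HB 𝔹) {L : ℕ} {Φ : Kd ρ L JJ → Yc ρ} (hC : Can 𝔸 𝔹 L Φ)
    (hplf : ∀ r j, j ≤ 2 * L + 2 → Plf L r j) (hpls : ∀ r j, j < 2 * L + 2 → Pls L r j)
    {θ : (Fin ρ.m → Prop) → (Fin ρ.m → Prop)} (hθ : ∀ r j, j ≤ 2 * L + 2 → IsTh 𝔹 Φ r j θ) :
    ∃ v v6 θ', Ops 𝔸 𝔹 (2 * L + 2) v v6 θ' := by
  classical
  have hv : ∀ (r : Fin 3) (j : ℕ), ∃ v, j ≤ 2 * L + 2 → IsV 𝔹 Φ r j v := by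
    intro r j
    by_cases hj : j ≤ 2 * L + 2
    · obtain ⟨v, hv⟩ := hS.opv V σ ρ 𝔸 𝔹 L Φ hB hC r j (hplf r j hj)
      exact ⟨v, fun _ => hv⟩
    · exact ⟨fun t => t 0, fun h => absurd h hj⟩
  choose v hv using hv
  obtain ⟨v6, h6, h6'⟩ := hS.op6 V σ ρ 𝔸 𝔹 L Φ hB hC
  have hcon : ∀ r j, j ≤ 2 * L + 2 → ∀ s : SS 𝔹, (v r j (fun _ => s)).1 = θ s.1 := by
    intro r j hj s
    obtain ⟨x, hx⟩ := s.2
    obtain ⟨rk, hrk⟩ : ∃ rk : Pl L × V → ℕ, RkI rk (blk L r j (fun _ => x)) := by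
      have h13 : (Set.range (blk L r j (fun _ => x))).Finite := Set.finite_range _
      obtain ⟨f, hf⟩ := Set.countable_iff_exists_injOn.1 h13.countable
      exact ⟨f, fun i j hij => hf ⟨i, rfl⟩ ⟨j, rfl⟩ hij⟩
    have h2 := hv r j hj (fun _ => x) rk hrk
    have h3 := hθ r j hj s.1 (fun _ => x) rk ⟨fun c c' _ => rfl, fun _ => hx⟩ hrk
    have h4 : vs 𝔹 x = s := Subtype.ext hx
    rw [h4] at h2
    exact h2.symm.trans h3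
  refine ⟨v, v6, fun s => v 0 0 (fun _ => s), h6', fun r t => ?_, fun r => ?_, ?_, ?_⟩
  · exact hS.op0 V σ ρ 𝔸 𝔹 L Φ hB r (v r 0) v6 (hv r 0 (by omega)) h6 t
  · exact hS.ope V σ ρ 𝔸 𝔹 L Φ hB hC r _ _ (hv r _ le_rfl) (hv 0 _ le_rfl)
  · intro r j hj κ hκ H
    exact hS.opc V σ ρ 𝔸 𝔹 L Φ hB hC r j (hplf r j hj.le) (hplf r (j + 1) hj) (hpls r j hj)
      (v r j) (v r (j + 1)) (hv r j hj.le) (hv r (j + 1) hj) κ hκ H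
  · intro r j hj s
    exact Subtype.ext ((hcon r j hj s).trans (hcon 0 0 (by omega) s).symm)

/-- The theorem for core presentations. -/
theorem core (h1 : P1) (h2 : P2) (hR : LR) (hKK : LK) (hS : LS) (hT : LT) (hF : T_FIB)
    (hG : LG) (hC : Cor 𝔸 𝔹) (hO : Oligo 𝔸) (hK : ¬ PPConstructsK3 𝔸) :
    ∃ (σ' : Sig) (Y : Type) (_ : Finite Y) (𝕋 : Str σ' Y),
      ¬ PPConstructsK3 𝕋 ∧ N793a5b8e.ManyOneReducible (CSP 𝔸) (CSP 𝕋) := by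
  have hB := hC.prs.hb
  have hct := hC.prs.cnt
  have ht := hC.prs.tyi
  obtain ⟨N, hN⟩ := h1.lcs V ρ 𝔹 hB
  obtain ⟨lo, hord⟩ := hT.orl V ρ 𝔹 hB hct
  obtain ⟨m, hm, hcyg⟩ := hKK.cyg V ρ 𝔹 N hB hN
  have hcnz : Cnz 𝔸 𝔹 := cnz_of h1 hR hB ht
  obtain ⟨M₁, hM₁⟩ := hF V σ ρ 𝔸 𝔹 hC hO hK
  obtain ⟨M₂, hM₂⟩ := hT.bdl V ρ 𝔹 N hB hN
  let M := max (max M₁ M₂) (max 3 (ρ.width + 1))
  have hw : ∀ l, ρ.ar l < M := fun l =>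
    lt_of_lt_of_le (Nat.lt_succ_of_le (Finset.le_sup (f := ρ.ar) (Finset.mem_univ l)))
      (le_trans (le_max_right _ _) (le_max_right _ _))
  have hbase : BaseL 𝔸 𝔹 M :=
    ⟨hC.prs, le_trans (le_max_left _ _) (le_max_right _ _), fun l => ⟨hB.ar l, hw l⟩,
      hM₂ M (le_trans (le_max_right _ _) (le_max_left _ _)), hord⟩
  have hols := hM₁ M (le_trans (le_max_left _ _) (le_max_left _ _))
  -- the kernel part
  obtain ⟨L, Φ, hL, hCan⟩ := h1.main hB hct ht hO hK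
  have hinj : ∀ s ∈ Rlz 𝔹, ¬ Clp 𝔸 𝔹 s → LInj 𝔸 𝔹 s := fun s hs hn =>
    h2.main h1.lcs hB hL hCan hC.prm s hs hn
  have hb2 : ∀ s : SS 𝔹, ¬ Blind 𝔸 𝔹 s.1 → B2L 𝔸 𝔹 s := by
    intro s hs
    have hn : ¬ Clp 𝔸 𝔹 s.1 := fun hc => hs (hC.ncb s.1 s.2 hc)
    exact hKK.lbl V σ ρ 𝔸 𝔹 m hB hord ht hm hcyg hcnz hC.prm s (hinj s.1 s.2 hn) hn
  have hINJ : INJ (P0 𝔹) 𝔸 (c0 𝔹) := hKK.cml V σ ρ 𝔸 𝔹 hC hb2
  -- the types
  have hplf : ∀ r j, j ≤ 2 * L + 2 → Plf L r j := fun r j hj => h2.plf L r j hL hj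
  have hpls : ∀ r j, j < 2 * L + 2 → Pls L r j := fun r j hj => h2.pls L r j hL hj
  have hbeh := h2.beh V σ ρ 𝔸 𝔹 L Φ hplf hCan
  obtain ⟨θ, hθs, hθ⟩ := h2.tha V σ ρ 𝔸 𝔹 L Φ
    (fun r j hj => h2.th0 V ρ 𝔹 L Φ r j (hplf r j hj))
    (fun r j hj θ hθ => h2.thb V σ ρ 𝔸 𝔹 L Φ hbeh r j hj θ hθ)
    (fun r j hj θ θ' hθ hθ' hS => h2.ths V σ ρ 𝔸 𝔹 L Φ hCan hC.prm r j (hplf r j hj.le)
      (hplf r (j + 1) hj) (hpls r j hj) θ θ' hθ hθ' hS)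
  obtain ⟨v, v6, θ', hops⟩ := ops_of hS hB hCan hplf hpls hθ
  obtain ⟨N₂, hN₂⟩ := hS.srl V σ ρ 𝔸 𝔹 _ v v6 θ' hB hC.prm (hS.col V ρ 𝔹 hB) hops hG.cyf
    hG.cor hG.omg
  -- the prime
  obtain ⟨p, hp1, hp2⟩ := Nat.exists_infinite_primes (Nat.card (Dm ρ M) + N₂ + 3)
  obtain ⟨f, hf, hfc⟩ := hG.cyc _ _ _ hols p hp2 (by omega)
  obtain ⟨τ, hτ, hτc⟩ := hN₂ p hp2 (by omega)
  have : NeZero p := ⟨hp2.ne_zero⟩
  obtain ⟨κ, hκ⟩ := hKK.krl V σ ρ 𝔸 𝔹 m hB hord ht hm hcyg hcnz (ZMod p) τ hτ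
  obtain ⟨κ', hκ', hκc⟩ := hG.cybr σ V _ _ (P0 𝔹) 𝔸 (c0 𝔹)
    (hG.bhir σ V _ _ (P0 𝔹) 𝔸 (c0 𝔹) hINJ) p hp2 τ κ hκ hτc
  obtain ⟨Ψ, hΨ⟩ := hKK.cbl V σ ρ 𝔸 𝔹 hB hcnz (ZMod p) τ κ' hκ'
  obtain ⟨F, hFF⟩ := hT.tfl V σ ρ 𝔸 𝔹 M hbase (ZMod p) τ κ' Ψ hΨ
  obtain ⟨u, hu1, hu2⟩ := hT.cpl V σ ρ 𝔸 𝔹 M hbase p f hp2 hf hfc τ κ' F hFF hτc hκc
  obtain ⟨v₀⟩ := hB.ne
  have hne : Nonempty (El (SS 𝔹) ρ M) := ⟨⟨⟨0, by have := hbase.three; omega⟩,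
    ⟨fun _ => vs 𝔹 v₀, fun _ _ => True, fun _ _ _ => True, fun φ => φ fun _ _ => True⟩⟩⟩
  exact ⟨_, El (SS 𝔹) ρ M, inferInstance, tpL 𝔸 𝔹 M, hG.nkc _ _ _ p u hp2 hu1 hu2,
    Pool.Agent.H50.AR.RED.red_gen _ (hT.rel V σ ρ 𝔸 𝔹 M hbase)⟩

end core

section presentations

variable {V : Type} {σ ρ : Sig} {𝔸 : Str σ V} {𝔹 : Str ρ V}

/-- the expansion is a presentation -/
theorem exp_of (hlcn : T_LCN) (hlnc : T_LNC) (hexa : T_EXA) (hexl : T_EXL) (hext : T_EXT) :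
    T_EXP := by
  intro V σ ρ 𝔸 𝔹 c cs T b e har hcV hne hcs hH hA hL hT hTy hE
  obtain ⟨N, hN⟩ := hlcn V ρ 𝔹 hne hL
  obtain ⟨N', hN'⟩ := hexl V ρ 𝔹 c cs T b N har hcs hH hT hE hN
  refine ⟨⟨hE, ?_, hexa V ρ 𝔹 c cs T b har hA hT, hlnc _ _ _ N' hE hN'⟩, inferInstance, ?_⟩
  · intro l
    have h3 : ∀ t : ExI ρ c b, 1 ≤ Nat.card (ExA ρ c b t) := by
      rintro (p | j)
      · show 1 ≤ Nat.card (Fin (ρ.ar p.1))
        rw [Nat.card_fin]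
        exact har _
      · show 1 ≤ Nat.card Unit
        simp
    exact h3 _
  · intro l x y hx hxy
    exact hTy l _ _ hx (hext V _ ρ 𝔹 c cs T b e har hT y x hxy)

/-- homogeneity from homogeneity without algebraicity -/
theorem hmg_of_amg (h : Amg 𝔹) : Hmg 𝔹 := by
  intro W _ A x y hxy
  obtain ⟨x', h1, h2, -⟩ := h W A x y ∅ hxy
  exact ⟨x', h1, h2⟩

/-- automorphisms preserve the relations which depend on the types -/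
theorem aut_of_tyi (ht : Tyi 𝔸 𝔹) (g : V ≃ V) (hg : IsAut 𝔹 g) : IsAut 𝔸 g := by
  intro l x
  have h1 : tp 𝔹 (fun i => g (x i)) = tp 𝔹 x := by
    refine Prod.ext (funext fun a => funext fun b => propext ?_)
      (funext fun l => funext fun z => propext ?_)
    · exact g.injective.eq_iff
    · exact (hg l fun i => x (z i)).symm
  exact ⟨fun h => ht l _ _ h h1, fun h => ht l _ _ h h1.symm⟩

/-- presentations are oligomorphic -/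
theorem oligo_of (hhg : T_HHG) (hO : Pool.Agent.H57.EQ.T_OLG) (h : Prs 𝔸 𝔹) : Oligo 𝔸 :=
  hO ρ σ V 𝔹 𝔸 h.cnt (hhg V ρ 𝔹 h.cnt (hmg_of_amg h.hb.amg)) (aut_of_tyi h.tyi)

/-- from presentations to core presentations -/
theorem prs_main (h1 : P1) (h2 : P2) (hR : LR) (hKK : LK) (hS : LS) (hT : LT) (hF : T_FIB)
    (hG : LG) (hA : LA) (hP : Prs 𝔸 𝔹) :
    PPConstructsK3 𝔸 ∨ ∃ (σ' : Sig) (Y : Type) (_ : Finite Y) (𝕋 : Str σ' Y),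
      ¬ PPConstructsK3 𝕋 ∧ N793a5b8e.ManyOneReducible (CSP 𝔸) (CSP 𝕋) := by
  by_cases hK : PPConstructsK3 𝔸
  · exact Or.inl hK
  refine Or.inr ?_
  obtain ⟨V', ρ', 𝔸', 𝔹', hM⟩ := hA.mnx V V σ ρ 𝔸 𝔸 𝔹 hP (fun _ _ => Iff.rfl)
  have hprm : Prm 𝔸' 𝔹' := hA.mnp V V' σ ρ' 𝔸 𝔸' 𝔹' hM
  have hr : RmV 𝔹' := rmv_of h1 hR hM.prs.hb
  have hncb : NCB 𝔸' 𝔹' := hA.mnc V V' σ ρ' 𝔸 𝔸' 𝔹' hM fun s hs hc =>
    hA.cpe V' σ ρ' 𝔸' 𝔹' hM.prs.hb hM.prs.tyi hr s hs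
      (hA.cpk V' σ ρ' 𝔸' 𝔹' hM.prs.hb hM.prs.tyi hr hprm s hs hc)
  have hO : Oligo 𝔸 := oligo_of hA.hhg hG.olg hP
  have hO' : Oligo 𝔸' := oligo_of hA.hhg hG.olg hM.prs
  have hK' : ¬ PPConstructsK3 𝔸' := fun h => hK
    (hA.khe V V' σ 𝔸 𝔸' hP.cnt hM.prs.cnt hP.hb.ne hM.prs.hb.ne hO hO' hM.heq h)
  obtain ⟨σ', Y, hY, 𝕋, h3, h4⟩ := core h1 h2 hR hKK hS hT hF hG ⟨hM.prs, hprm, hncb⟩ hO' hK'
  refine ⟨σ', Y, hY, 𝕋, h3, ?_⟩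
  rw [Pool.Agent.H50.SO.csp_congr (𝔸' := 𝔸') hM.heq]
  exact h4

/-- the theorem for homogeneous structures with local completions, with constants -/
theorem lh_main (h1 : P1) (h2 : P2) (hR : LR) (hKK : LK) (hS : LS) (hT : LT) (hF : T_FIB)
    (hG : LG) (hA : LA) (τ σ : Sig) (B : Type) [Countable B] [Nonempty B] (𝔹 : Str τ B)
    (𝔸 : Str σ B) (har : ∀ l, 1 ≤ τ.ar l) (hH : Homogeneous 𝔹) (hL : LocalCompletions 𝔹)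
    (C : Set B) (hC : C.Finite)
    (hS' : ∀ g : B ≃ B, IsAut 𝔹 g → (∀ x ∈ C, g x = x) → IsAut 𝔸 g) :
    PPConstructsK3 𝔸 ∨ ∃ (σ' : Sig) (Y : Type) (_ : Finite Y) (𝕋 : Str σ' Y),
      ¬ PPConstructsK3 𝕋 ∧ N793a5b8e.ManyOneReducible (CSP 𝔸) (CSP 𝕋) := by
  classical
  have hHm : Hmg 𝔹 := hA.hmg B τ 𝔹 hH
  obtain ⟨c, cs, hcs, hF', hAC⟩ := hA.nab B τ 𝔹 har hHm (hA.naa B τ 𝔹 hHm hL) hC.toFinset
  have hCc : ∀ x ∈ C, ∃ j, cs j = x := fun x hx => hF' x (hC.mem_toFinset.2 hx)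
  let T : Set B := {x | ∀ j, cs j ≠ x}
  have hT' : InvT 𝔹 cs T := by
    refine ⟨fun j hj => hj j rfl, fun x y hxy hx j hj => hx j ?_⟩
    have h3 := congrFun (congrFun (congrArg Prod.fst hxy) (Sum.inr j)) (Sum.inl ())
    exact (iff_of_eq h3).2 hj
  have hTy : TyC 𝔸 𝔹 cs := by
    intro l x y hx hxy
    obtain ⟨n, ⟨e⟩⟩ := Finite.exists_equiv_fin (Fin (σ.ar l) ⊕ Fin c)
    have h3 : Pool.Agent.H18.SF.ty 𝔹 (fun i => Sum.elim y cs (e.symm i)) =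
        Pool.Agent.H18.SF.ty 𝔹 (fun i => Sum.elim x cs (e.symm i)) := by
      refine Prod.ext (funext fun a => funext fun b => ?_)
        (funext fun l => funext fun z => ?_)
      · exact congrFun (congrFun (congrArg Prod.fst hxy) (e.symm a)) (e.symm b)
      · exact congrFun (congrFun (congrArg Prod.snd hxy) l) (fun i => e.symm (z i))
    obtain ⟨g, hg, hg'⟩ := Pool.Agent.H18.SF.exists_aut_of_ty hH _ _ h3
    have hg1 : ∀ i, g (x i) = y i := fun i => by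
      have h4 := hg' (e (Sum.inl i))
      simpa only [Equiv.symm_apply_apply, Sum.elim_inl] using h4
    have hg2 : ∀ j, g (cs j) = cs j := fun j => by
      have h4 := hg' (e (Sum.inr j))
      simpa only [Equiv.symm_apply_apply, Sum.elim_inr] using h4
    have h5 := (hS' g hg (fun x hx => by
      obtain ⟨j, rfl⟩ := hCc x hx
      exact hg2 j) l x).1 hx
    have h6 : (fun i => g (x i)) = y := funext hg1
    rwa [h6] at h5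
  have hsec : ∀ x : B, ∃ x' : ExD T c, dEx cs id T x' = x := by
    intro x
    by_cases h : x ∈ T
    · exact ⟨Sum.inl ⟨x, h⟩, rfl⟩
    · have h' : ∃ j, cs j = x := by
        by_contra hn
        exact h fun j hj => hn ⟨j, hj⟩
      obtain ⟨j, hj⟩ := h'
      exact ⟨Sum.inr (j, 0), hj⟩
  choose s hs using hsec
  have hE : Nonempty (ExD T c) := ⟨s (Classical.arbitrary B)⟩
  have hP := exp_of hA.lcn hA.lnc hA.exa hA.exl hA.ext B σ τ 𝔸 𝔹 c cs T c id har inferInstance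
    inferInstance hcs hHm hAC hL hT' hTy hE
  have h3 : IsHom 𝔸 (pull 𝔸 (dEx cs id T)) s := by
    intro l x hx
    show 𝔸 l (fun i => dEx cs id T (s (x i)))
    simp only [hs]
    exact hx
  have h4 : IsHom (pull 𝔸 (dEx cs id T)) 𝔸 (dEx cs id T) := fun l x hx => hx
  rcases prs_main h1 h2 hR hKK hS hT hF hG hA hP with h | ⟨σ', Y, hY, 𝕋, h5, h6⟩
  · exact Or.inl (Pool.Agent.H50.PT.ppc_of_homs h3 h4 h)
  · refine Or.inr ⟨σ', Y, hY, 𝕋, h5, ?_⟩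
    have h7 : CSP 𝔸 = CSP (pull 𝔸 (dEx cs id T)) := Pool.Agent.H50.SO.csp_congr fun n 𝕏 =>
      ⟨fun ⟨f, hf⟩ => ⟨fun i => s (f i), fun l x hx => h3 l _ (hf l x hx)⟩,
        fun ⟨f, hf⟩ => ⟨fun i => dEx cs id T (f i), fun l x hx => h4 l _ (hf l x hx)⟩⟩
    rw [h7]
    exact h6

end presentations

end Pool.Agent.H57.LH
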