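import Pool.Agent.H57.LH.Targets2
import Pool.Agent.H88.AR.CMBR

/-!
# All first-order reducts of structures with local completions: row CMA
-/

set_option autoImplicit false
set_option linter.unusedVariables false

namespace Pool.Agent.H57.LH

open Pool.Agent.H68.BP Pool.Agent.H58.SF Pool.Agent.H53.GC Pool.Agent.H53.NR
open Pool.Agent.H53.GR (Dm Ps)
open Pool.Agent.H57.AR (tp ty tpo pullO Ty OT HomEq El ElD FamR Od GmR INJ lft)
open Pool.Agent.H57.SO (Pal Col vt Bh Sbn fib sigF)
open Pool.Agent.H57.EQ (Cx T_CYF)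
open Pool.Agent.H57.LCI (LocalCompletions Pre Realizes)
open Pool.Agent.H44.KR (HB Amg Tyi Rz Rlz Clp LInj Prm TpOn RmL LcN Pl lr blk Fv kv RkI Kd JJ Yc
  IsTh Can Plf Pls)
open Pool.Agent.H88.AR (sw sS bh_comp)
open Function

section cma

variable {V : Type} {σ ρ : Sig} {𝔸 : Str σ V} {𝔹 : Str ρ V}

/-- a new element of type `s` -/
theorem CMA_new (hB : HB 𝔹) (s : SS 𝔹) (F : Finset V) : ∃ z, z ∉ F ∧ vs 𝔹 z = s := by
  obtain ⟨x, hx⟩ := s.2
  obtain ⟨x', h1, -, h3⟩ := hB.amg Unit ∅ (fun _ => x) (fun _ => x) F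
    ⟨fun a ha => absurd ha (Set.notMem_empty a), fun l z _ => Iff.rfl⟩
  refine ⟨x' (), fun h => ?_, ?_⟩
  · obtain ⟨a, ha, -⟩ := h3 () h
    exact absurd ha (Set.notMem_empty a)
  · refine Subtype.ext ?_
    have h4 : ty 𝔹 (x' ()) = ty 𝔹 x := by
      funext l
      exact congrFun (congrFun (congrArg Prod.snd h1) l) (fun _ => ())
    exact h4.trans hx

/-- two elements of type `s` -/
theorem CMA_two (hB : HB 𝔹) (s : SS 𝔹) :
    ∃ x y, x ≠ y ∧ vt (P0 𝔹) (c0 𝔹) x = s ∧ vt (P0 𝔹) (c0 𝔹) y = s := by
  classical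
  obtain ⟨x, -, hx⟩ := CMA_new hB s ∅
  obtain ⟨y, hy, hy'⟩ := CMA_new hB s {x}
  exact ⟨x, y, fun h => hy (h ▸ Finset.mem_singleton_self x), (vt_c0 𝔹 x).trans hx,
    (vt_c0 𝔹 y).trans hy'⟩

theorem CMA_sep (hB : HB 𝔹) {τ : (Fin 2 → SS 𝔹) → SS 𝔹}
    {κ : (Fin 2 → SS 𝔹) → (Fin 2 → SS 𝔹) → Set (Fin 2) → Prop} (h : Bh (P0 𝔹) 𝔸 (c0 𝔹) τ κ)
    (s : SS 𝔹) (hk : κ (fun _ => s) (fun _ => s) ∅) : Clp 𝔸 𝔹 s.1 := by
  classical
  intro W _ G
  have : Fintype W := Fintype.ofFinite W
  obtain ⟨z, hz, hz'⟩ := CMA_new hB s (Finset.univ.image G)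
  obtain ⟨ψ, h1, -, h3⟩ := h (Option W) (fun _ w => w.elim z G)
  refine ⟨fun w => ψ (some w), fun l y hy => h1 l (fun a => some (y a)) fun i => hy (), ?_⟩
  have key : ∀ w, ty 𝔹 (G w) = s.1 → ψ (some w) = ψ none := by
    intro w hw
    rw [h3 (some w) none]
    have e1 : (fun _ : Fin 2 => vt (P0 𝔹) (c0 𝔹) ((some w).elim z G)) = fun _ => s :=
      funext fun _ => (vt_c0 𝔹 _).trans (Subtype.ext hw)
    have e2 : (fun _ : Fin 2 => vt (P0 𝔹) (c0 𝔹) ((none : Option W).elim z G)) = fun _ => s :=
      funext fun _ => (vt_c0 𝔹 _).trans hz'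
    have e3 : {i : Fin 2 | (some w).elim z G = (none : Option W).elim z G} = ∅ := by
      refine Set.eq_empty_iff_forall_notMem.2 fun i hi => hz ?_
      have h4 : G w = z := hi
      rw [← h4]
      exact Finset.mem_image_of_mem G (Finset.mem_univ w)
    rw [e1, e2, e3]
    exact hk
  intro w w' hw hw'
  exact (key w hw).trans (key w' hw').symm

theorem CMA_ind (hB : HB 𝔹) (hN : ∀ s : SS 𝔹, ¬ Blind 𝔸 𝔹 s.1 → ¬ Clp 𝔸 𝔹 s.1)
    (h : ∀ s : SS 𝔹, ¬ Blind 𝔸 𝔹 s.1 → B2L 𝔸 𝔹 s)
    (T : Finset (SS 𝔹)) : (∀ s ∈ T, ¬ Blind 𝔸 𝔹 s.1) → ∃ (τ : (Fin 2 → SS 𝔹) → SS 𝔹)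
      (κ : (Fin 2 → SS 𝔹) → (Fin 2 → SS 𝔹) → Set (Fin 2) → Prop),
      Bh (P0 𝔹) 𝔸 (c0 𝔹) τ κ ∧ (∀ s, τ (fun _ => s) = s) ∧
      ∀ s ∈ T, ∀ A, κ (fun _ => s) (fun _ => s) A → A = Set.univ := by
  classical
  induction T using Finset.induction_on with
  | empty =>
    intro _
    refine ⟨fun t => t 0, fun t t' A => 0 ∈ A, ?_, fun s => rfl,
      fun s hs => absurd hs (Finset.notMem_empty s)⟩
    intro W _ G
    exact ⟨G 0, fun l z hz => hz 0, fun w => rfl, fun u w => Iff.rfl⟩
  | insert s T hsT ih =>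
    intro hT
    obtain ⟨τf, κf, hf, hfi, hf'⟩ := ih fun s' hs' => hT s' (Finset.mem_insert_of_mem hs')
    obtain ⟨τg, κg, hg, hgi, hg'⟩ := h s (hT s (Finset.mem_insert_self s T))
    have hcst : ∀ s' : SS 𝔹, (![τg (fun _ => s'), τg (sw fun _ => s')] : Fin 2 → SS 𝔹) =
        fun _ => s' := by
      intro s'
      funext i
      fin_cases i <;> exact hgi s'
    refine ⟨_, _, bh_comp hf hg, fun s' => ?_, fun s' hs' A h1 => ?_⟩
    · simp only [hcst]
      exact hfi s'
    · have hN' : ¬ Clp 𝔸 𝔹 s'.1 := hN s' (hT s' hs')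
      have hfs : ¬ κf (fun _ => s') (fun _ => s') ∅ := fun hk => hN' (CMA_sep hB hf s' hk)
      have hgs : ¬ κg (fun _ => s') (fun _ => s') ∅ := fun hk => hN' (CMA_sep hB hg s' hk)
      simp only [hcst] at h1
      rcases Finset.mem_insert.mp hs' with rfl | hs'
      · -- the new type
        by_contra hA
        refine hfs ?_
        have : {j | (![κg (fun _ => s') (fun _ => s') A,
            κg (sw fun _ => s') (sw fun _ => s') (sS A)] : Fin 2 → Prop) j} = ∅ := by
          ext j
          constructor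
          · intro hj
            fin_cases j
            · exact (hA (hg' A hj)).elim
            · have h2 : sS A = Set.univ := hg' _ hj
              refine (hA ?_).elim
              ext i
              have h3 : i.rev ∈ sS A := by rw [h2]; trivial
              have h4 : i.rev.rev ∈ A := h3
              rw [Fin.rev_rev] at h4
              exact ⟨fun _ => trivial, fun _ => h4⟩
          · exact fun hj => hj.elim
        rwa [this] at h1
      · -- an old type
        have h2 := hf' s' hs' _ h1
        have h0 : κg (fun _ => s') (fun _ => s') A := by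
          have : (0 : Fin 2) ∈ {j | (![κg (fun _ => s') (fun _ => s') A,
            κg (sw fun _ => s') (sw fun _ => s') (sS A)] : Fin 2 → Prop) j} := by
            rw [h2]; trivial
          exact this
        have h1' : κg (fun _ => s') (fun _ => s') (sS A) := by
          have : (1 : Fin 2) ∈ {j | (![κg (fun _ => s') (fun _ => s') A,
            κg (sw fun _ => s') (sw fun _ => s') (sS A)] : Fin 2 → Prop) j} := by
            rw [h2]; trivial
          exact this
        -- both `{0}` and `{1}` cannot hold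
        have hno : ¬ (κg (fun _ => s') (fun _ => s') {0} ∧ κg (fun _ => s') (fun _ => s') {1}) := by
          rintro ⟨k0, k1⟩
          obtain ⟨x, y, hxy, hx, hy⟩ := CMA_two hB s'
          obtain ⟨ψ, _, _, he⟩ := hg (Fin 3) ![![x, x, y], ![x, y, y]]
          have ty : ∀ u : Fin 3, (fun i => vt (P0 𝔹) (c0 𝔹) ((![![x, x, y], ![x, y, y]] :
              Fin 2 → Fin 3 → V) i u)) = fun _ => s' := by
            intro u
            funext i
            fin_cases i <;> fin_cases u <;> first | exact hx | exact hy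
          have e01 : ψ 0 = ψ 1 := by
            rw [he 0 1, ty, ty]
            have : {i | (![![x, x, y], ![x, y, y]] : Fin 2 → Fin 3 → V) i 0 =
                (![![x, x, y], ![x, y, y]] : Fin 2 → Fin 3 → V) i 1} = {0} := by
              ext i
              fin_cases i
              · exact ⟨fun _ => rfl, fun _ => rfl⟩
              · exact ⟨fun h => (hxy h).elim, fun h => absurd h (by decide)⟩
            rw [this]
            exact k0
          have e12 : ψ 1 = ψ 2 := by
            rw [he 1 2, ty, ty]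
            have : {i | (![![x, x, y], ![x, y, y]] : Fin 2 → Fin 3 → V) i 1 =
                (![![x, x, y], ![x, y, y]] : Fin 2 → Fin 3 → V) i 2} = {1} := by
              ext i
              fin_cases i
              · exact ⟨fun h => (hxy h).elim, fun h => absurd h (by decide)⟩
              · exact ⟨fun _ => rfl, fun _ => rfl⟩
            rw [this]
            exact k1
          have e02 : ψ 0 = ψ 2 := e01.trans e12
          rw [he 0 2, ty, ty] at e02
          have : {i | (![![x, x, y], ![x, y, y]] : Fin 2 → Fin 3 → V) i 0 =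
              (![![x, x, y], ![x, y, y]] : Fin 2 → Fin 3 → V) i 2} = ∅ := by
            ext i
            fin_cases i
            · exact ⟨fun h => (hxy h).elim, fun h => h.elim⟩
            · exact ⟨fun h => (hxy h).elim, fun h => h.elim⟩
          rw [this] at e02
          exact hgs e02
        by_cases a0 : (0 : Fin 2) ∈ A <;> by_cases a1 : (1 : Fin 2) ∈ A
        · ext i
          fin_cases i
          · exact ⟨fun _ => trivial, fun _ => a0⟩
          · exact ⟨fun _ => trivial, fun _ => a1⟩
        · exfalso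
          have hA : A = {0} := by
            ext i
            fin_cases i
            · exact ⟨fun _ => rfl, fun _ => a0⟩
            · exact ⟨fun h => (a1 h).elim, fun h => absurd h (by decide)⟩
          have hB : sS A = {1} := by
            ext i
            fin_cases i
            · exact ⟨fun h => (a1 h).elim, fun h => absurd h (by decide)⟩
            · exact ⟨fun _ => rfl, fun _ => a0⟩
          rw [hB] at h1'
          rw [hA] at h0
          exact hno ⟨h0, h1'⟩
        · exfalso
          have hA : A = {1} := by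
            ext i
            fin_cases i
            · exact ⟨fun h => (a0 h).elim, fun h => absurd h (by decide)⟩
            · exact ⟨fun _ => rfl, fun _ => a1⟩
          have hB : sS A = {0} := by
            ext i
            fin_cases i
            · exact ⟨fun _ => rfl, fun _ => a1⟩
            · exact ⟨fun h => (a0 h).elim, fun h => absurd h (by decide)⟩
          rw [hB] at h1'
          rw [hA] at h0
          exact hno ⟨h1', h0⟩
        · exfalso
          have hA : A = ∅ := by
            ext i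
            fin_cases i
            · exact ⟨fun h => (a0 h).elim, fun h => h.elim⟩
            · exact ⟨fun h => (a1 h).elim, fun h => h.elim⟩
          rw [hA] at h0
          exact hgs h0

theorem pf_CMA : T_CMA := by
  intro V σ ρ 𝔸 𝔹 hC h
  have := Fintype.ofFinite (SS 𝔹)
  classical
  obtain ⟨τ, κ, h1, h2, h3⟩ := CMA_ind hC.prs.hb
    (fun s hs hc => hs (hC.ncb s.1 s.2 hc)) h
    (Finset.univ.filter fun s : SS 𝔹 => ¬ Blind 𝔸 𝔹 s.1)
    (fun s hs => (Finset.mem_filter.1 hs).2)
  exact ⟨τ, κ, h1, h2, fun s hs => h3 s (Finset.mem_filter.2 ⟨Finset.mem_univ s, hs⟩)⟩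

end cma

end Pool.Agent.H57.LH
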