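import Pool.Agent.H57.LH.Asm
import Pool.Agent.H57.LH.Targets2
import Pool.Agent.H50.AR.Final
import Pool.Agent.H57.LCI.Bound

/-!
# All first-order reducts of structures with local completions: the closed parts and the final form
-/

set_option autoImplicit false
set_option linter.unusedVariables false

namespace Pool.Agent.H57.LH

open Pool.Agent.H68.BP Pool.Agent.H58.SF Pool.Agent.H53.GC Pool.Agent.H53.NR
open Pool.Agent.H57.LCI (LocalCompletions)
open Pool.Agent.H44.KR (P1 P2)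
open Function

/-- the parts which are already proved -/
theorem lg : LG where
  cyf := Pool.Agent.H50.AR.v_CYF
  cor := Pool.Agent.H18.GC.pf_COR
  omg := Pool.Agent.H18.GC.pf_OMG
  cyc := Pool.Agent.H63.EQM.pf_CYC Pool.Agent.H50.AR.v_CYF
  nkc := Pool.Agent.H88.EQM.pf_NKC Pool.Agent.H50.AR.v_SEL
  bhir := Pool.Agent.H57.AR.pf_BHIR
  cybr := Pool.Agent.H47.AR.pf_CYBR
  olg := Pool.Agent.H50.EQ.pf_OLG

/-- the theorem for all homogeneous structures with local completions -/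
theorem lh_all (h1 : P1) (h2 : P2) (hR : LR) (hKK : LK) (hS : LS) (hT : LT) (hF : T_FIB)
    (hA : LA) (hZ : T_ZER) (τ σ : Sig) (B : Type) [Countable B] [Nonempty B] (𝔹 : Str τ B)
    (𝔸 : Str σ B) (hH : Homogeneous 𝔹) (hL : LocalCompletions 𝔹)
    (C : Set B) (hC : C.Finite)
    (hS' : ∀ g : B ≃ B, IsAut 𝔹 g → (∀ x ∈ C, g x = x) → IsAut 𝔸 g) :
    FinitelyBounded 𝔹 ∧ (PPConstructsK3 𝔸 ∨ ∃ (σ' : Sig) (Y : Type) (_ : Finite Y)
      (𝕋 : Str σ' Y), ¬ PPConstructsK3 𝕋 ∧ N793a5b8e.ManyOneReducible (CSP 𝔸) (CSP 𝕋)) := by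
  refine ⟨Pool.Agent.H57.LCI.bounded_of_lc hL, ?_⟩
  obtain ⟨τ', 𝔹', har, hH', hL', hg⟩ := hZ B τ 𝔹 hH hL
  exact lh_main h1 h2 hR hKK hS hT hF lg hA τ' σ B 𝔹' 𝔸 har hH' hL' C hC
    (fun g h3 h4 => hS' g (hg g h3) h4)

end Pool.Agent.H57.LH
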