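import Pool.Agent.H57.LCI.Metric

/-!
# Metric spaces with distances `1, …, n`, in any signature with `n` binary symbols
-/

set_option autoImplicit false

namespace Pool.Agent.H57.LH

open Pool.Agent.H68.BP Pool.Agent.H58.SF Pool.Agent.H57.LCI

/-- All symbols are binary, there is at least one, and the finite structures which embed into `𝔹` are
the metric spaces with distances in `{1, …, n}`, where `n` is the number of symbols; the symbol
`l` is the relation `distance l + 1`. -/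
def MetricSpaces {τ : Sig} {B : Type} (𝔹 : Str τ B) : Prop :=
  1 ≤ τ.m ∧ ∃ h : ∀ l, τ.ar l = 2, ∀ (k : ℕ) (𝕏 : Str τ (Fin k)), Embeds 𝕏 𝔹 ↔
    ∃ d : Fin k → Fin k → ℕ, IsMet τ.m d ∧ ∀ (l : Fin τ.m) (x : Fin 2 → Fin k),
      𝕏 l (fun i => x (Fin.cast (h l) i)) ↔ d (x 0) (x 1) = (l : ℕ) + 1

theorem lc_met {τ : Sig} {B : Type} {𝔹 : Str τ B} (h : MetricSpaces 𝔹) : LocalCompletions 𝔹 := by
  obtain ⟨m, ar⟩ := τ
  obtain ⟨h1, h2, h3⟩ := h
  obtain rfl : ar = fun _ => 2 := funext h2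
  exact lc_metric (n := m) h1 h3

end Pool.Agent.H57.LH
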